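import Pool.Agent.Run7.h46.S.Defs

/-! Calculus of independent mixtures. -/

namespace Run7.h46.S

open Filter Function Run7.h46 FirstOrder FirstOrder.Language

variable {L : FirstOrder.Language.{0, 0}} {N N' T T' X : Type}

/-- all relations of `A` are stable, uniformly -/
def Stab (A : Str L N) (n : ℕ) : Prop :=
  ∀ (X Y : Type) (R : Σ n, L.Relations n) (F : X → Y → Fin R.1 → N),
    (∀ k, (∃ f : X → N, ∀ x y, F x y k = f x) ∨ (∃ g : Y → N, ∀ x y, F x y k = g y)) →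
    NoHG n (fun x y => A R (F x y))

theorem Stable.stab {B : Str L ℕ} {n : ℕ} (hB : Stable B n) {A : Str L N} (hA : FinEmb A B) :
    Stab A n := fun _ _ R F hF => stab_sep hB hA R F hF

/-- a limit of a separated family of tuples -/
theorem Stab.lim {A : Str L N} {n : ℕ} (hA : Stab A n) {X Y Z : Type} (𝒲 : Ultrafilter Z)
    (R : Σ n, L.Relations n) (F : X → Y → Z → Fin R.1 → N)
    (hF : ∀ z k, (∃ f : X → N, ∀ x y, F x y z k = f x) ∨ (∃ g : Y → N, ∀ x y, F x y z k = g y)) :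
    NoHG n (fun x y => ∀ᶠ z in (𝒲 : Filter Z), A R (F x y z)) :=
  NoHG.lim (ρ := fun z x y => A R (F x y z)) (fun z => hA X Y R (fun x y => F x y z) (hF z)) 𝒲

theorem Stab.swap {A : Str L N} {n : ℕ} (hA : Stab A n) {X Y : Type} (𝒰 : Ultrafilter X)
    (𝒱 : Ultrafilter Y) (R : Σ n, L.Relations n) (F : X → Y → Fin R.1 → N)
    (hF : ∀ k, (∃ f : X → N, ∀ x y, F x y k = f x) ∨ (∃ g : Y → N, ∀ x y, F x y k = g y)) :
    (∀ᶠ x in (𝒰 : Filter X), ∀ᶠ y in (𝒱 : Filter Y), A R (F x y)) ↔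
      ∀ᶠ y in (𝒱 : Filter Y), ∀ᶠ x in (𝒰 : Filter X), A R (F x y) :=
  DL (hA X Y R F hF) 𝒰 𝒱

theorem Stab.swap1 {A : Str L N} {n : ℕ} (hA : Stab A n) {X Y Z : Type} (𝒰 : Ultrafilter X)
    (𝒱 : Ultrafilter Y) (𝒲 : Ultrafilter Z) (R : Σ n, L.Relations n)
    (F : X → Y → Z → Fin R.1 → N)
    (hF : ∀ z k, (∃ f : X → N, ∀ x y, F x y z k = f x) ∨ (∃ g : Y → N, ∀ x y, F x y z k = g y)) :
    (∀ᶠ x in (𝒰 : Filter X), ∀ᶠ y in (𝒱 : Filter Y), ∀ᶠ z in (𝒲 : Filter Z), A R (F x y z)) ↔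
      ∀ᶠ y in (𝒱 : Filter Y), ∀ᶠ x in (𝒰 : Filter X), ∀ᶠ z in (𝒲 : Filter Z), A R (F x y z) :=
  DL (hA.lim 𝒲 R F hF) 𝒰 𝒱

open Classical in
/-- substitute elements for the coordinates outside `C` -/
noncomputable def sub (C : Set T) (v : T → N) : T ⊕ N → T ⊕ N
  | Sum.inl x => if x ∈ C then Sum.inl x else Sum.inr (v x)
  | Sum.inr n => Sum.inr n

open Classical in
theorem elim_sub (C : Set T) (w v : T → N) {n : ℕ} (t : Fin n → T ⊕ N) :
    Sum.elim w id ∘ (sub C v ∘ t) = Sum.elim (mix C w v) id ∘ t := by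
  funext k
  simp only [comp_apply]
  rcases t k with x | m
  · by_cases hx : x ∈ C
    · simp [sub, mix, hx]
    · simp [sub, mix, hx]
  · simp [sub]

open Classical in
theorem elim_sub' (C : Set T) (w v : T → N) {n : ℕ} (t : Fin n → T ⊕ N) :
    Sum.elim v id ∘ (sub Cᶜ w ∘ t) = Sum.elim (mix C w v) id ∘ t := by
  rw [elim_sub]
  congr 2
  funext x
  by_cases hx : x ∈ C
  · simp [mix, hx]
  · simp [mix, hx]

theorem mix_compl (C : Set T) (w v : T → N) : mix Cᶜ w v = mix C v w := by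
  funext x
  by_cases hx : x ∈ C
  · simp [mix, hx]
  · simp [mix, hx]

theorem ty_apply (A : Str L N) (𝒰 : Ultrafilter (T → N)) (R : Σ n, L.Relations n)
    (t : Fin R.1 → T ⊕ N) :
    ty A 𝒰 R t ↔ ∀ᶠ w in (𝒰 : Filter (T → N)), A R (Sum.elim w id ∘ t) := Iff.rfl

theorem ty_mixU (A : Str L N) (C : Set T) (𝒰 𝒱 : Ultrafilter (T → N)) (R : Σ n, L.Relations n)
    (t : Fin R.1 → T ⊕ N) :
    ty A (mixU C 𝒰 𝒱) R t ↔ ∀ᶠ w in (𝒰 : Filter (T → N)), ∀ᶠ v in (𝒱 : Filter (T → N)),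
      A R (Sum.elim (mix C w v) id ∘ t) := Iff.rfl

theorem ty_mixU_right (A : Str L N) (C : Set T) (𝒰 𝒱 : Ultrafilter (T → N))
    (R : Σ n, L.Relations n) (t : Fin R.1 → T ⊕ N) :
    ty A (mixU C 𝒰 𝒱) R t ↔ ∀ᶠ w in (𝒰 : Filter (T → N)), ty A 𝒱 R (sub Cᶜ w ∘ t) := by
  rw [ty_mixU]
  refine eventually_congr (Eventually.of_forall fun w => ?_)
  rw [ty_apply]
  refine eventually_congr (Eventually.of_forall fun v => ?_)
  rw [elim_sub']

theorem sep_mix (C : Set T) {n : ℕ} (t : Fin n → T ⊕ N) (k : Fin n) :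
    (∃ f : (T → N) → N, ∀ w v, (Sum.elim (mix C w v) id ∘ t) k = f w) ∨
      (∃ g : (T → N) → N, ∀ w v, (Sum.elim (mix C w v) id ∘ t) k = g v) := by
  rcases h : t k with x | m
  · by_cases hx : x ∈ C
    · exact Or.inl ⟨fun w => w x, fun w v => by simp [h, mix, hx]⟩
    · exact Or.inr ⟨fun v => v x, fun w v => by simp [h, mix, hx]⟩
  · exact Or.inl ⟨fun _ => m, fun w v => by simp [h]⟩

theorem ty_mixU_swap {A : Str L N} {n : ℕ} (hA : Stab A n) (C : Set T)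
    (𝒰 𝒱 : Ultrafilter (T → N)) (R : Σ n, L.Relations n) (t : Fin R.1 → T ⊕ N) :
    ty A (mixU C 𝒰 𝒱) R t ↔ ∀ᶠ v in (𝒱 : Filter (T → N)), ∀ᶠ w in (𝒰 : Filter (T → N)),
      A R (Sum.elim (mix C w v) id ∘ t) :=
  hA.swap 𝒰 𝒱 R (fun w v => Sum.elim (mix C w v) id ∘ t) (sep_mix C t)

theorem ty_mixU_left {A : Str L N} {n : ℕ} (hA : Stab A n) (C : Set T)
    (𝒰 𝒱 : Ultrafilter (T → N)) (R : Σ n, L.Relations n) (t : Fin R.1 → T ⊕ N) :
    ty A (mixU C 𝒰 𝒱) R t ↔ ∀ᶠ v in (𝒱 : Filter (T → N)), ty A 𝒰 R (sub C v ∘ t) := by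
  rw [ty_mixU_swap hA]
  refine eventually_congr (Eventually.of_forall fun w => ?_)
  rw [ty_apply]
  refine eventually_congr (Eventually.of_forall fun v => ?_)
  rw [elim_sub]

theorem mixU_symm {A : Str L N} {n : ℕ} (hA : Stab A n) (C : Set T)
    (𝒰 𝒱 : Ultrafilter (T → N)) : ty A (mixU C 𝒰 𝒱) = ty A (mixU Cᶜ 𝒱 𝒰) := by
  funext R t
  rw [eq_iff_iff, ty_mixU_swap hA, ty_mixU]
  simp only [mix_compl]

theorem AgreeOn.mono {A : Str L N} {D D' : Set T} {𝒰 𝒱 : Ultrafilter (T → N)}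
    (h : AgreeOn A D' 𝒰 𝒱) (hD : D ⊆ D') : AgreeOn A D 𝒰 𝒱 :=
  fun R t ht => h R t fun k x hx => hD (ht k x hx)

theorem AgreeOn.symm {A : Str L N} {D : Set T} {𝒰 𝒱 : Ultrafilter (T → N)}
    (h : AgreeOn A D 𝒰 𝒱) : AgreeOn A D 𝒱 𝒰 := fun R t ht => (h R t ht).symm

theorem AgreeOn.trans {A : Str L N} {D : Set T} {𝒰 𝒱 𝒲 : Ultrafilter (T → N)}
    (h : AgreeOn A D 𝒰 𝒱) (h' : AgreeOn A D 𝒱 𝒲) : AgreeOn A D 𝒰 𝒲 :=
  fun R t ht => (h R t ht).trans (h' R t ht)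

theorem agreeOn_univ {A : Str L N} {𝒰 𝒱 : Ultrafilter (T → N)} :
    AgreeOn A Set.univ 𝒰 𝒱 ↔ ty A 𝒰 = ty A 𝒱 := by
  constructor
  · intro h
    funext R t
    exact propext (h R t fun _ _ _ => Set.mem_univ _)
  · intro h R t _
    rw [h]

theorem agreeOn_of_eq {A : Str L N} {D : Set T} {𝒰 𝒱 : Ultrafilter (T → N)}
    (h : ty A 𝒰 = ty A 𝒱) : AgreeOn A D 𝒰 𝒱 := fun R t _ => by rw [h]

theorem congR {A : Str L N} {C D : Set T} {𝒰 𝒱 𝒱' : Ultrafilter (T → N)}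
    (h : AgreeOn A (D \ C) 𝒱 𝒱') : AgreeOn A D (mixU C 𝒰 𝒱) (mixU C 𝒰 𝒱') := by
  intro R t ht
  rw [ty_mixU_right, ty_mixU_right]
  refine eventually_congr (Eventually.of_forall fun w => h R _ ?_)
  intro k x hx
  simp only [comp_apply] at hx
  rcases hk : t k with y | m
  · rw [hk] at hx
    by_cases hy : y ∈ C
    · simp [sub, hy] at hx
    · simp [sub, hy] at hx
      subst hx
      exact ⟨ht k y hk, hy⟩
  · rw [hk] at hx
    simp [sub] at hx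

theorem congL {A : Str L N} {n : ℕ} (hA : Stab A n) {C D : Set T}
    {𝒰 𝒰' 𝒱 : Ultrafilter (T → N)}
    (h : AgreeOn A (D ∩ C) 𝒰 𝒰') : AgreeOn A D (mixU C 𝒰 𝒱) (mixU C 𝒰' 𝒱) := by
  intro R t ht
  rw [ty_mixU_left hA, ty_mixU_left hA]
  refine eventually_congr (Eventually.of_forall fun w => h R _ ?_)
  intro k x hx
  simp only [comp_apply] at hx
  rcases hk : t k with y | m
  · rw [hk] at hx
    by_cases hy : y ∈ C
    · simp [sub, hy] at hx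
      subst hx
      exact ⟨ht k y hk, hy⟩
    · simp [sub, hy] at hx
  · rw [hk] at hx
    simp [sub] at hx

theorem cong_eq {A : Str L N} {n : ℕ} (hA : Stab A n) (C : Set T)
    {𝒰 𝒰' 𝒱 𝒱' : Ultrafilter (T → N)} (h : ty A 𝒰 = ty A 𝒰') (h' : ty A 𝒱 = ty A 𝒱') :
    ty A (mixU C 𝒰 𝒱) = ty A (mixU C 𝒰' 𝒱') := by
  rw [← agreeOn_univ]
  exact (congL hA (agreeOn_of_eq h)).trans (congR (agreeOn_of_eq h'))

/-- relabelling of coordinates -/
def rel (f : T' → T) (𝒰 : Ultrafilter (T → N)) : Ultrafilter (T' → N) := 𝒰.map (fun w => w ∘ f)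

theorem ty_rel (A : Str L N) (f : T' → T) (𝒰 : Ultrafilter (T → N)) (R : Σ n, L.Relations n)
    (t : Fin R.1 → T' ⊕ N) : ty A (rel f 𝒰) R t ↔ ty A 𝒰 R (Sum.map f id ∘ t) := by
  change (∀ᶠ w in (𝒰 : Filter (T → N)), A R (Sum.elim (w ∘ f) id ∘ t)) ↔ _
  rw [ty_apply]
  refine eventually_congr (Eventually.of_forall fun w => ?_)
  have : Sum.elim (w ∘ f) id ∘ t = Sum.elim w id ∘ (Sum.map f id ∘ t) := by
    funext k
    simp only [comp_apply]
    rcases t k with x | m <;> simp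
  rw [this]

theorem Fr.rel {f : T' → T} (hf : Injective f) {𝒰 : Ultrafilter (T → N)} (h : Fr 𝒰) :
    Fr (rel f 𝒰) := by
  constructor
  · exact h.1.mono fun w hw => hw.comp hf
  · exact fun n => (h.2 n).mono fun w hw x => hw (f x)

theorem Fr.push {ι : N → N'} (hι : Injective ι) {𝒰 : Ultrafilter (T → N)} (h : Fr 𝒰) :
    Fr (push ι 𝒰) := by
  constructor
  · exact h.1.mono fun w hw => hι.comp hw
  · intro n
    change ∀ᶠ w in (𝒰 : Filter (T → N)), ∀ x, ι (w x) ≠ n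
    by_cases hn : ∃ m, ι m = n
    · obtain ⟨m, rfl⟩ := hn
      exact (h.2 m).mono fun w hw x hx => hw x (hι hx)
    · exact Eventually.of_forall fun w x hx => hn ⟨w x, hx⟩

theorem Fr.avoid {𝒰 : Ultrafilter (T → N)} (h : Fr 𝒰) {F : Set N} (hF : F.Finite) :
    ∀ᶠ w in (𝒰 : Filter (T → N)), ∀ x, w x ∉ F := by
  have : ∀ᶠ w in (𝒰 : Filter (T → N)), ∀ n ∈ F, ∀ x, w x ≠ n :=
    (Filter.eventually_all_finite hF).2 fun n _ => h.2 n
  exact this.mono fun w hw x hx => hw _ hx x rfl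

theorem Fr.mixU [Finite T] {C : Set T} {𝒰 𝒱 : Ultrafilter (T → N)} (h : Fr 𝒰) (h' : Fr 𝒱) :
    Fr (mixU C 𝒰 𝒱) := by
  constructor
  · change ∀ᶠ w in (𝒰 : Filter (T → N)), ∀ᶠ v in (𝒱 : Filter (T → N)), Injective (mix C w v)
    filter_upwards [h.1] with w hw
    filter_upwards [h'.1, h'.avoid (Set.finite_range w)] with v hv hvw
    intro x y hxy
    by_cases hx : x ∈ C <;> by_cases hy : y ∈ C
    · simp only [mix, hx, hy, if_true] at hxy
      exact hw hxy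
    · simp only [mix, hx, hy, if_true, if_false] at hxy
      exact absurd ⟨x, hxy⟩ (hvw y)
    · simp only [mix, hx, hy, if_true, if_false] at hxy
      exact absurd ⟨y, hxy.symm⟩ (hvw x)
    · simp only [mix, hx, hy, if_false] at hxy
      exact hv hxy
  · intro n
    change ∀ᶠ w in (𝒰 : Filter (T → N)), ∀ᶠ v in (𝒱 : Filter (T → N)), ∀ x, mix C w v x ≠ n
    filter_upwards [h.2 n] with w hw
    filter_upwards [h'.2 n] with v hv x
    by_cases hx : x ∈ C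
    · simp only [mix, hx, if_true]; exact hw x
    · simp only [mix, hx, if_false]; exact hv x

theorem push_mixU (ι : N → N') (C : Set T) (𝒰 𝒱 : Ultrafilter (T → N)) :
    push ι (mixU C 𝒰 𝒱) = mixU C (push ι 𝒰) (push ι 𝒱) := by
  apply Ultrafilter.coe_injective
  ext s
  change (∀ᶠ w in (𝒰 : Filter (T → N)), ∀ᶠ v in (𝒱 : Filter (T → N)), ι ∘ mix C w v ∈ s) ↔
    (∀ᶠ w in (𝒰 : Filter (T → N)), ∀ᶠ v in (𝒱 : Filter (T → N)), mix C (ι ∘ w) (ι ∘ v) ∈ s)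
  refine eventually_congr (Eventually.of_forall fun w =>
    eventually_congr (Eventually.of_forall fun v => ?_))
  have : ι ∘ mix C w v = mix C (ι ∘ w) (ι ∘ v) := by
    funext x
    by_cases hx : x ∈ C <;> simp [mix, hx]
  rw [this]

theorem push_rel (ι : N → N') (f : T' → T) (𝒰 : Ultrafilter (T → N)) :
    push ι (rel f 𝒰) = rel f (push ι 𝒰) := rfl

theorem ty_push (A' : Str L N') (ι : N → N') (𝒰 : Ultrafilter (T → N))
    (R : Σ n, L.Relations n) (t : Fin R.1 → T ⊕ N') :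
    ty A' (push ι 𝒰) R t ↔ ∀ᶠ w in (𝒰 : Filter (T → N)), A' R (Sum.elim (ι ∘ w) id ∘ t) := Iff.rfl

theorem ty_push_map {A : Str L N} {A' : Str L N'} {ι : N → N'} (h : A'.pull ι = A)
    (𝒰 : Ultrafilter (T → N)) (R : Σ n, L.Relations n) (t : Fin R.1 → T ⊕ N) :
    ty A' (push ι 𝒰) R (Sum.map id ι ∘ t) ↔ ty A 𝒰 R t := by
  rw [ty_push, ty_apply, ← h]
  refine eventually_congr (Eventually.of_forall fun w => ?_)
  rw [Str.pull_apply]
  have : Sum.elim (ι ∘ w) id ∘ (Sum.map id ι ∘ t) = ι ∘ (Sum.elim w id ∘ t) := by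
    funext k
    simp only [comp_apply]
    rcases t k with x | m <;> simp
  rw [this]

end Run7.h46.S
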