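import Pool.Agent.Run7.h46.S.NM

/-! Adding independent free cells to a structure. -/

namespace Run7.h46.S

open Filter Function Run7.h46 FirstOrder FirstOrder.Language

variable {L : FirstOrder.Language.{0, 0}} {N N' T T' V X : Type} {n : ℕ}

theorem FreeAt.restrict {A' : Str L N'} {e : N → N'} (he : Injective e) {𝒰 : Ultrafilter (T → N)}
    {w : T → N} (h : FreeAt A' (push e 𝒰) (e ∘ w)) : FreeAt (A'.pull e) 𝒰 w := by
  intro R t ht
  have h1 := h R (Sum.map id e ∘ t) (by
    intro k m hk x hx
    simp only [comp_apply] at hk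
    rcases htk : t k with y | m'
    · rw [htk] at hk; simp at hk
    · rw [htk] at hk
      simp only [Sum.map_inr, Sum.inr.injEq] at hk
      exact ht k m' htk x (he (hx.trans hk.symm)))
  rw [ty_push_map rfl] at h1
  rw [← h1, Str.pull_apply]
  have : e ∘ (Sum.elim w id ∘ t) = Sum.elim (e ∘ w) id ∘ (Sum.map id e ∘ t) := by
    funext k
    simp only [comp_apply]
    rcases t k with x | m <;> simp
  rw [this]

section

variable (a : ℕ → ℕ) (𝒰 : ∀ j, Ultrafilter (Fin (a j) → ℕ))

/-- independent choices for the first `m` cells -/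
noncomputable def VV : ℕ → Ultrafilter (∀ j, Fin (a j) → ℕ)
  | 0 => pure (fun _ _ => 0)
  | m + 1 => (VV m).bind (fun h => (𝒰 m).map (fun v => update h m v))

theorem VV_succ (m : ℕ) (P : (∀ j, Fin (a j) → ℕ) → Prop) :
    (∀ᶠ h in (VV a 𝒰 (m + 1) : Filter (∀ j, Fin (a j) → ℕ)), P h) ↔
      ∀ᶠ h in (VV a 𝒰 m : Filter (∀ j, Fin (a j) → ℕ)), ∀ᶠ v in (𝒰 m : Filter _),
        P (update h m v) := Iff.rfl

theorem VV_stab (m : ℕ) (P : (∀ j, Fin (a j) → ℕ) → Prop)
    (hP : ∀ h j v, m ≤ j → (P (update h j v) ↔ P h)) (k : ℕ) :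
    (∀ᶠ h in (VV a 𝒰 (m + k) : Filter (∀ j, Fin (a j) → ℕ)), P h) ↔
      ∀ᶠ h in (VV a 𝒰 m : Filter (∀ j, Fin (a j) → ℕ)), P h := by
  induction k with
  | zero => rfl
  | succ k ih =>
    rw [← ih, ← add_assoc, VV_succ]
    refine eventually_congr (Eventually.of_forall fun h => ?_)
    have : ∀ v, (P (update h (m + k) v) ↔ P h) := fun v => hP h _ v (Nat.le_add_right _ _)
    simp only [this, eventually_const]

/-- the universe with cells -/
abbrev UC : Type := ℕ ⊕ (Σ j, Fin (a j))

variable {a}

/-- evaluation -/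
def evc (h : ∀ j, Fin (a j) → ℕ) : UC a → ℕ
  | Sum.inl m => m
  | Sum.inr p => h p.1 p.2

variable (a)

/-- the ultrafilter of independent choices -/
noncomputable def VW : Ultrafilter (∀ j, Fin (a j) → ℕ) := (hyperfilter ℕ).bind (VV a 𝒰)

/-- the structure with one free cell for every index -/
noncomputable def NA (M : Str L ℕ) : Str L (UC a) := limS M (VW a 𝒰) evc

theorem VW_ev (m : ℕ) (P : (∀ j, Fin (a j) → ℕ) → Prop)
    (hP : ∀ h j v, m ≤ j → (P (update h j v) ↔ P h)) :
    (∀ᶠ h in (VW a 𝒰 : Filter (∀ j, Fin (a j) → ℕ)), P h) ↔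
      ∀ᶠ h in (VV a 𝒰 m : Filter (∀ j, Fin (a j) → ℕ)), P h := by
  change (∀ᶠ k in (hyperfilter ℕ : Filter ℕ), ∀ᶠ h in (VV a 𝒰 k : Filter _), P h) ↔ _
  have h𝒰 : (hyperfilter ℕ : Filter ℕ) ≤ atTop := by
    rw [← Nat.cofinite_eq_atTop]; exact hyperfilter_le_cofinite
  have h1 : ∀ᶠ k in (hyperfilter ℕ : Filter ℕ), ((∀ᶠ h in (VV a 𝒰 k : Filter _), P h) ↔
      ∀ᶠ h in (VV a 𝒰 m : Filter (∀ j, Fin (a j) → ℕ)), P h) := by
    filter_upwards [h𝒰 (eventually_ge_atTop m)] with k hk
    obtain ⟨k', rfl⟩ := Nat.exists_eq_add_of_le hk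
    exact VV_stab a 𝒰 m P hP k'
  rw [eventually_congr h1, eventually_const]

theorem NA_eq (M : Str L ℕ) (m : ℕ) (R : Σ n, L.Relations n) (t : Fin R.1 → UC a)
    (ht : ∀ k p, t k = Sum.inr p → p.1 < m) :
    NA a 𝒰 M R t ↔ ∀ᶠ h in (VV a 𝒰 m : Filter (∀ j, Fin (a j) → ℕ)), M R (evc h ∘ t) := by
  refine VW_ev a 𝒰 m (fun h => M R (evc h ∘ t)) ?_
  intro h j v hj
  have : evc (update h j v) ∘ t = evc h ∘ t := by
    funext k
    simp only [comp_apply]
    rcases htk : t k with m' | p
    · rfl
    · have : p.1 ≠ j := fun h => by have := ht k p htk; omega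
      simp only [evc]
      rw [update_of_ne this]
  rw [this]

theorem NA_pull (M : Str L ℕ) : (NA a 𝒰 M).pull Sum.inl = M := by
  funext R x
  rw [eq_iff_iff, Str.pull_apply]
  change (∀ᶠ h in (VW a 𝒰 : Filter (∀ j, Fin (a j) → ℕ)), M R (evc h ∘ (Sum.inl ∘ x))) ↔ _
  have : ∀ h : ∀ j, Fin (a j) → ℕ, evc h ∘ (Sum.inl ∘ x) = x := fun h => rfl
  simp only [this, eventually_const]

theorem NA_finEmb [Finite (Σ n, L.Relations n)] (M : Str L ℕ) (hU : ∀ j, Fr (𝒰 j)) :
    FinEmb (NA a 𝒰 M) M := by
  apply limS_finEmb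
  -- key facts
  have key1 : ∀ (m : ℕ) (p : Σ j, Fin (a j)), ∀ᶠ h in (VW a 𝒰 : Filter _),
      evc h (Sum.inr p) ≠ m := by
    intro m p
    refine (VW_ev a 𝒰 (p.1 + 1) (fun h => evc h (Sum.inr p) ≠ m) ?_).2 ?_
    · intro h j v hj
      have : p.1 ≠ j := by omega
      simp only [evc]
      rw [update_of_ne this]
    · rw [VV_succ]
      refine Eventually.of_forall fun h => ?_
      refine ((hU p.1).2 m).mono fun v hv => ?_
      simp only [evc, update_self]
      exact hv _
  have key2 : ∀ (p q : Σ j, Fin (a j)), p.1 < q.1 → ∀ᶠ h in (VW a 𝒰 : Filter _),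
      evc h (Sum.inr p) ≠ evc h (Sum.inr q) := by
    intro p q hpq
    refine (VW_ev a 𝒰 (q.1 + 1) (fun h => evc h (Sum.inr p) ≠ evc h (Sum.inr q)) ?_).2 ?_
    · intro h j v hj
      have h1 : p.1 ≠ j := by omega
      have h2 : q.1 ≠ j := by omega
      simp only [evc]
      rw [update_of_ne h1, update_of_ne h2]
    · rw [VV_succ]
      refine Eventually.of_forall fun h => ?_
      refine ((hU q.1).2 (h p.1 p.2)).mono fun v hv => ?_
      simp only [evc, update_self]
      rw [update_of_ne hpq.ne]
      exact fun h => hv _ h.symm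
  rintro (m | p) (m' | q) hab
  · refine Eventually.of_forall fun h h1 => hab ?_
    simp only [evc] at h1
    rw [h1]
  · exact (key1 m q).mono fun h h1 h2 => h1 h2.symm
  · exact key1 m' p
  · rcases lt_trichotomy p.1 q.1 with h1 | h1 | h1
    · exact key2 p q h1
    · obtain ⟨j, x⟩ := p
      obtain ⟨j', y⟩ := q
      simp only at h1
      subst h1
      have hxy : x ≠ y := fun h => hab (by rw [h])
      refine (VW_ev a 𝒰 (j + 1) (fun h => evc h (Sum.inr ⟨j, x⟩) ≠ evc h (Sum.inr ⟨j, y⟩))
        ?_).2 ?_
      · intro h j' v hj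
        have h1 : j ≠ j' := by omega
        simp only [evc]
        rw [update_of_ne h1]
      · rw [VV_succ]
        refine Eventually.of_forall fun h => ?_
        refine (hU j).1.mono fun v hv => ?_
        simp only [evc, update_self]
        exact fun h => hxy (hv h)
    · exact (key2 q p h1).mono fun h h1 h2 => h1 h2.symm

theorem indep {M : Str L ℕ} (hM : Stab M n) (j : ℕ) (R : Σ n, L.Relations n) (m : ℕ) :
    ∀ (t : Fin R.1 → UC a), j < m →
    ((∀ᶠ h in (VV a 𝒰 m : Filter (∀ j, Fin (a j) → ℕ)), M R (evc h ∘ t)) ↔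
      ∀ᶠ v in (𝒰 j : Filter _), ∀ᶠ h in (VV a 𝒰 m : Filter (∀ j, Fin (a j) → ℕ)),
        M R (evc (update h j v) ∘ t)) := by
  classical
  induction m with
  | zero => intro t hj; exact absurd hj (Nat.not_lt_zero _)
  | succ m ih =>
    intro t hj
    have hswap : ∀ t : Fin R.1 → UC a, (∀ᶠ h in (VV a 𝒰 m : Filter (∀ j, Fin (a j) → ℕ)),
        ∀ᶠ v in (𝒰 m : Filter _), M R (evc (update h m v) ∘ t)) ↔
        ∀ᶠ v in (𝒰 m : Filter _), ∀ᶠ h in (VV a 𝒰 m : Filter (∀ j, Fin (a j) → ℕ)),
          M R (evc (update h m v) ∘ t) := by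
      intro t
      refine hM.swap (VV a 𝒰 m) (𝒰 m) R (fun h v => evc (update h m v) ∘ t) ?_
      intro k
      rcases htk : t k with m' | p
      · exact Or.inl ⟨fun _ => m', fun h v => by simp [htk, evc]⟩
      · by_cases hp : p.1 = m
        · obtain ⟨j', x⟩ := p
          simp only at hp
          subst hp
          exact Or.inr ⟨fun v => v x, fun h v => by simp [htk, evc]⟩
        · exact Or.inl ⟨fun h => h p.1 p.2, fun h v => by simp [htk, evc, update_of_ne hp]⟩
    rw [VV_succ, hswap]
    by_cases hjm : j = m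
    · subst hjm
      refine eventually_congr (Eventually.of_forall fun v => ?_)
      rw [VV_succ]
      refine eventually_congr (Eventually.of_forall fun h => ?_)
      simp only [update_idem, eventually_const]
    · have hjm' : j < m := by omega
      -- substitute the last cell
      let tu : (Fin (a m) → ℕ) → Fin R.1 → UC a := fun u k =>
        Sum.elim (fun m' => Sum.inl m') (fun p => if h : p.1 = m then Sum.inl (u (h ▸ p.2))
          else Sum.inr p) (t k)
      have htu : ∀ (h : ∀ j, Fin (a j) → ℕ) u, evc (update h m u) ∘ t = evc h ∘ tu u := by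
        intro h u
        funext k
        simp only [comp_apply, tu]
        rcases htk : t k with m' | p
        · rfl
        · by_cases hp : p.1 = m
          · obtain ⟨j', x⟩ := p
            simp only at hp
            subst hp
            simp [evc]
          · simp only [evc, Sum.elim_inr, dif_neg hp]
            rw [update_of_ne hp]
      have e1 : (∀ᶠ u in (𝒰 m : Filter _), ∀ᶠ h in (VV a 𝒰 m : Filter (∀ j, Fin (a j) → ℕ)),
          M R (evc (update h m u) ∘ t)) ↔ ∀ᶠ u in (𝒰 m : Filter _), ∀ᶠ v in (𝒰 j : Filter _),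
          ∀ᶠ h in (VV a 𝒰 m : Filter (∀ j, Fin (a j) → ℕ)),
          M R (evc (update (update h j v) m u) ∘ t) := by
        refine eventually_congr (Eventually.of_forall fun u => ?_)
        simp only [htu]
        exact ih (tu u) hjm'
      rw [e1]
      have e2 := hM.swap1 (𝒰 m) (𝒰 j) (VV a 𝒰 m) R
        (fun u v h => evc (update (update h j v) m u) ∘ t) (by
          intro h k
          rcases htk : t k with m' | p
          · exact Or.inl ⟨fun _ => m', fun h v => by simp [htk, evc]⟩
          · by_cases hp : p.1 = m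
            · obtain ⟨j', x⟩ := p
              simp only at hp
              subst hp
              exact Or.inl ⟨fun v => v x, fun u v => by simp [htk, evc]⟩
            · by_cases hp' : p.1 = j
              · obtain ⟨j', x⟩ := p
                simp only at hp'
                subst hp'
                exact Or.inr ⟨fun v => v x, fun u v => by
                  simp only [comp_apply, htk, evc]
                  rw [update_of_ne hp, update_self]⟩
              · exact Or.inl ⟨fun _ => h p.1 p.2, fun u v => by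
                  simp only [comp_apply, htk, evc]
                  rw [update_of_ne hp, update_of_ne hp']⟩)
      rw [e2]
      refine eventually_congr (Eventually.of_forall fun v => ?_)
      rw [VV_succ]
      -- for fixed `v`, swap back
      let tv : Fin R.1 → UC a := fun k =>
        Sum.elim (fun m' => Sum.inl m') (fun p => if h : p.1 = j then Sum.inl (v (h ▸ p.2))
          else Sum.inr p) (t k)
      have htv : ∀ (h : ∀ j, Fin (a j) → ℕ), evc (update h j v) ∘ t = evc h ∘ tv := by
        intro h
        funext k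
        simp only [comp_apply, tv]
        rcases htk : t k with m' | p
        · rfl
        · by_cases hp : p.1 = j
          · obtain ⟨j', x⟩ := p
            simp only at hp
            subst hp
            simp [evc]
          · simp only [evc, Sum.elim_inr, dif_neg hp]
            rw [update_of_ne hp]
      have hcomm : ∀ (h : ∀ j, Fin (a j) → ℕ) u, update (update h j v) m u
          = update (update h m u) j v := fun h u => update_comm hjm _ _ _
      simp only [hcomm, htv]
      exact (hswap tv).symm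

/-- the cell with index `j` -/
def cellc (j : ℕ) : Fin (a j) → UC a := fun x => Sum.inr ⟨j, x⟩

theorem cell_free {M : Str L ℕ} (hM : Stab M n) (j : ℕ) :
    FreeAt (NA a 𝒰 M) (push Sum.inl (𝒰 j)) (cellc a j) := by
  classical
  intro R t ht
  -- a bound for the indices
  obtain ⟨m, hm1, hm2⟩ : ∃ m, j < m ∧ ∀ k p, t k = Sum.inr (Sum.inr p) → p.1 < m := by
    refine ⟨j + 1 + Finset.univ.sup (fun k => Sum.elim (fun _ => 0)
      (fun u => Sum.elim (fun _ => 0) (fun p => p.1 + 1) u) (t k)), by omega, ?_⟩
    intro k p hk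
    have := Finset.le_sup (f := fun k => Sum.elim (fun _ => 0)
      (fun u => Sum.elim (fun _ => 0) (fun p => p.1 + 1) u) (t k)) (Finset.mem_univ k)
    rw [hk] at this
    simp only [Sum.elim_inr] at this
    omega
  rw [NA_eq a 𝒰 M m R _ (by
    intro k p hk
    simp only [comp_apply] at hk
    rcases htk : t k with x | u
    · rw [htk] at hk
      simp only [Sum.elim_inl, cellc, Sum.inr.injEq] at hk
      rw [← hk]; exact hm1
    · rw [htk] at hk
      simp only [Sum.elim_inr, id] at hk
      rw [hk] at htk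
      exact hm2 k p htk), indep a 𝒰 hM j R m _ hm1, ty_push]
  refine eventually_congr (Eventually.of_forall fun v => ?_)
  rw [NA_eq a 𝒰 M m R _ (by
    intro k p hk
    simp only [comp_apply] at hk
    rcases htk : t k with x | u
    · rw [htk] at hk
      simp only [Sum.elim_inl, comp_apply] at hk
      exact absurd hk (by simp)
    · rw [htk] at hk
      simp only [Sum.elim_inr, id] at hk
      rw [hk] at htk
      exact hm2 k p htk)]
  refine eventually_congr (Eventually.of_forall fun h => ?_)
  have : evc (update h j v) ∘ (Sum.elim (cellc a j) id ∘ t)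
      = evc h ∘ (Sum.elim (Sum.inl ∘ v) id ∘ t) := by
    funext k
    simp only [comp_apply]
    rcases htk : t k with x | u
    · simp [cellc, evc]
    · simp only [Sum.elim_inr, id]
      rcases u with m' | p
      · rfl
      · have hp : p.1 ≠ j := by
          rintro rfl
          exact ht k _ htk p.2 rfl
        simp only [evc]
        rw [update_of_ne hp]
  rw [this]

end

end Run7.h46.S
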