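import Pool.Agent.Run7.h46.S.Over

/-! Definitions for the stable case of MP_9a84bf_lc, second part. -/

namespace Run7.h46.S

open Filter Function Run7.h46 FirstOrder FirstOrder.Language

variable {L : FirstOrder.Language.{0, 0}} {N N' T X Y : Type}

/-- `A` is existentially closed and contains a copy of `M` -/
def Up (B M A : Str L ℕ) : Prop := EC B A ∧ ∃ ι : ℕ → ℕ, Injective ι ∧ A.pull ι = M

/-- A closed and functorial system of types over the existentially closed structures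
containing `M₀`. -/
structure Sys (B M₀ : Str L ℕ) (T : Type) (Z : Str L ℕ → Set (Str L (T ⊕ ℕ))) : Prop where
  sub : ∀ A, Up B M₀ A → Z A ⊆ Ty T A
  clo : ∀ A, Up B M₀ A → Clo (Z A)
  fct : ∀ (A A' : Str L ℕ) (ι : ℕ → ℕ), Up B M₀ A → EC B A' → Injective ι → A'.pull ι = A →
    ∀ q ∈ Z A, ∀ q', Ext A A' ι q q' → q' ∈ Z A'

/-- Piece P7: canonical finite families at the top rank of a system. -/
def StP7 : Prop :=
  ∀ (L : FirstOrder.Language.{0, 0}) [Finite L.Symbols] (B : Str L ℕ) (n : ℕ), Stable B n →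
    ∀ (M₀ : Str L ℕ), EC B M₀ → ∀ (T : Type) [Finite T] (Z : Str L ℕ → Set (Str L (T ⊕ ℕ))),
    Sys B M₀ T Z → (∃ A, Up B M₀ A ∧ (Z A).Nonempty) →
    ∃ (ρ : ℕ) (M₁ : Str L ℕ), Up B M₀ M₁ ∧ (∀ A, Up B M₀ A → derN (ρ + 1) (Z A) = ∅) ∧
      (∀ A, Up B M₁ A → (derN ρ (Z A)).Finite ∧ (derN ρ (Z A)).Nonempty) ∧
      ∀ (A A' : Str L ℕ) (ι : ℕ → ℕ), Up B M₁ A → EC B A' → Injective ι → A'.pull ι = A →
        ∀ q' ∈ derN ρ (Z A'), ∃ q ∈ derN ρ (Z A), Ext A A' ι q q'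

/-- Piece P8: if connected types have bounded size then all but finitely many points lie in
free connected cells. -/
def StP8 : Prop :=
  ∀ (L : FirstOrder.Language.{0, 0}) [Finite L.Symbols] (A : Str L ℕ) (n : ℕ), Stab A n →
    ∀ K : ℕ, (∀ (k : ℕ) (𝒰 : Ultrafilter (Fin k → ℕ)), Fr 𝒰 → ConnOn A 𝒰 Set.univ → k ≤ K) →
    ∃ E : Finset ℕ, ∀ n ∉ E, ∃ (k : ℕ) (_ : k ≤ K) (𝒰 : Ultrafilter (Fin k → ℕ))
      (w : Fin k → ℕ), Fr 𝒰 ∧ ConnOn A 𝒰 Set.univ ∧ Injective w ∧ FreeAt A 𝒰 w ∧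
        n ∈ Set.range w

/-! ### Stars: `m` centre coordinates and `k` leaves, each with coordinates in `Y` -/

/-- the tuple of the pattern `s` with the leaf `j` and parameters `z` -/
def pt {m k r : ℕ} (s : Fin r → (Fin m ⊕ Y) ⊕ Unit) (j : Fin k) (z : Fin r → N) :
    Fin r → (Fin m ⊕ (Fin k × Y)) ⊕ N := fun i =>
  match s i with
  | Sum.inl (Sum.inl a) => Sum.inl (Sum.inl a)
  | Sum.inl (Sum.inr y) => Sum.inl (Sum.inr (j, y))
  | Sum.inr _ => Sum.inr (z i)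

/-- the tuple of the pattern `s` with the centre substituted by elements -/
def ps {m r : ℕ} {W : Type} (s : Fin r → (Fin m ⊕ Y) ⊕ Unit) (w : Fin m ⊕ W → N)
    (z : Fin r → N) : Fin r → Y ⊕ N := fun i =>
  match s i with
  | Sum.inl (Sum.inl a) => Sum.inr (w (Sum.inl a))
  | Sum.inl (Sum.inr y) => Sum.inl y
  | Sum.inr _ => Sum.inr (z i)

/-- types of stars: all `k` leaves have the same type `p` from the family `QY` and are attached
to the centre through the same relation, pattern and parameters -/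
def StarZ (QY : Str L ℕ → Set (Str L (Y ⊕ ℕ))) (k m : ℕ) (R : Σ n, L.Relations n)
    (s : Fin R.1 → (Fin m ⊕ Y) ⊕ Unit) (A : Str L ℕ) :
    Set (Str L ((Fin m ⊕ (Fin k × Y)) ⊕ ℕ)) :=
  {q | ∃ 𝒰 : Ultrafilter (Fin m ⊕ (Fin k × Y) → ℕ), Fr 𝒰 ∧ ty A 𝒰 = q ∧
    ∃ p ∈ QY A, (∀ j, ty A (rel (fun y => Sum.inr (j, y)) 𝒰) = p) ∧
      ∃ z : Fin R.1 → ℕ, ∀ j, ¬ (ty A 𝒰 R (pt s j z) ↔
        ∀ᶠ w in (𝒰 : Filter (Fin m ⊕ (Fin k × Y) → ℕ)), p R (ps s w z))}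

/-- Piece P9: star types form a closed set, when no larger centre is possible. -/
def StP9 : Prop :=
  ∀ (L : FirstOrder.Language.{0, 0}) [Finite L.Symbols] (A : Str L ℕ) (n : ℕ), Stab A n →
    ∀ (Y : Type) [Finite Y] (QY : Str L ℕ → Set (Str L (Y ⊕ ℕ))), (QY A).Finite →
    QY A ⊆ Ty Y A →
    ∀ (k m : ℕ) (R : Σ n, L.Relations n) (s : Fin R.1 → (Fin m ⊕ Y) ⊕ Unit),
    (∀ a, ∃ i, s i = Sum.inl (Sum.inl a)) →
    (∀ (m' : ℕ) (R' : Σ n, L.Relations n) (s' : Fin R'.1 → (Fin m' ⊕ Y) ⊕ Unit), m < m' →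
      (∀ a, ∃ i, s' i = Sum.inl (Sum.inl a)) → StarZ QY k m' R' s' A = ∅) →
    Clo (StarZ QY k m R s A)

/-- Piece P10: a non-isolated type in `QY` gives stars with arbitrarily many leaves. -/
def StP10 : Prop :=
  ∀ (L : FirstOrder.Language.{0, 0}) [Finite L.Symbols] (A : Str L ℕ) (n : ℕ), Stab A n →
    ∀ (Y : Type) [Finite Y] (QY : Str L ℕ → Set (Str L (Y ⊕ ℕ))) (p : Str L (Y ⊕ ℕ)),
    p ∈ QY A → p ∈ Der (Ty Y A) →
    ∃ (m : ℕ) (R : Σ n, L.Relations n) (s : Fin R.1 → (Fin m ⊕ Y) ⊕ Unit),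
      (∀ a, ∃ i, s i = Sum.inl (Sum.inl a)) ∧ ∀ k, (StarZ QY k m R s A).Nonempty

/-- Piece P11: star types have a connected set meeting many leaves. -/
def StP11 : Prop :=
  ∀ (L : FirstOrder.Language.{0, 0}) [Finite L.Symbols] (A : Str L ℕ) (n : ℕ), Stab A n →
    ∀ (Y : Type) [Finite Y] (QY : Str L ℕ → Set (Str L (Y ⊕ ℕ)))
    (k m : ℕ) (R : Σ n, L.Relations n) (s : Fin R.1 → (Fin m ⊕ Y) ⊕ Unit)
    (𝒰 : Ultrafilter (Fin m ⊕ (Fin k × Y) → ℕ)), ty A 𝒰 ∈ StarZ QY k m R s A →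
    ∃ D : Set (Fin m ⊕ (Fin k × Y)), ConnOn A 𝒰 D ∧ k ≤ m * D.ncard

end Run7.h46.S
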