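import Pool.Agent.Run7.h46.S.Phi
import Pool.Agent.Run7.h46.Fin1
import Pool.Agent.Run7.h46.S.Defs2

/-! Coding sets of naturals by free cells. -/

namespace Run7.h46.S

open Filter Function Run7.h46 FirstOrder FirstOrder.Language

variable {L : FirstOrder.Language.{0, 0}} {N N' T T' V X I : Type} {n k : ℕ}

/-! ### ultrapowers along an arbitrary ultrafilter -/

/-- the ultrapower structure -/
noncomputable def upg (𝒢 : Ultrafilter I) (A : Str L N) : Str L ((𝒢 : Filter I).Germ N) :=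
  limS A 𝒢 (fun g x => Quotient.out x g)

theorem out_ae (𝒢 : Ultrafilter I) (u : I → N) :
    ∀ᶠ g in (𝒢 : Filter I), (Quotient.out ((u : I → N) : (𝒢 : Filter I).Germ N) : I → N) g = u g := by
  have h4 : ((Quotient.out ((u : I → N) : (𝒢 : Filter I).Germ N) : I → N) :
      (𝒢 : Filter I).Germ N) = (u : I → N) := Quotient.out_eq _
  exact Germ.coe_eq.1 h4

theorem upg_ae (𝒢 : Ultrafilter I) (A : Str L N) (R : Σ n, L.Relations n)
    (u : Fin R.1 → I → N) : ∀ᶠ g in (𝒢 : Filter I),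
      (upg 𝒢 A R (fun i => ((u i : I → N) : (𝒢 : Filter I).Germ N)) ↔ A R (fun i => u i g)) := by
  have h5 : ∀ᶠ g in (𝒢 : Filter I), ∀ i,
      (Quotient.out ((u i : I → N) : (𝒢 : Filter I).Germ N) : I → N) g = u i g :=
    eventually_all.2 fun i => out_ae 𝒢 (u i)
  have h6 : ∀ᶠ g in (𝒢 : Filter I), (upg 𝒢 A R (fun i => ((u i : I → N) : (𝒢 : Filter I).Germ N))
      ↔ A R (fun i => (Quotient.out ((u i : I → N) : (𝒢 : Filter I).Germ N) : I → N) g)) := by
    by_cases h : upg 𝒢 A R (fun i => ((u i : I → N) : (𝒢 : Filter I).Germ N))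
    · exact Eventually.mono h fun g hg => ⟨fun _ => hg, fun _ => h⟩
    · have : ∀ᶠ g in (𝒢 : Filter I),
          ¬ A R (fun i => (Quotient.out ((u i : I → N) : (𝒢 : Filter I).Germ N) : I → N) g) :=
        Ultrafilter.eventually_not.2 h
      exact this.mono fun g hg => ⟨fun h1 => absurd h1 h, fun h1 => absurd h1 hg⟩
  filter_upwards [h5, h6] with g h7 h8
  rw [h8]
  have : (fun i => (Quotient.out ((u i : I → N) : (𝒢 : Filter I).Germ N) : I → N) g)
      = fun i => u i g := funext h7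
  rw [this]

theorem upg_finEmb [Finite (Σ n, L.Relations n)] (𝒢 : Ultrafilter I) (A : Str L N) :
    FinEmb (upg 𝒢 A) A := by
  apply limS_finEmb
  intro a b hab
  by_contra h
  rw [← Ultrafilter.eventually_not] at h
  apply hab
  have h1 : ∀ᶠ g in (𝒢 : Filter I), (Quotient.out a : I → N) g = (Quotient.out b : I → N) g :=
    h.mono fun g hg => not_not.1 hg
  have h2 : ((Quotient.out a : I → N) : (𝒢 : Filter I).Germ N) = (Quotient.out b : I → N) :=
    Germ.coe_eq.2 h1
  have ha : ((Quotient.out a : I → N) : (𝒢 : Filter I).Germ N) = a := Quotient.out_eq _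
  have hb : ((Quotient.out b : I → N) : (𝒢 : Filter I).Germ N) = b := Quotient.out_eq _
  rw [← ha, h2, hb]

/-! ### the structures with cells -/

section

variable (a : ℕ → ℕ)

/-- the universe with the cells in `S` -/
def okS (S : Set ℕ) : UC a → Prop
  | Sum.inl _ => True
  | Sum.inr p => p.1 ∈ S

/-- the universe of the structure coding `S` -/
abbrev US (S : Set ℕ) : Type := {u : UC a // okS a S u}

variable (𝒰 : ∀ j, Ultrafilter (Fin (a j) → ℕ)) (M : Str L ℕ)

/-- the structure coding `S` -/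
noncomputable def NS (S : Set ℕ) : Str L (US a S) := (NA a 𝒰 M).pull Subtype.val

/-- the copy of `M` -/
def ιS (S : Set ℕ) : ℕ → US a S := fun m => ⟨Sum.inl m, trivial⟩

theorem ιS_inj (S : Set ℕ) : Injective (ιS a S) := by
  intro m m' h
  have := congrArg Subtype.val h
  simpa [ιS] using this

theorem NS_pull (S : Set ℕ) : (NS a 𝒰 M S).pull (ιS a S) = M := by
  unfold NS
  rw [Str.pull_pull]
  exact NA_pull a 𝒰 M

/-- the cells -/
def cS {S : Set ℕ} {j : ℕ} (hj : j ∈ S) : Fin (a j) → US a S := fun x => ⟨Sum.inr ⟨j, x⟩, hj⟩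

theorem cS_inj {S : Set ℕ} {j : ℕ} (hj : j ∈ S) : Injective (cS a hj) := by
  intro x y h
  have := congrArg Subtype.val h
  simpa [cS] using this

theorem cS_free (hM : Stab M n) {S : Set ℕ} {j : ℕ} (hj : j ∈ S) :
    FreeAt (NS a 𝒰 M S) (push (ιS a S) (𝒰 j)) (cS a hj) := by
  apply FreeAt.restrict Subtype.val_injective
  have h1 : push Subtype.val (push (ιS a S) (𝒰 j)) = push Sum.inl (𝒰 j) := by
    apply ext_mixU
    intro P
    rfl
  rw [h1]
  exact cell_free a 𝒰 hM j

theorem NS_finEmb [Finite (Σ n, L.Relations n)] (hU : ∀ j, Fr (𝒰 j)) (S : Set ℕ) :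
    FinEmb (NS a 𝒰 M S) M :=
  (FinEmb.of_injective _ _ Subtype.val_injective).trans (NA_finEmb a 𝒰 M hU)

theorem range_card {k k' : ℕ} {w : Fin k → N} {w' : Fin k' → N} (hw : Injective w)
    (hw' : Injective w') (h : Set.range w = Set.range w') : k = k' := by
  have h1 : Nat.card (Set.range w) = k := by
    rw [Nat.card_range_of_injective hw, Nat.card_eq_fintype_card, Fintype.card_fin]
  have h2 : Nat.card (Set.range w') = k' := by
    rw [Nat.card_range_of_injective hw', Nat.card_eq_fintype_card, Fintype.card_fin]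
  rw [← h1, ← h2, h]

theorem excl [Finite (Σ n, L.Relations n)] {B : Str L ℕ} (hB : EC B M) (hM : Stab M n)
    (hBn : Stable B n) (ha : Injective a) (hU : ∀ j, Fr (𝒰 j))
    (hc : ∀ j, ConnOn M (𝒰 j) Set.univ) {S : Set ℕ} {j : ℕ} (hj : j ∉ S) [Finite T']
    {𝒰' : Ultrafilter (T' → ℕ)} (hU' : Fr 𝒰') {f : Fin (a j) → T'} (hf : Injective f)
    (hns : ¬ SplitOn M 𝒰' Set.univ (Set.range f)) (hc' : ConnOn M (rel f 𝒰') Set.univ)
    {w : Fin (a j) → US a S} (hw : Injective w)
    (hfree : FreeAt (NS a 𝒰 M S) (push (ιS a S) (rel f 𝒰')) w) : False := by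
  have hNS : Stab (NS a 𝒰 M S) n := hBn.stab ((NS_finEmb a 𝒰 M hU S).trans hB.emb)
  by_cases hcase : ∀ x, ∃ m, w x = ιS a S m
  · choose w0 hw0 using hcase
    have hww : w = ιS a S ∘ w0 := funext hw0
    rw [hww] at hfree hw
    have := FreeAt.restrict (ιS_inj a S) hfree
    rw [NS_pull] at this
    exact nm_excl hB hM hU' hf hns (hw.of_comp) this
  · push Not at hcase
    obtain ⟨x, hx⟩ := hcase
    rcases hwx : w x with ⟨m | p, hp⟩
    · exact hx m hwx
    · obtain ⟨i, y⟩ := p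
      have hi : i ∈ S := hp
      have hover := overlap_eq hNS ((hU'.rel hf).push (ιS_inj a S)) ((hU i).push (ιS_inj a S))
        (connOn_push_of (NS_pull a 𝒰 M S) hc') (connOn_push_of (NS_pull a 𝒰 M S) (hc i))
        hfree (cS_free a 𝒰 M hM hi) ⟨x, y, hwx⟩
      have h1 := range_card hw (cS_inj a hi) hover
      have h2 := ha h1
      rw [h2] at hj
      exact hj hi

end

theorem ee_trans [L.IsRelational] {N₁ N₂ N₃ : Type} {A₁ : Str L N₁} {A₂ : Str L N₂}
    {A₃ : Str L N₃} (h : @ElementarilyEquivalent L N₁ N₂ (toS A₁) (toS A₂))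
    (h' : @ElementarilyEquivalent L N₂ N₃ (toS A₂) (toS A₃)) :
    @ElementarilyEquivalent L N₁ N₃ (toS A₁) (toS A₃) := Eq.trans h h'

theorem ee_symm [L.IsRelational] {N₁ N₂ : Type} {A₁ : Str L N₁} {A₂ : Str L N₂}
    (h : @ElementarilyEquivalent L N₁ N₂ (toS A₁) (toS A₂)) :
    @ElementarilyEquivalent L N₂ N₁ (toS A₂) (toS A₁) := Eq.symm h

/-- connected, non-maximal types -/
def NMt (M : Str L ℕ) (k : ℕ) (q : Str L (Fin k ⊕ ℕ)) : Prop :=
  ∃ (T' : Type) (_ : Finite T') (𝒰' : Ultrafilter (T' → ℕ)) (f : Fin k → T'),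
    Fr 𝒰' ∧ Injective f ∧ ¬ SplitOn M 𝒰' Set.univ (Set.range f) ∧
      ConnOn M (rel f 𝒰') Set.univ ∧ ty M (rel f 𝒰') = q

/-- The coding theorem. -/
theorem coding [L.IsRelational] [Finite L.Symbols] (h3 : StP3) (h4 : StP4) {B : Str L ℕ}
    (hBn : Stable B n) {M : Str L ℕ} (hB : EC B M) (a : ℕ → ℕ) (ha : Injective a)
    (Gf : ∀ j, Str L ℕ → Set (Str L (Fin (a j) ⊕ ℕ)))
    (g1 : ∀ j, ∀ q ∈ Gf j M, NMt M (a j) q) (g2 : ∀ j, (Gf j M).Finite)
    (g3 : ∀ j (M' : Str L ℕ) (ι : ℕ → ℕ), EC B M' → Injective ι → M'.pull ι = M →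
      (∀ q ∈ Gf j M, ∀ q', Ext M M' ι q q' → q' ∈ Gf j M') ∧
      (∀ q' ∈ Gf j M', ∃ q ∈ Gf j M, Ext M M' ι q q'))
    (g4 : ∀ j, (Gf j M).Nonempty) :
    ∃ F : Set ℕ → Str L ℕ, (∀ S, FinEmb (F S) B ∧ FinEmb B (F S)) ∧
      ∀ S S', S ≠ S' → ¬ @ElementarilyEquivalent L ℕ ℕ (toS (F S)) (toS (F S')) := by
  classical
  have hfin : Finite (Σ n, L.Relations n) :=
    Finite.of_injective (fun R : (Σ n, L.Relations n) => (Sum.inr R : L.Symbols))
      (fun a b h => Sum.inr_injective h)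
  have hM : Stab M n := hBn.stab hB.emb
  -- representatives
  have hrep : ∀ j (q : Str L (Fin (a j) ⊕ ℕ)), q ∈ Gf j M → ∃ 𝒰 : Ultrafilter (Fin (a j) → ℕ),
      Fr 𝒰 ∧ ConnOn M 𝒰 Set.univ ∧ ty M 𝒰 = q ∧ ∃ (T' : Type) (_ : Finite T')
        (𝒰' : Ultrafilter (T' → ℕ)) (f : Fin (a j) → T'), Fr 𝒰' ∧ Injective f ∧
        ¬ SplitOn M 𝒰' Set.univ (Set.range f) ∧ 𝒰 = rel f 𝒰' := by
    intro j q hq
    obtain ⟨T', hT', 𝒰', f, h5, h6, h7, h8, h9⟩ := g1 j q hq
    exact ⟨rel f 𝒰', h5.rel h6, h8, h9, T', hT', 𝒰', f, h5, h6, h7, rfl⟩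
  choose rp hrp1 hrp2 hrp3 hrp4 using hrep
  choose q hq using g4
  let 𝒰 : ∀ j, Ultrafilter (Fin (a j) → ℕ) := fun j => rp j (q j) (hq j)
  have hU : ∀ j, Fr (𝒰 j) := fun j => hrp1 j _ _
  have hUc : ∀ j, ConnOn M (𝒰 j) Set.univ := fun j => hrp2 j _ _
  have hcount : ∀ S : Set ℕ, Nonempty (ℕ ≃ US a S) := by
    intro S
    have : Infinite (US a S) := Infinite.of_injective _ (ιS_inj a S)
    exact nonempty_equiv_of_countable
  let ε : ∀ S, ℕ ≃ US a S := fun S => (hcount S).some
  have hMpull : ∀ S, FinEmb M (NS a 𝒰 M S) := by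
    intro S
    have := FinEmb.of_injective (NS a 𝒰 M S) (ιS a S) (ιS_inj a S)
    rwa [NS_pull] at this
  refine ⟨fun S => (NS a 𝒰 M S).pull (ε S), fun S => ⟨?_, ?_⟩, ?_⟩
  · exact (FinEmb.of_injective _ _ (ε S).injective).trans ((NS_finEmb a 𝒰 M hU S).trans hB.emb)
  · exact hB.age.trans ((hMpull S).trans (FinEmb.pull_equiv _ (ε S)))
  -- main part
  have main : ∀ (S S' : Set ℕ) (j : ℕ), j ∈ S → j ∉ S' →
      @ElementarilyEquivalent L _ _ (toS (NS a 𝒰 M S)) (toS (NS a 𝒰 M S')) → False := by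
    intro S S' j hj hj' heq
    have : Nonempty (US a S) := ⟨ιS a S 0⟩
    obtain ⟨𝒢, h𝒢⟩ := h4 L (US a S) (US a S') (NS a 𝒰 M S) (NS a 𝒰 M S') heq
    obtain ⟨𝒱, h𝒱⟩ := hB.ret _ (NS a 𝒰 M S) (ιS a S) (ιS_inj a S)
      ((NS_finEmb a 𝒰 M hU S).trans hB.emb) (NS_pull a 𝒰 M S)
    obtain ⟨𝒱', h𝒱'⟩ := hB.ret _ (NS a 𝒰 M S') (ιS a S') (ιS_inj a S')
      ((NS_finEmb a 𝒰 M hU S').trans hB.emb) (NS_pull a 𝒰 M S')
    have hPhi : Phi hM (𝒰 j) _ (NS a 𝒰 M S) (std hM (𝒰 j) (ιS a S)) :=
      Phi_std hM (𝒰 j) h𝒱 (cS_inj a hj) (cS_free a 𝒰 M hM hj)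
    rw [h𝒢 _ _ (fo_Phi hM (𝒰 j))] at hPhi
    -- the counterexamples
    have hex : ∀ᶠ g in (𝒢 : Filter (US a S → US a S')), ∀ q' : Gf j M,
        ∃ (p : Pat L (a j)) (z : Fin p.1.1 → US a S'),
          ¬ (dd hM (𝒰 j) (NS a 𝒰 M S') (g ∘ std hM (𝒰 j) (ιS a S)) p z ↔
            ∀ᶠ v in (rp j q'.1 q'.2 : Filter (Fin (a j) → ℕ)),
              NS a 𝒰 M S' p.1 (fill p.2 (ιS a S' ∘ v) z)) := by
      filter_upwards [hPhi] with g hg q'
      obtain ⟨w, hw1, hw2⟩ := hg
      obtain ⟨T', hT', 𝒰', f, h5, h6, h7, h8⟩ := hrp4 j q'.1 q'.2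
      by_contra hcon
      push Not at hcon
      have hcon' : ∀ (p : Pat L (a j)) (z : Fin p.1.1 → US a S'),
          (dd hM (𝒰 j) (NS a 𝒰 M S') (g ∘ std hM (𝒰 j) (ιS a S)) p z ↔
            ∀ᶠ v in (rp j q'.1 q'.2 : Filter (Fin (a j) → ℕ)),
              NS a 𝒰 M S' p.1 (fill p.2 (ιS a S' ∘ v) z)) := by
        intro p z
        by_contra h9
        exact h9 (by
          have := hcon p z
          tauto)
      have hconn := hrp2 j q'.1 q'.2
      rw [h8] at hconn
      refine excl a 𝒰 M hB hM hBn ha hU hUc hj' h5 h6 h7 hconn (w := w)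
        (fun x y h => hw1 x y h) ?_
      refine freeAt_of ?_
      intro p z hz
      rw [hw2 p z hz, hcon' p z, h8]
      rfl
    have hGfin : Finite (Gf j M) := g2 j
    -- choose patterns constant along the ultrafilter
    have hsel : ∀ q' : Gf j M, ∃ (p : Pat L (a j)) (Z : (US a S → US a S') → Fin p.1.1 → US a S'),
        ∀ᶠ g in (𝒢 : Filter (US a S → US a S')),
          ¬ (dd hM (𝒰 j) (NS a 𝒰 M S') (g ∘ std hM (𝒰 j) (ιS a S)) p (Z g) ↔
            ∀ᶠ v in (rp j q'.1 q'.2 : Filter (Fin (a j) → ℕ)),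
              NS a 𝒰 M S' p.1 (fill p.2 (ιS a S' ∘ v) (Z g))) := by
      intro q'
      have h5 : ∀ᶠ g in (𝒢 : Filter (US a S → US a S')), ∃ p : Pat L (a j),
          ∃ (z : Fin p.1.1 → US a S'),
          ¬ (dd hM (𝒰 j) (NS a 𝒰 M S') (g ∘ std hM (𝒰 j) (ιS a S)) p z ↔
            ∀ᶠ v in (rp j q'.1 q'.2 : Filter (Fin (a j) → ℕ)),
              NS a 𝒰 M S' p.1 (fill p.2 (ιS a S' ∘ v) z)) := hex.mono fun g hg => hg q'
      obtain ⟨p, hp⟩ := (Ultrafilter.eventually_exists_iff (f := 𝒢)).1 h5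
      refine ⟨p, fun g => if h : ∃ z : Fin p.1.1 → US a S',
          ¬ (dd hM (𝒰 j) (NS a 𝒰 M S') (g ∘ std hM (𝒰 j) (ιS a S)) p z ↔
            ∀ᶠ v in (rp j q'.1 q'.2 : Filter (Fin (a j) → ℕ)),
              NS a 𝒰 M S' p.1 (fill p.2 (ιS a S' ∘ v) z)) then h.choose else
              fun _ => ιS a S' 0, ?_⟩
      filter_upwards [hp] with g hg
      simp only [dif_pos hg]
      exact hg.choose_spec
    choose P Z hZ using hsel
    -- the ultrapower
    let A' := NS a 𝒰 M S'
    let D : Str L ((𝒢 : Filter (US a S → US a S')).Germ (US a S')) := upg 𝒢 A'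
    let f1 : US a S → (𝒢 : Filter (US a S → US a S')).Germ (US a S') := fun u =>
      ((fun g => g u : (US a S → US a S') → US a S') :
        (𝒢 : Filter (US a S → US a S')).Germ (US a S'))
    let f2 : US a S' → (𝒢 : Filter (US a S → US a S')).Germ (US a S') := fun u =>
      ((fun _ => u : (US a S → US a S') → US a S') :
        (𝒢 : Filter (US a S → US a S')).Germ (US a S'))
    let zs : ∀ q' : Gf j M, Fin (P q').1.1 → (𝒢 : Filter (US a S → US a S')).Germ (US a S') :=
      fun q' i => ((fun g => Z q' g i : (US a S → US a S') → US a S') :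
        (𝒢 : Filter (US a S → US a S')).Germ (US a S'))
    have hf1 : Injective f1 := by
      intro u v huv
      have h5 : ∀ᶠ g in (𝒢 : Filter (US a S → US a S')), g u = g v := Germ.coe_eq.1 huv
      have h6 := (h𝒢 (Fin 2) (fun _ _ x => x 0 = x 1) (IsFO.eq 0 1) ![u, v]).2 h5
      exact h6
    have hf2 : Injective f2 := fun u v huv => Germ.const_inj.1 huv
    have hD1 : D.pull f1 = NS a 𝒰 M S := by
      funext R x
      rw [eq_iff_iff, Str.pull_apply]
      have h5 := upg_ae 𝒢 A' R (fun i => (fun g : US a S → US a S' => g (x i)))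
      have h6 := h𝒢 (Fin R.1) (fun _ A v => A R v) (by
        have := IsFO.rel (L := L) R (id : Fin R.1 → Fin R.1)
        exact this) x
      rw [h6]
      constructor
      · intro h7
        exact h5.mono fun g hg => hg.1 h7
      · intro h7
        obtain ⟨g, h8, h9⟩ := (h5.and h7).exists
        exact h8.2 h9
    have hD2 : D.pull f2 = A' := by
      funext R x
      rw [eq_iff_iff, Str.pull_apply]
      obtain ⟨g, h5⟩ := (upg_ae 𝒢 A' R (fun i => (fun _ : US a S → US a S' => x i))).exists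
      exact h5
    have hDB : FinEmb D B := (upg_finEmb 𝒢 A').trans ((NS_finEmb a 𝒰 M hU S').trans hB.emb)
    -- countable part
    let N0 : Set ((𝒢 : Filter (US a S → US a S')).Germ (US a S')) :=
      Set.range f1 ∪ Set.range f2 ∪ ⋃ q', Set.range (zs q')
    have hN0 : N0.Countable :=
      ((Set.countable_range _).union (Set.countable_range _)).union
        (Set.countable_iUnion fun q' => Set.countable_range _)
    have hN0c : Countable N0 := hN0
    let D0 : Str L N0 := D.pull Subtype.val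
    obtain ⟨Nh, hNh, hemb⟩ := h3 L B Unit (fun _ => N0) (fun _ => D0)
      (fun _ => (FinEmb.of_injective _ _ Subtype.val_injective).trans hDB)
    obtain ⟨e, he, hep⟩ := hemb ()
    have hmem1 : ∀ u, f1 u ∈ N0 := fun u => Or.inl (Or.inl ⟨u, rfl⟩)
    have hmem2 : ∀ u, f2 u ∈ N0 := fun u => Or.inl (Or.inr ⟨u, rfl⟩)
    have hmem3 : ∀ q' i, zs q' i ∈ N0 := fun q' i => Or.inr (Set.mem_iUnion.2 ⟨q', i, rfl⟩)
    let ι1 : ℕ → ℕ := fun m => e ⟨f1 (ιS a S m), hmem1 _⟩
    let ι2 : ℕ → ℕ := fun m => e ⟨f2 (ιS a S' m), hmem2 _⟩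
    have hι1 : Injective ι1 := by
      intro m m' h
      have h1 := he h
      rw [Subtype.mk.injEq] at h1
      exact ιS_inj a S (hf1 h1)
    have hι2 : Injective ι2 := by
      intro m m' h
      have h1 := he h
      rw [Subtype.mk.injEq] at h1
      exact ιS_inj a S' (hf2 h1)
    -- evaluation of `Nh` on elements of `N0`
    have hNhD : ∀ (R : Σ n, L.Relations n) (x : Fin R.1 → N0), Nh R (e ∘ x) ↔
        D R (Subtype.val ∘ x) := by
      intro R x
      have := congrFun (congrFun hep R) x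
      rw [eq_iff_iff] at this
      exact this
    have hp1 : Nh.pull ι1 = M := by
      rw [← NS_pull a 𝒰 M S, ← hD1]
      funext R x
      rw [eq_iff_iff]
      exact hNhD R (fun i => ⟨f1 (ιS a S (x i)), hmem1 _⟩)
    have hp2 : Nh.pull ι2 = M := by
      rw [← NS_pull a 𝒰 M S']
      change _ = A'.pull (ιS a S')
      rw [← hD2]
      funext R x
      rw [eq_iff_iff]
      exact hNhD R (fun i => ⟨f2 (ιS a S' (x i)), hmem2 _⟩)
    obtain ⟨𝒱1, h𝒱1⟩ := hB.ret _ Nh ι1 hι1 hNh.emb hp1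
    obtain ⟨𝒱2, h𝒱2⟩ := hB.ret _ Nh ι2 hι2 hNh.emb hp2
    have hq1 : ty Nh (push ι1 (𝒰 j)) ∈ Gf j Nh :=
      (g3 j Nh ι1 hNh hι1 hp1).1 (q j) (hq j) _ ⟨𝒰 j, hU j, hrp3 j _ _, rfl⟩
    obtain ⟨q', hq', hqq⟩ := (g3 j Nh ι2 hNh hι2 hp2).2 _ hq1
    have hqq2 : Ext M Nh ι2 q' (ty Nh (push ι2 (rp j q' hq'))) :=
      ⟨rp j q' hq', hrp1 j _ _, hrp3 j _ _, rfl⟩
    have hty : ty Nh (push ι1 (𝒰 j)) = ty Nh (push ι2 (rp j q' hq')) :=
      (Ext.unique hM h𝒱2 hqq hqq2).symm
    -- evaluate at the counterexample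
    let Q' : Gf j M := ⟨q', hq'⟩
    let p := P Q'
    let zh : Fin p.1.1 → ℕ := fun i => e ⟨zs Q' i, hmem3 _ _⟩
    have e1 : (∀ᶠ w in (𝒰 j : Filter _), Nh p.1 (fill p.2 (ι1 ∘ w) zh)) ↔
        ∀ᶠ w in (rp j q' hq' : Filter _), Nh p.1 (fill p.2 (ι2 ∘ w) zh) := by
      have := congrFun (congrFun hty p.1) (tup p.2 zh)
      rw [eq_iff_iff, ty_push, ty_push] at this
      simp only [elim_tup] at this
      exact this
    rw [← dd_spec hM (𝒰 j) h𝒱1, ← dd_spec hM (rp j q' hq') h𝒱2] at e1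
    have e2 : ∀ᶠ g in (𝒢 : Filter (US a S → US a S')),
        (dd hM (𝒰 j) Nh (std hM (𝒰 j) ι1) p zh ↔
          dd hM (𝒰 j) A' (g ∘ std hM (𝒰 j) (ιS a S)) p (Z Q' g)) := by
      have e3 : ∀ᶠ g in (𝒢 : Filter (US a S → US a S')), ∀ w : defset hM (𝒰 j) p,
          (Nh p.1 (fill p.2 (fun x => std hM (𝒰 j) ι1 (⟨p, w⟩, x)) zh) ↔
            A' p.1 (fill p.2 (fun x => (g ∘ std hM (𝒰 j) (ιS a S)) (⟨p, w⟩, x)) (Z Q' g))) := by
        refine eventually_all.2 fun w => ?_
        let u : Fin p.1.1 → (US a S → US a S') → US a S' := fun i g =>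
          fill p.2 (fun x => g (ιS a S (w.1 x))) (Z Q' g) i
        have h5 := upg_ae 𝒢 A' p.1 u
        filter_upwards [h5] with g hg
        refine Iff.trans ?_ hg
        have hx : ∀ i, ((u i : (US a S → US a S') → US a S') :
            (𝒢 : Filter (US a S → US a S')).Germ (US a S'))
            ∈ N0 := by
          intro i
          rcases hpi : p.2 i with _ | x
          · have : u i = fun g => Z Q' g i := by
              funext g
              exact fill_none hpi
            rw [this]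
            exact hmem3 Q' i
          · have : u i = fun g => g (ιS a S (w.1 x)) := by
              funext g
              exact fill_some hpi
            rw [this]
            exact hmem1 _
        have h6 := hNhD p.1 (fun i => ⟨_, hx i⟩)
        refine Iff.trans (iff_of_eq (congrArg (Nh p.1) ?_)) h6
        funext i
        simp only [comp_apply]
        rcases hpi : p.2 i with _ | x
        · rw [fill_none hpi]
          have : u i = fun g => Z Q' g i := by
            funext g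
            exact fill_none hpi
          simp only [this]
          rfl
        · rw [fill_some hpi]
          have : u i = fun g => g (ιS a S (w.1 x)) := by
            funext g
            exact fill_some hpi
          simp only [this]
          rfl
      filter_upwards [e3] with g hg
      exact dd_congr hM (𝒰 j) p hg
    have e4 : ∀ᶠ g in (𝒢 : Filter (US a S → US a S')),
        (dd hM (rp j q' hq') Nh (std hM (rp j q' hq') ι2) p zh ↔
          dd hM (rp j q' hq') A' (std hM (rp j q' hq') (ιS a S')) p (Z Q' g)) := by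
      have e3 : ∀ᶠ g in (𝒢 : Filter (US a S → US a S')), ∀ w : defset hM (rp j q' hq') p,
          (Nh p.1 (fill p.2 (fun x => std hM (rp j q' hq') ι2 (⟨p, w⟩, x)) zh) ↔
            A' p.1 (fill p.2 (fun x => std hM (rp j q' hq') (ιS a S') (⟨p, w⟩, x))
              (Z Q' g))) := by
        refine eventually_all.2 fun w => ?_
        let u : Fin p.1.1 → (US a S → US a S') → US a S' := fun i g =>
          fill p.2 (fun x => ιS a S' (w.1 x)) (Z Q' g) i
        have h5 := upg_ae 𝒢 A' p.1 u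
        filter_upwards [h5] with g hg
        refine Iff.trans ?_ hg
        have hx : ∀ i, ((u i : (US a S → US a S') → US a S') :
            (𝒢 : Filter (US a S → US a S')).Germ (US a S'))
            ∈ N0 := by
          intro i
          rcases hpi : p.2 i with _ | x
          · have : u i = fun g => Z Q' g i := by
              funext g
              exact fill_none hpi
            rw [this]
            exact hmem3 Q' i
          · have : u i = fun g => ιS a S' (w.1 x) := by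
              funext g
              exact fill_some hpi
            rw [this]
            exact hmem2 _
        have h6 := hNhD p.1 (fun i => ⟨_, hx i⟩)
        refine Iff.trans (iff_of_eq (congrArg (Nh p.1) ?_)) h6
        funext i
        simp only [comp_apply]
        rcases hpi : p.2 i with _ | x
        · rw [fill_none hpi]
          have : u i = fun g => Z Q' g i := by
            funext g
            exact fill_none hpi
          simp only [this]
          rfl
        · rw [fill_some hpi]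
          have : u i = fun g => ιS a S' (w.1 x) := by
            funext g
            exact fill_some hpi
          simp only [this]
          rfl
      filter_upwards [e3] with g hg
      exact dd_congr hM (rp j q' hq') p hg
    obtain ⟨g, hg1, hg2, hg3⟩ := (e2.and (e4.and (hZ Q'))).exists
    apply hg3
    rw [dd_spec hM (rp j q' hq') h𝒱' p (Z Q' g)] at hg2
    exact hg1.symm.trans (e1.trans hg2)
  intro S S' hne heq
  have heq' : @ElementarilyEquivalent L _ _ (toS (NS a 𝒰 M S)) (toS (NS a 𝒰 M S')) :=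
    ee_trans (ee_trans (ee_symm (equiv_pull (NS a 𝒰 M S) (ε S))) heq)
      (equiv_pull (NS a 𝒰 M S') (ε S'))
  apply hne
  ext j
  constructor
  · intro hj
    by_contra hj'
    exact main S S' j hj hj' heq'
  · intro hj
    by_contra hj'
    exact main S' S j hj hj' (ee_symm heq')

end Run7.h46.S
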