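import Pool.Agent.Run7.h46.S.Calc

/-! Coheir extensions of types over existentially closed structures. -/

namespace Run7.h46.S

open Filter Function Run7.h46 FirstOrder FirstOrder.Language

variable {L : FirstOrder.Language.{0, 0}} {N N' T T' X : Type}

theorem coh_eq {A : Str L N} {A' : Str L N'} {ι : N → N'} {n : ℕ} (hA : Stab A n)
    {𝒱 : Ultrafilter (N' → N)} (h𝒱 : Retr A A' ι 𝒱) (𝒰 : Ultrafilter (T → N))
    (R : Σ n, L.Relations n) (t : Fin R.1 → T ⊕ N') :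
    ty A' (push ι 𝒰) R t ↔ ∀ᶠ g in (𝒱 : Filter (N' → N)), ty A 𝒰 R (Sum.map id g ∘ t) := by
  have h1 : ∀ w : T → N, (A' R (Sum.elim (ι ∘ w) id ∘ t) ↔
      ∀ᶠ g in (𝒱 : Filter (N' → N)), A R (Sum.elim w id ∘ (Sum.map id g ∘ t))) := by
    intro w
    have e1 : ∀ᶠ g in (𝒱 : Filter (N' → N)), ∀ k x, t k = Sum.inl x → g (ι (w x)) = w x := by
      rw [eventually_all]
      intro k
      rcases h : t k with x | m
      · exact (h𝒱.fix (w x)).mono fun g hg y hy => by cases hy; exact hg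
      · exact Eventually.of_forall fun g x hx => by cases hx
    have e2 : ∀ᶠ g in (𝒱 : Filter (N' → N)), (A' R (Sum.elim (ι ∘ w) id ∘ t) ↔
        A R (Sum.elim w id ∘ (Sum.map id g ∘ t))) := by
      filter_upwards [e1, h𝒱.rel R (Sum.elim (ι ∘ w) id ∘ t)] with g hg1 hg2
      rw [hg2]
      have : g ∘ (Sum.elim (ι ∘ w) id ∘ t) = Sum.elim w id ∘ (Sum.map id g ∘ t) := by
        funext k
        simp only [comp_apply]
        rcases h : t k with x | m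
        · simpa using hg1 k x h
        · simp
      rw [this]
    constructor
    · intro h
      exact e2.mono fun g hg => hg.1 h
    · intro h
      obtain ⟨g, hg1, hg2⟩ := (e2.and h).exists
      exact hg1.2 hg2
  rw [ty_push]
  simp only [h1]
  refine hA.swap 𝒰 𝒱 R (fun w g => Sum.elim w id ∘ (Sum.map id g ∘ t)) ?_
  intro k
  rcases h : t k with x | m
  · exact Or.inl ⟨fun w => w x, fun w g => by simp [h]⟩
  · exact Or.inr ⟨fun g => g m, fun w g => by simp [h]⟩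

theorem coh {A : Str L N} {A' : Str L N'} {ι : N → N'} {n : ℕ} (hA : Stab A n)
    {𝒱 : Ultrafilter (N' → N)} (h𝒱 : Retr A A' ι 𝒱) {𝒰 𝒰' : Ultrafilter (T → N)}
    (h : ty A 𝒰 = ty A 𝒰') : ty A' (push ι 𝒰) = ty A' (push ι 𝒰') := by
  funext R t
  rw [eq_iff_iff, coh_eq hA h𝒱, coh_eq hA h𝒱, h]

theorem agreeOn_push_of {A : Str L N} {A' : Str L N'} {ι : N → N'} {n : ℕ} (hA : Stab A n)
    {𝒱 : Ultrafilter (N' → N)} (h𝒱 : Retr A A' ι 𝒱) {D : Set T} {𝒰 𝒰' : Ultrafilter (T → N)}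
    (h : AgreeOn A D 𝒰 𝒰') : AgreeOn A' D (push ι 𝒰) (push ι 𝒰') := by
  intro R t ht
  rw [coh_eq hA h𝒱, coh_eq hA h𝒱]
  refine eventually_congr (Eventually.of_forall fun g => h R _ ?_)
  intro k x hx
  simp only [comp_apply] at hx
  rcases hk : t k with y | m
  · rw [hk] at hx
    simp only [Sum.map_inl, id, Sum.inl.injEq] at hx
    subst hx
    exact ht k y hk
  · rw [hk] at hx
    simp at hx

theorem agreeOn_of_push {A : Str L N} {A' : Str L N'} {ι : N → N'} (hp : A'.pull ι = A)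
    {D : Set T} {𝒰 𝒰' : Ultrafilter (T → N)}
    (h : AgreeOn A' D (push ι 𝒰) (push ι 𝒰')) : AgreeOn A D 𝒰 𝒰' := by
  intro R t ht
  rw [← ty_push_map hp, ← ty_push_map hp]
  refine h R _ ?_
  intro k x hx
  simp only [comp_apply] at hx
  rcases hk : t k with y | m
  · rw [hk] at hx
    simp only [Sum.map_inl, id, Sum.inl.injEq] at hx
    subst hx
    exact ht k y hk
  · rw [hk] at hx
    simp at hx

theorem splitOn_push_of {A : Str L N} {A' : Str L N'} {ι : N → N'} {n : ℕ} (hA : Stab A n)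
    {𝒱 : Ultrafilter (N' → N)} (h𝒱 : Retr A A' ι 𝒱) {D C : Set T} {𝒰 : Ultrafilter (T → N)}
    (h : SplitOn A 𝒰 D C) : SplitOn A' (push ι 𝒰) D C := by
  have := agreeOn_push_of hA h𝒱 h
  rw [push_mixU] at this
  exact this

theorem splitOn_of_push {A : Str L N} {A' : Str L N'} {ι : N → N'} (hp : A'.pull ι = A)
    {D C : Set T} {𝒰 : Ultrafilter (T → N)}
    (h : SplitOn A' (push ι 𝒰) D C) : SplitOn A 𝒰 D C := by
  unfold SplitOn at h
  rw [← push_mixU] at h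
  exact agreeOn_of_push hp h

theorem connOn_push_of {A : Str L N} {A' : Str L N'} {ι : N → N'} (hp : A'.pull ι = A)
    {D : Set T} {𝒰 : Ultrafilter (T → N)}
    (h : ConnOn A 𝒰 D) : ConnOn A' (push ι 𝒰) D :=
  fun C hC hs => h C hC (splitOn_of_push hp hs)

theorem connOn_of_push {A : Str L N} {A' : Str L N'} {ι : N → N'} {n : ℕ} (hA : Stab A n)
    {𝒱 : Ultrafilter (N' → N)} (h𝒱 : Retr A A' ι 𝒱) {D : Set T} {𝒰 : Ultrafilter (T → N)}
    (h : ConnOn A' (push ι 𝒰) D) : ConnOn A 𝒰 D :=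
  fun C hC hs => h C hC (splitOn_push_of hA h𝒱 hs)

/-- Split sets only depend on the type. -/
theorem splitOn_congr {A : Str L N} {n : ℕ} (hA : Stab A n) {D C : Set T}
    {𝒰 𝒰' : Ultrafilter (T → N)} (h : ty A 𝒰 = ty A 𝒰') :
    SplitOn A 𝒰 D C ↔ SplitOn A 𝒰' D C := by
  unfold SplitOn AgreeOn
  rw [h, cong_eq hA C h h]

theorem connOn_congr {A : Str L N} {n : ℕ} (hA : Stab A n) {D : Set T}
    {𝒰 𝒰' : Ultrafilter (T → N)} (h : ty A 𝒰 = ty A 𝒰') :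
    ConnOn A 𝒰 D ↔ ConnOn A 𝒰' D := by
  unfold ConnOn
  simp only [splitOn_congr hA h]

/-- the relation between a type and its coheir extension -/
def Ext (A : Str L N) (A' : Str L N') (ι : N → N') (q : Str L (T ⊕ N)) (q' : Str L (T ⊕ N')) :
    Prop := ∃ 𝒰 : Ultrafilter (T → N), Fr 𝒰 ∧ ty A 𝒰 = q ∧ ty A' (push ι 𝒰) = q'

theorem Ext.pull {A : Str L N} {A' : Str L N'} {ι : N → N'} (hp : A'.pull ι = A)
    {q : Str L (T ⊕ N)} {q' : Str L (T ⊕ N')} (h : Ext A A' ι q q') :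
    q'.pull (Sum.map id ι) = q := by
  obtain ⟨𝒰, -, h1, h2⟩ := h
  funext R t
  rw [eq_iff_iff, Str.pull_apply, ← h2, ← h1]
  exact ty_push_map hp 𝒰 R t

theorem Ext.inj {A : Str L N} {A' : Str L N'} {ι : N → N'} (hp : A'.pull ι = A)
    {p q : Str L (T ⊕ N)} {q' : Str L (T ⊕ N')} (h : Ext A A' ι q q') (h' : Ext A A' ι p q') :
    p = q := by rw [← h.pull hp, ← h'.pull hp]

theorem Ext.unique {A : Str L N} {A' : Str L N'} {ι : N → N'} {n : ℕ} (hA : Stab A n)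
    {𝒱 : Ultrafilter (N' → N)} (h𝒱 : Retr A A' ι 𝒱)
    {q : Str L (T ⊕ N)} {p' q' : Str L (T ⊕ N')} (h : Ext A A' ι q q') (h' : Ext A A' ι q p') :
    p' = q' := by
  obtain ⟨𝒰, -, h1, h2⟩ := h
  obtain ⟨𝒰', -, h3, h4⟩ := h'
  rw [← h2, ← h4]
  exact coh hA h𝒱 (h3.trans h1.symm)

theorem Ext.mem {A : Str L N} {A' : Str L N'} {ι : N → N'} (hι : Injective ι)
    {q : Str L (T ⊕ N)} {q' : Str L (T ⊕ N')} (h : Ext A A' ι q q') : q' ∈ Ty T A' := by
  obtain ⟨𝒰, h0, h1, h2⟩ := h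
  exact ⟨push ι 𝒰, h0.push hι, h2⟩

theorem exists_ext {A : Str L N} (A' : Str L N') (ι : N → N')
    {q : Str L (T ⊕ N)} (h : q ∈ Ty T A) : ∃ q', Ext A A' ι q q' := by
  obtain ⟨𝒰, h1, h2⟩ := h
  exact ⟨_, 𝒰, h1, h2, rfl⟩

theorem ty_bind (A : Str L N) {Z : Type} (ℱ : Ultrafilter Z) (u : Z → Ultrafilter (T → N))
    (R : Σ n, L.Relations n) (t : Fin R.1 → T ⊕ N) :
    ty A (ℱ.bind u) R t ↔ ∀ᶠ z in (ℱ : Filter Z), ty A (u z) R t := Iff.rfl

theorem fr_bind {Z : Type} (ℱ : Ultrafilter Z) (u : Z → Ultrafilter (T → N))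
    (h : ∀ᶠ z in (ℱ : Filter Z), Fr (u z)) : Fr (ℱ.bind u) :=
  ⟨h.mono fun _ hz => hz.1, fun n => h.mono fun _ hz => hz.2 n⟩

theorem der_ext {A : Str L N} {A' : Str L N'} {ι : N → N'} {n : ℕ} (hA : Stab A n)
    (hp : A'.pull ι = A)
    {𝒱 : Ultrafilter (N' → N)} (h𝒱 : Retr A A' ι 𝒱) {Z : Set (Str L (T ⊕ N))}
    {Z' : Set (Str L (T ⊕ N'))} (hZ : Z ⊆ Ty T A)
    (hZ' : ∀ p ∈ Z, ∀ p', Ext A A' ι p p' → p' ∈ Z') {q : Str L (T ⊕ N)}
    {q' : Str L (T ⊕ N')} (hq : q ∈ Der Z) (hqq : Ext A A' ι q q') : q' ∈ Der Z' := by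
  classical
  obtain ⟨ℱ, h1, h2⟩ := hq
  obtain ⟨𝒰0, -, h3, h4⟩ := hqq
  let u : Str L (T ⊕ N) → Ultrafilter (T → N) := fun p =>
    if h : p ∈ Ty T A then h.choose else 𝒰0
  have hu : ∀ p ∈ Ty T A, Fr (u p) ∧ ty A (u p) = p := by
    intro p hp
    simp only [u, dif_pos hp]
    exact hp.choose_spec
  have h5 : ty A (ℱ.bind u) = q := by
    funext R t
    rw [eq_iff_iff, ty_bind, ← h2]
    refine eventually_congr (h1.mono fun p hp => ?_)
    rw [(hu p (hZ hp.1)).2]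
  have h6 : ty A' (push ι (ℱ.bind u)) = q' := by
    rw [← h4]
    exact coh hA h𝒱 (h5.trans h3.symm)
  refine ⟨ℱ.map (fun p => ty A' (push ι (u p))), ?_, ?_⟩
  · change ∀ᶠ p in (ℱ : Filter _), ty A' (push ι (u p)) ∈ Z' ∧ ty A' (push ι (u p)) ≠ q'
    refine h1.mono fun p hp' => ?_
    have hext : Ext A A' ι p (ty A' (push ι (u p))) :=
      ⟨u p, (hu p (hZ hp'.1)).1, (hu p (hZ hp'.1)).2, rfl⟩
    refine ⟨hZ' p hp'.1 _ hext, fun h7 => hp'.2 ?_⟩
    have h8 := hext.pull hp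
    rw [h7, ← h4] at h8
    rw [← h8, ← h3]
    funext R t
    exact propext (ty_push_map hp 𝒰0 R t)
  · rw [← h6]
    rfl

end Run7.h46.S
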