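import Pool.Agent.Run7.h46.S.Stb
import Pool.Agent.Run7.h46.CellDef

/-! Definitions for the stable case of MP_9a84bf_lc. -/

namespace Run7.h46.S

open Filter Function Run7.h46 FirstOrder FirstOrder.Language

variable {L : FirstOrder.Language.{0, 0}} {N N' T X : Type}

/-- the type over `N` of the ultrafilter `𝒰` of tuples: a structure on `T ⊕ N` -/
def ty (A : Str L N) (𝒰 : Ultrafilter (T → N)) : Str L (T ⊕ N) :=
  fun R t => ∀ᶠ w in (𝒰 : Filter (T → N)), A R (Sum.elim w id ∘ t)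

/-- the ultrafilter concentrates on injective tuples and avoids every point -/
def Fr (𝒰 : Ultrafilter (T → N)) : Prop :=
  (∀ᶠ w in (𝒰 : Filter (T → N)), Injective w) ∧
    ∀ n : N, ∀ᶠ w in (𝒰 : Filter (T → N)), ∀ x, w x ≠ n

/-- the set of types over `A` -/
def Ty (T : Type) (A : Str L N) : Set (Str L (T ⊕ N)) :=
  {q | ∃ 𝒰 : Ultrafilter (T → N), Fr 𝒰 ∧ ty A 𝒰 = q}

/-- push an ultrafilter of tuples forward along a map of the universes -/
def push (ι : N → N') (𝒰 : Ultrafilter (T → N)) : Ultrafilter (T → N') :=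
  𝒰.map (fun w => ι ∘ w)

/-- the limit of structures along an ultrafilter -/
def ulim (ℱ : Ultrafilter (Str L X)) : Str L X :=
  fun R t => ∀ᶠ p in (ℱ : Filter (Str L X)), p R t

/-- accumulation points -/
def Der (Z : Set (Str L X)) : Set (Str L X) :=
  {q | ∃ ℱ : Ultrafilter (Str L X), (∀ᶠ p in (ℱ : Filter (Str L X)), p ∈ Z ∧ p ≠ q) ∧ ulim ℱ = q}

/-- iterated derivative -/
def derN : ℕ → Set (Str L X) → Set (Str L X)
  | 0, Z => Z
  | n + 1, Z => Der (derN n Z)

/-- closed sets -/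
def Clo (Z : Set (Str L X)) : Prop :=
  ∀ ℱ : Ultrafilter (Str L X), (∀ᶠ p in (ℱ : Filter (Str L X)), p ∈ Z) → ulim ℱ ∈ Z

/-- `A'` looks from `A` like an elementary-type extension for quantifier-free properties:
finite parts of `A'` are reflected into `A` over finite parts of `A` -/
structure Retr (A : Str L N) (A' : Str L N') (ι : N → N') (𝒱 : Ultrafilter (N' → N)) : Prop where
  fix : ∀ n : N, ∀ᶠ g in (𝒱 : Filter (N' → N)), g (ι n) = n
  inj : ∀ a b : N', a ≠ b → ∀ᶠ g in (𝒱 : Filter (N' → N)), g a ≠ g b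
  rel : ∀ (R : Σ n, L.Relations n) (x : Fin R.1 → N'),
    ∀ᶠ g in (𝒱 : Filter (N' → N)), (A' R x ↔ A R (g ∘ x))

/-- `A` is existentially closed in the class of structures whose finite parts embed into `B`,
and has the same finite parts as `B` -/
structure EC (B A : Str L ℕ) : Prop where
  emb : FinEmb A B
  age : FinEmb B A
  ret : ∀ (N' : Type) (A' : Str L N') (ι : ℕ → N'), Injective ι → FinEmb A' B →
    A'.pull ι = A → ∃ 𝒱 : Ultrafilter (N' → ℕ), Retr A A' ι 𝒱

open Classical in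
/-- mix two tuples -/
noncomputable def mix (C : Set T) (w v : T → N) : T → N := fun x => if x ∈ C then w x else v x

/-- mix two ultrafilters independently -/
noncomputable def mixU (C : Set T) (𝒰 𝒱 : Ultrafilter (T → N)) : Ultrafilter (T → N) :=
  𝒰.bind (fun w => 𝒱.map (mix C w))

/-- the two ultrafilters have the same type on coordinates in `D` -/
def AgreeOn (A : Str L N) (D : Set T) (𝒰 𝒱 : Ultrafilter (T → N)) : Prop :=
  ∀ (R : Σ n, L.Relations n) (t : Fin R.1 → T ⊕ N), (∀ k x, t k = Sum.inl x → x ∈ D) →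
    (ty A 𝒰 R t ↔ ty A 𝒱 R t)

/-- on `D`, the coordinates in `C` are independent from the others -/
def SplitOn (A : Str L N) (𝒰 : Ultrafilter (T → N)) (D C : Set T) : Prop :=
  AgreeOn A D 𝒰 (mixU C 𝒰 𝒰)

/-- `D` cannot be split into two nonempty independent parts -/
def ConnOn (A : Str L N) (𝒰 : Ultrafilter (T → N)) (D : Set T) : Prop :=
  ∀ C ⊆ D, SplitOn A 𝒰 D C → C = ∅ ∨ C = D

/-- the tuple `w` realizes the type of `𝒰` over all other elements -/
def FreeAt (A : Str L N) (𝒰 : Ultrafilter (T → N)) (w : T → N) : Prop :=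
  ∀ (R : Σ n, L.Relations n) (t : Fin R.1 → T ⊕ N), (∀ k n, t k = Sum.inr n → ∀ x, w x ≠ n) →
    (A R (Sum.elim w id ∘ t) ↔ ty A 𝒰 R t)

/-- two free connected cells that meet have the same underlying set -/
def Overlap (A : Str L N) : Prop :=
  ∀ (k k' : ℕ) (𝒰 : Ultrafilter (Fin k → N)) (𝒰' : Ultrafilter (Fin k' → N))
    (w : Fin k → N) (w' : Fin k' → N), Fr 𝒰 → Fr 𝒰' → ConnOn A 𝒰 Set.univ →
    ConnOn A 𝒰' Set.univ → Injective w → Injective w' → FreeAt A 𝒰 w → FreeAt A 𝒰' w' →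
    (∃ x y, w x = w' y) → Set.range w = Set.range w'

/-! ### Pieces -/

/-- Piece P1: among continuum many cellular structures two are isomorphic. -/
def StP1 : Prop :=
  ∀ (L : FirstOrder.Language.{0, 0}) [L.IsRelational] [Finite L.Symbols] (N : Set ℕ → Type)
    (inst : ∀ S, L.Structure (N S)), (∀ S, @IsCellular L (N S) (inst S)) →
    ∃ S S', S ≠ S' ∧ Nonempty (@FirstOrder.Language.Equiv L (N S) (N S') (inst S) (inst S'))

/-- Piece P2: the derivative rank of type spaces is bounded. -/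
def StP2 : Prop :=
  ∀ (L : FirstOrder.Language.{0, 0}) [Finite L.Symbols] (B : Str L ℕ) (n : ℕ), Stable B n →
    ∀ (T : Type) [Finite T], ∃ H : ℕ, ∀ A : Str L ℕ, FinEmb A B → derN H (Ty T A) = ∅

/-- Piece P3: existence of existentially closed structures containing countably many given ones. -/
def StP3 : Prop :=
  ∀ (L : FirstOrder.Language.{0, 0}) [Finite L.Symbols] (B : Str L ℕ) (I : Type) [Countable I]
    (N : I → Type) [∀ i, Countable (N i)] (A : ∀ i, Str L (N i)), (∀ i, FinEmb (A i) B) →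
    ∃ M : Str L ℕ, EC B M ∧ ∀ i, ∃ ι : N i → ℕ, Injective ι ∧ M.pull ι = A i

/-- Piece P4: elementarily equivalent structures: an ultrafilter of approximately elementary
maps. -/
def StP4 : Prop :=
  ∀ (L : FirstOrder.Language.{0, 0}) [L.IsRelational] (N N' : Type) [Nonempty N]
    (A : Str L N) (A' : Str L N'),
    (@ElementarilyEquivalent L N N' (toS A) (toS A')) →
    ∃ 𝒢 : Ultrafilter (N → N'), ∀ (V : Type) (P : ∀ (N : Type), Str L N → (V → N) → Prop),
      IsFO V P → ∀ v : V → N, (P N A v ↔ ∀ᶠ g in (𝒢 : Filter (N → N')), P N' A' (g ∘ v))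

/-- Piece P5: a structure almost covered by small free connected cells, with finitely many
types, is cellular. -/
def StP5 : Prop :=
  ∀ (L : FirstOrder.Language.{0, 0}) [L.IsRelational] [Finite L.Symbols] (A : Str L ℕ) (K : ℕ),
    (∀ k ≤ K, (Ty (Fin k) A).Finite) → Overlap A →
    (∃ E : Finset ℕ, ∀ n ∉ E, ∃ (k : ℕ) (_ : k ≤ K) (𝒰 : Ultrafilter (Fin k → ℕ))
      (w : Fin k → ℕ), Fr 𝒰 ∧ ConnOn A 𝒰 Set.univ ∧ Injective w ∧ FreeAt A 𝒰 w ∧
        n ∈ Set.range w) →
    @IsCellular L ℕ (toS A)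

/-- Piece P6: along an ultrafilter, a map into tuples of natural numbers has a constant part and
an injective part that moves away from every point. -/
def StP6 : Prop :=
  ∀ (X N : Type) (𝒰 : Ultrafilter X) (n : ℕ) (f : X → Fin n → N),
    ∃ (e : ℕ) (s : Fin n → Fin e ⊕ N) (g : X → Fin e → N),
      (∀ j, ∃ k, s k = Sum.inl j) ∧
      (∀ᶠ x in (𝒰 : Filter X), f x = Sum.elim (g x) id ∘ s) ∧
      (∀ᶠ x in (𝒰 : Filter X), Injective (g x)) ∧
      ∀ m : N, ∀ᶠ x in (𝒰 : Filter X), ∀ j, g x j ≠ m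

end Run7.h46.S
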