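import Pool.Agent.Run7.h46.S.StarA
import Pool.Agent.Run7.h46.Unst2
import Pool.Agent.Run7.h24.h46_P1
import Pool.Agent.Run7.h24.h46_P2
import Pool.Agent.Run7.h24.h46_P4
import Pool.Agent.Run7.h24.h46_P6
import Pool.Agent.Run7.h24.h46_P8
import Pool.Agent.Run7.h24.h46_P9
import Pool.Agent.Run7.h704.h46_P3
import Pool.Agent.Run7.h465.h46_P5

/-! The full answer. -/

namespace Run7.h46.S

open Filter Function Run7.h46 FirstOrder FirstOrder.Language

theorem p1 : StP1 := Pool.Agent.Run7.h24.P1.main_P1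
theorem p2 : StP2 := Pool.Agent.Run7.h24.P2.main_P2
theorem p3 : StP3 := Run7.h704.H46P3.main_P3
theorem p4 : StP4 := Pool.Agent.Run7.h24.P4.main_P4
theorem p5 : StP5 := Run7.h465.P5.main_P5
theorem p6 : StP6 := Pool.Agent.Run7.h24.P6.main_P6
theorem p8 : StP8 := Pool.Agent.Run7.h24.P8.main_P8
theorem p9 : StP9 := Pool.Agent.Run7.h24.P9.main_P9

variable {L : FirstOrder.Language.{0, 0}} {N N' T T' X Y : Type} {n : ℕ}

theorem NoHG.mono {X Y : Type*} {n m : ℕ} {ρ : X → Y → Prop} (h : NoHG n ρ) (hnm : n ≤ m) :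
    NoHG m ρ := by
  rintro ⟨a, b, hab⟩
  refine h ⟨fun i => a (Fin.castLE hnm i), fun i => b (Fin.castLE hnm i), fun i j => ?_⟩
  exact (hab _ _).trans Iff.rfl

/-- For a stable structure without coding data, all structures with smaller age are cellular. -/
theorem stable_cellular [L.IsRelational] [Finite L.Symbols] {B : Str L ℕ} (hB : Stable B n)
    (hd : ¬ CodeData B) (A₀ : Str L ℕ) (hA₀ : FinEmb A₀ B) : @IsCellular L ℕ (toS A₀) := by
  classical
  have h1 : ∀ A, EC B A → ∀ k, (Ty (Fin k) A).Finite := by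
    intro A hA k
    by_contra hinf
    exact hd (codeData_of_infinite p2 p3 p6 p9 hB hA hinf)
  have h2 : ∃ K : ℕ, ∀ A, EC B A → ∀ (k : ℕ) (𝒰 : Ultrafilter (Fin k → ℕ)), Fr 𝒰 →
      ConnOn A 𝒰 Set.univ → k ≤ K := by
    by_contra hcon
    push Not at hcon
    refine hd (codeData_of_large p2 p3 hB h1 fun b => ?_)
    obtain ⟨A, hA, k, 𝒰, hU, hc, hk⟩ := hcon b
    exact ⟨A, hA, k, hk.le, 𝒰, hU, hc⟩
  obtain ⟨K, hK⟩ := h2
  obtain ⟨A, hA, hemb⟩ := p3 L B Unit (fun _ => ℕ) (fun _ => A₀) (fun _ => hA₀)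
  obtain ⟨ι, hι, hp⟩ := hemb ()
  have hst : Stab A₀ n := hB.stab hA₀
  have h3 : ∀ (k : ℕ) (𝒰 : Ultrafilter (Fin k → ℕ)), Fr 𝒰 → ConnOn A₀ 𝒰 Set.univ → k ≤ K :=
    fun k 𝒰 hU hc => hK A hA k (push ι 𝒰) (hU.push hι) (connOn_push_of hp hc)
  have h4 : ∀ k, (Ty (Fin k) A₀).Finite := by
    intro k
    have : Ty (Fin k) A₀ ⊆ (fun q : Str L (Fin k ⊕ ℕ) => q.pull (Sum.map id ι)) '' Ty (Fin k) A := by
      rintro q hq
      obtain ⟨q', hq'⟩ := exists_ext A ι hq
      exact ⟨q', hq'.mem hι, hq'.pull hp⟩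
    exact ((h1 A hA k).image _).subset this
  exact p5 L A₀ K (fun k _ => h4 k) (overlap hst) (p8 L A₀ n hst K h3)

theorem finEmb_of_age {M : Type} [L.Structure M] {N : Type} [L.Structure N]
    [L.IsRelational] (h : L.age N ⊆ L.age M) : FinEmb (ofS (L := L) N) (ofS (L := L) M) := by
  classical
  intro s
  by_cases hN : Nonempty N
  · obtain ⟨a0⟩ := hN
    let P : L.Substructure N := Substructure.closure L (insert a0 (s : Set N))
    have hfg : P.FG := by
      refine ⟨insert a0 s, ?_⟩
      rw [Finset.coe_insert]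
    have hPN : (CategoryTheory.Bundled.of P : CategoryTheory.Bundled.{0} L.Structure) ∈ L.age N :=
      ⟨P.fg_iff_structure_fg.1 hfg, ⟨P.subtype⟩⟩
    obtain ⟨-, ⟨g⟩⟩ := h hPN
    have hmem : ∀ a ∈ s, a ∈ P := fun a ha =>
      Substructure.subset_closure (Or.inr ha)
    have ha0 : a0 ∈ P := Substructure.subset_closure (Or.inl rfl)
    let f : N → M := fun a => if h : a ∈ P then g ⟨a, h⟩ else g ⟨a0, ha0⟩
    have hf : ∀ a (h : a ∈ P), f a = g ⟨a, h⟩ := fun a h => by simp only [f, dif_pos h]
    refine ⟨f, ?_, ?_⟩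
    · intro a ha b hb hab
      rw [hf a (hmem a ha), hf b (hmem b hb)] at hab
      exact congrArg Subtype.val (g.injective hab)
    · intro R x hx
      have h1 := g.map_rel R.2 (fun i => (⟨x i, hmem _ (hx i)⟩ : P))
      have h2 := P.subtype.map_rel R.2 (fun i => (⟨x i, hmem _ (hx i)⟩ : P))
      have e1 : (g ∘ fun i => (⟨x i, hmem _ (hx i)⟩ : P)) = f ∘ x := by
        funext i
        exact (hf _ (hmem _ (hx i))).symm
      have e2 : (P.subtype ∘ fun i => (⟨x i, hmem _ (hx i)⟩ : P)) = x := rfl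
      rw [e1] at h1
      rw [e2] at h2
      exact h2.trans h1.symm
  · rw [not_nonempty_iff] at hN
    refine ⟨fun a => (hN.false a).elim, fun a => (hN.false a).elim, ?_⟩
    intro R x _
    let P : L.Substructure N := Substructure.closure L ∅
    have hfg : P.FG := Substructure.fg_closure Set.finite_empty
    have hPN : (CategoryTheory.Bundled.of P : CategoryTheory.Bundled.{0} L.Structure) ∈ L.age N :=
      ⟨P.fg_iff_structure_fg.1 hfg, ⟨P.subtype⟩⟩
    obtain ⟨-, ⟨g⟩⟩ := h hPN
    have hx : ∀ i : Fin R.1, False := fun i => hN.false (x i)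
    have h1 := g.map_rel R.2 (fun i => (hx i).elim)
    have h2 := P.subtype.map_rel R.2 (fun i => (hx i).elim)
    have e1 : (g ∘ fun i => (hx i).elim) = (fun a => (hN.false a).elim) ∘ x := by
      funext i
      exact (hx i).elim
    have e2 : (P.subtype ∘ fun i => (hx i).elim) = x := by
      funext i
      exact (hx i).elim
    rw [e1] at h1
    rw [e2] at h2
    exact h2.trans h1.symm

theorem cellular_of_finite (N : Type) [L.Structure N] [Finite N] : IsCellular L N := by
  refine ⟨0, fun i => i.elim0, Set.univ, fun i => i.elim0, Set.finite_univ, fun i => i.elim0,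
    ?_, fun x => Or.inl (Set.mem_univ _), fun i => i.elim0⟩
  rintro ⟨i, _⟩
  exact i.elim0

theorem cellular_equiv {M N : Type} [L.Structure M] [L.Structure N] (E : M ≃[L] N)
    (h : IsCellular L M) : IsCellular L N := by
  obtain ⟨n, k, K, c, hK, hcK, hinj, hcov, haut⟩ := h
  refine ⟨n, k, E '' K, fun i j l => E (c i j l), hK.image _, ?_, ?_, ?_, ?_⟩
  · rintro i j l ⟨x, hx, hx'⟩
    have := E.injective hx'
    rw [this] at hx
    exact hcK i j l hx
  · intro p q hpq
    exact hinj (E.injective hpq)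
  · intro x
    obtain ⟨y, rfl⟩ := E.surjective x
    rcases hcov y with h | ⟨i, j, l, h⟩
    · exact Or.inl ⟨y, h, rfl⟩
    · exact Or.inr ⟨i, j, l, congrArg E h⟩
  · intro i σ
    obtain ⟨g, hg1, hg2⟩ := haut i σ
    refine ⟨(E.comp g).comp E.symm, ?_, ?_⟩
    · intro j l
      simp only [FirstOrder.Language.Equiv.comp_apply, FirstOrder.Language.Equiv.symm_apply_apply]
      rw [hg1]
    · intro x hx
      simp only [FirstOrder.Language.Equiv.comp_apply]
      rw [hg2, FirstOrder.Language.Equiv.apply_symm_apply]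
      intro j l h
      apply hx j l
      change x = E (c i j l)
      rw [← h, FirstOrder.Language.Equiv.apply_symm_apply]

/-- an isomorphism from the pulled back raw structure -/
def pullEquiv [L.IsRelational] {M N : Type} (A : Str L M) (e : N ≃ M) :
    @FirstOrder.Language.Equiv L N M (toS (A.pull e)) (toS A) :=
  let _ := toS (A.pull e)
  let _ := toS A
  { toEquiv := e
    map_fun' := fun f _ => isEmptyElim f
    map_rel' := fun _ _ => Iff.rfl }

theorem finite_of_age {M : Type} [L.Structure M] [L.IsRelational] [Finite M] {N : Type}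
    [L.Structure N] (h : L.age N ⊆ L.age M) : Finite N := by
  classical
  by_contra hN
  rw [not_finite_iff_infinite] at hN
  obtain ⟨s, hs⟩ := Infinite.exists_subset_card_eq N (Nat.card M + 1)
  obtain ⟨f, hf, -⟩ := finEmb_of_age h s
  have : Fintype M := Fintype.ofFinite M
  have h1 : (s.image f).card = s.card := Finset.card_image_of_injOn hf
  have h2 : (s.image f).card ≤ Fintype.card M := Finset.card_le_univ _
  rw [h1, hs, Nat.card_eq_fintype_card] at h2
  omega

theorem main_infinite [L.IsRelational] [Finite L.Symbols] (M : Type) [L.Structure M]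
    [Countable M] [Infinite M] (hnc : ¬ CellularAge L (L.age M)) :
    ∃ F : Set ℕ → L.Structure ℕ, (∀ S, @age L ℕ (F S) = L.age M) ∧
      ∀ S S', S ≠ S' → ¬ @ElementarilyEquivalent L ℕ ℕ (F S) (F S') := by
  classical
  have hfinR : Finite (Σ n, L.Relations n) :=
    Finite.of_injective (fun R : (Σ n, L.Relations n) => (Sum.inr R : L.Symbols))
      (fun a b h => Sum.inr_injective h)
  obtain ⟨ε⟩ : Nonempty (ℕ ≃ M) := nonempty_equiv_of_countable
  let A : Str L M := ofS M
  have hA : toS A = ‹L.Structure M› := toS_ofS M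
  have hage : L.age M = @age L M (toS A) := by rw [hA]
  let B : Str L ℕ := A.pull ε
  have hAB : FinEmb A B := FinEmb.pull_equiv A ε
  have hBA : FinEmb B A := FinEmb.of_injective A _ ε.injective
  by_cases hst : ∃ n, Stable B n
  · obtain ⟨n, hB⟩ := hst
    have hd : CodeData B := by
      by_contra hd
      apply hnc
      intro N _ _ hN
      rcases finite_or_infinite N with hf | hi
      · exact cellular_of_finite N
      · obtain ⟨e⟩ : Nonempty (ℕ ≃ N) := nonempty_equiv_of_countable
        have h1 : FinEmb (ofS (L := L) N) A := finEmb_of_age hN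
        have h2 : FinEmb ((ofS (L := L) N).pull e) B :=
          (FinEmb.of_injective _ _ e.injective).trans (h1.trans hAB)
        have h3 := stable_cellular hB hd _ h2
        have h4 := pullEquiv (ofS (L := L) N) e
        rw [toS_ofS] at h4
        let _ := toS ((ofS (L := L) N).pull e)
        exact cellular_equiv h4 h3
    obtain ⟨F, hF1, hF2⟩ := coding_of_data p3 p4 hB hd
    refine ⟨fun S => toS (F S), fun S => ?_, hF2⟩
    rw [hage]
    apply Set.Subset.antisymm
    · exact age_subset_of_finEmb (F S) A ((hF1 S).1.trans hBA)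
    · exact age_subset_of_finEmb A (F S) (hAB.trans (hF1 S).2)
  · -- unstable
    have h1 : ∃ (R : Σ n, L.Relations n) (s : Fin R.1 → Fin R.1 ⊕ Fin R.1), ∀ n,
        ¬ NoHG n (fun (a : Fin R.1 → ℕ) (b : Fin R.1 → ℕ) => B R (Sum.elim a b ∘ s)) := by
      by_contra hcon
      push Not at hcon
      choose m hm using hcon
      apply hst
      have hfin : Finite (Σ R : (Σ n, L.Relations n), (Fin R.1 → Fin R.1 ⊕ Fin R.1)) :=
        inferInstance
      obtain ⟨r, hr⟩ := (Set.finite_range (fun P : (Σ R : (Σ n, L.Relations n),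
        (Fin R.1 → Fin R.1 ⊕ Fin R.1)) => m P.1 P.2)).bddAbove
      exact ⟨r, fun R s => (hm R s).mono (hr ⟨⟨R, s⟩, rfl⟩)⟩
    obtain ⟨R, s, hRs⟩ := h1
    refine (unstable_main L M (Fin R.1) (Fin R.1) (R.2.formula (fun i => Term.var (s i)))
      (BoundedFormula.IsAtomic.rel _ _).isQF ?_).1
    intro n
    have h2 := hRs n
    unfold NoHG at h2
    push Not at h2
    obtain ⟨a, b, hab⟩ := h2
    refine ⟨fun i k => ε (a i k), fun i k => ε (b i k), fun i j => ?_⟩
    rw [Formula.realize_rel, ← hab i j]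
    change _ ↔ Structure.RelMap R.2 (ε ∘ (Sum.elim (a i) (b j) ∘ s))
    refine iff_of_eq (congrArg _ ?_)
    funext k
    simp only [Term.realize_var, comp_apply]
    rcases s k with x | x <;> simp

/-- The main theorem. -/
theorem main_theorem (L : FirstOrder.Language.{0, 0}) [L.IsRelational] [Finite L.Symbols]
    (K : Set (CategoryTheory.Bundled.{0} L.Structure))
    (hK : ∃ (M : Type) (_ : L.Structure M), Countable M ∧ L.age M = K) :
    (∃ (N : Set ℕ → Type) (str : ∀ S, L.Structure (N S)), (∀ S, Countable (N S)) ∧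
      (∀ S, @age L (N S) (str S) = K) ∧
      ∀ S S', S ≠ S' → ¬ @ElementarilyEquivalent L (N S) (N S') (str S) (str S')) ↔
    ¬ CellularAge L K := by
  obtain ⟨M, strM, hM, rfl⟩ := hK
  constructor
  · rintro ⟨N, str, hcount, hage, hne⟩ hcell
    obtain ⟨S, S', hSS, ⟨E⟩⟩ := p1 L N str (fun S => @hcell (N S) (str S) (hcount S)
      (hage S).subset)
    apply hne S S' hSS
    let _ := str S
    let _ := str S'
    exact StrongHomClass.elementarilyEquivalent E
  · intro hnc
    rcases finite_or_infinite M with hf | hi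
    · exfalso
      apply hnc
      intro N _ _ hN
      have := finite_of_age hN
      exact cellular_of_finite N
    · obtain ⟨F, hF1, hF2⟩ := main_infinite M hnc
      exact ⟨fun _ => ℕ, F, fun _ => inferInstance, hF1, hF2⟩

end Run7.h46.S
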