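import Pool.Agent.Run7.h46.S.P7
import Pool.Agent.Run7.h46.S.Coding

/-! From canonical families of types to the coding theorem. -/

namespace Run7.h46.S

open Filter Function Run7.h46 FirstOrder FirstOrder.Language

variable {L : FirstOrder.Language.{0, 0}} {N N' T T' X : Type} {n : ℕ}

theorem rel_mixU {f : T' → T} (hf : Injective f) (C : Set T') (𝒰 𝒱 : Ultrafilter (T → N)) :
    rel f (mixU (f '' C) 𝒰 𝒱) = mixU C (rel f 𝒰) (rel f 𝒱) := by
  apply ext_mixU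
  intro P
  change (∀ᶠ w in (𝒰 : Filter (T → N)), ∀ᶠ v in (𝒱 : Filter (T → N)), P (mix (f '' C) w v ∘ f)) ↔
    (∀ᶠ w in (𝒰 : Filter (T → N)), ∀ᶠ v in (𝒱 : Filter (T → N)), P (mix C (w ∘ f) (v ∘ f)))
  have : ∀ w v : T → N, mix (f '' C) w v ∘ f = mix C (w ∘ f) (v ∘ f) := by
    intro w v
    funext x
    have h1 : f x ∈ f '' C ↔ x ∈ C := hf.mem_set_image
    by_cases hx : x ∈ C
    · simp [mix, hx, h1]
    · simp [mix, hx, h1]
  simp only [this]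

theorem split_rel {A : Str L N} {f : T' → T} (hf : Injective f) {𝒰 : Ultrafilter (T → N)}
    {C : Set T'} : SplitOn A (rel f 𝒰) Set.univ C ↔ SplitOn A 𝒰 (Set.range f) (f '' C) := by
  constructor
  · intro h R t ht
    have : ∃ t' : Fin R.1 → T' ⊕ N, t = Sum.map f id ∘ t' := by
      have h1 : ∀ k, ∃ u : T' ⊕ N, t k = Sum.map f id u := by
        intro k
        rcases htk : t k with x | m
        · obtain ⟨y, hy⟩ := ht k x htk
          exact ⟨Sum.inl y, by simp [hy]⟩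
        · exact ⟨Sum.inr m, by simp⟩
      choose t' ht' using h1
      exact ⟨t', funext ht'⟩
    obtain ⟨t', rfl⟩ := this
    rw [← ty_rel, ← ty_rel, rel_mixU hf]
    exact h R t' (fun _ _ _ => Set.mem_univ _)
  · intro h R t _
    rw [← rel_mixU hf, ty_rel, ty_rel]
    apply h
    intro k x hx
    simp only [comp_apply] at hx
    rcases htk : t k with y | m
    · rw [htk] at hx
      simp only [Sum.map_inl, Sum.inl.injEq] at hx
      exact ⟨y, hx⟩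
    · rw [htk] at hx
      simp at hx

theorem conn_rel {A : Str L N} {f : T' → T} (hf : Injective f) {𝒰 : Ultrafilter (T → N)}
    (h : ConnOn A 𝒰 (Set.range f)) : ConnOn A (rel f 𝒰) Set.univ := by
  intro C _ hs
  rcases h (f '' C) (Set.image_subset_range f C) ((split_rel hf).1 hs) with h1 | h1
  · left
    exact Set.image_eq_empty.1 h1
  · right
    rw [Set.eq_univ_iff_forall]
    intro x
    have : f x ∈ f '' C := by rw [h1]; exact ⟨x, rfl⟩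
    exact hf.mem_set_image.1 this

/-- canonical families -/
structure CF (B M₁ : Str L ℕ) (T : Type) (F : Str L ℕ → Set (Str L (T ⊕ ℕ))) : Prop where
  sub : ∀ A, Up B M₁ A → F A ⊆ Ty T A
  fin : ∀ A, Up B M₁ A → (F A).Finite
  fct : ∀ (A A' : Str L ℕ) (ι : ℕ → ℕ), Up B M₁ A → EC B A' → Injective ι → A'.pull ι = A →
    ∀ q ∈ F A, ∀ q', Ext A A' ι q q' → q' ∈ F A'
  sur : ∀ (A A' : Str L ℕ) (ι : ℕ → ℕ), Up B M₁ A → EC B A' → Injective ι → A'.pull ι = A →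
    ∀ q' ∈ F A', ∃ q ∈ F A, Ext A A' ι q q'

theorem exists_CF (h2 : StP2) (h3 : StP3) [Finite L.Symbols] {B : Str L ℕ} (hB : Stable B n)
    {M₀ : Str L ℕ} (hM₀ : EC B M₀) [Finite T] {Z : Str L ℕ → Set (Str L (T ⊕ ℕ))}
    (hZ : Sys B M₀ T Z) (hne : ∃ A, Up B M₀ A ∧ (Z A).Nonempty) :
    ∃ (ρ : ℕ) (M₁ : Str L ℕ), Up B M₀ M₁ ∧ (∀ A, Up B M₀ A → derN (ρ + 1) (Z A) = ∅) ∧
      (derN ρ (Z M₁)).Nonempty ∧ CF B M₁ T (fun A => derN ρ (Z A)) := by
  obtain ⟨ρ, M₁, h4, h5, h6, h7⟩ := main_P7 h2 h3 L B n hB M₀ hM₀ T Z hZ hne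
  refine ⟨ρ, M₁, h4, h5, (h6 M₁ (Up.refl h4.1)).2, ?_, fun A hA => (h6 A hA).1, ?_, h7⟩
  · intro A hA
    exact (derN_anti (hZ.clo A (h4.trans hA)) (Nat.zero_le ρ)).trans (hZ.sub A (h4.trans hA))
  · intro A A' ι hA hA' hι hp
    exact ext_derN hB hZ (h4.trans hA) hA' hι hp ρ

/-- the connected non-maximal parts of size `a` of a canonical family -/
def GFam (F : Str L ℕ → Set (Str L (T ⊕ ℕ))) (a : ℕ) (A : Str L ℕ) : Set (Str L (Fin a ⊕ ℕ)) :=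
  {q | ∃ (𝒰 : Ultrafilter (T → ℕ)) (f : Fin a → T), Fr 𝒰 ∧ ty A 𝒰 ∈ F A ∧ Injective f ∧
    ConnOn A (rel f 𝒰) Set.univ ∧ ¬ SplitOn A 𝒰 Set.univ (Set.range f) ∧ ty A (rel f 𝒰) = q}

theorem GFam_NMt [Finite T] {F : Str L ℕ → Set (Str L (T ⊕ ℕ))} {a : ℕ} {A : Str L ℕ}
    {q : Str L (Fin a ⊕ ℕ)} (h : q ∈ GFam F a A) : NMt A a q := by
  obtain ⟨𝒰, f, h1, h2, h3, h4, h5, h6⟩ := h
  exact ⟨T, inferInstance, 𝒰, f, h1, h3, h5, h4, h6⟩

theorem GFam_fin [Finite T] {F : Str L ℕ → Set (Str L (T ⊕ ℕ))} {a : ℕ} {A : Str L ℕ}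
    (hF : (F A).Finite) : (GFam F a A).Finite := by
  have h1 : ((F A) ×ˢ (Set.univ : Set (Fin a → T))).Finite := hF.prod Set.finite_univ
  refine (h1.image (fun p => p.1.pull (Sum.map p.2 id))).subset ?_
  rintro q ⟨𝒰, f, -, h2, -, -, -, h6⟩
  refine ⟨(ty A 𝒰, f), ⟨h2, Set.mem_univ _⟩, ?_⟩
  rw [← h6]
  funext R t
  exact propext (ty_rel A f 𝒰 R t).symm

theorem GFam_ext {B M₁ : Str L ℕ} (hB : Stable B n) {F : Str L ℕ → Set (Str L (T ⊕ ℕ))}
    (hF : CF B M₁ T F) (a : ℕ) {A A' : Str L ℕ} {ι : ℕ → ℕ} (hA : Up B M₁ A) (hA' : EC B A')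
    (hι : Injective ι) (hp : A'.pull ι = A) :
    (∀ q ∈ GFam F a A, ∀ q', Ext A A' ι q q' → q' ∈ GFam F a A') ∧
      (∀ q' ∈ GFam F a A', ∃ q ∈ GFam F a A, Ext A A' ι q q') := by
  obtain ⟨𝒱, h𝒱⟩ := hA.1.ret _ A' ι hι hA'.emb hp
  have hst : Stab A n := hB.stab hA.1.emb
  have hst' : Stab A' n := hB.stab hA'.emb
  constructor
  · rintro q ⟨𝒰, f, h1, h2, h3, h4, h5, h6⟩ q' hq'
    have h7 : Ext A A' ι q (ty A' (push ι (rel f 𝒰))) := ⟨rel f 𝒰, h1.rel h3, h6, rfl⟩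
    have h8 := Ext.unique hst h𝒱 hq' h7
    refine ⟨push ι 𝒰, f, h1.push hι, ?_, h3, ?_, ?_, ?_⟩
    · exact hF.fct A A' ι hA hA' hι hp _ h2 _ ⟨𝒰, h1, rfl, rfl⟩
    · rw [← push_rel]
      exact connOn_push_of hp h4
    · exact fun h => h5 (splitOn_of_push hp h)
    · rw [← push_rel]
      exact h8
  · rintro q' ⟨𝒰', f, h1, h2, h3, h4, h5, h6⟩
    obtain ⟨p, hp1, 𝒰, h7, h8, h9⟩ := hF.sur A A' ι hA hA' hι hp _ h2
    have h10 : ty A' (rel f 𝒰') = ty A' (push ι (rel f 𝒰)) := by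
      funext R t
      rw [eq_iff_iff, push_rel, ty_rel, ty_rel, h9]
    refine ⟨ty A (rel f 𝒰), ⟨𝒰, f, h7, by rw [h8]; exact hp1, h3, ?_, ?_, rfl⟩, rel f 𝒰,
      h7.rel h3, rfl, ?_⟩
    · exact connOn_of_push hst h𝒱 ((connOn_congr hst' h10).1 h4)
    · intro h
      apply h5
      rw [splitOn_congr hst' h9.symm]
      exact splitOn_push_of hst h𝒱 h
    · rw [← h10, h6]

/-- A large connected set gives a member of `GFam`. -/
theorem GFam_of_conn [Finite T] {B : Str L ℕ} (hB : Stable B n) {F : Str L ℕ → Set (Str L (T ⊕ ℕ))}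
    {A : Str L ℕ} (hA : EC B A) {r : ℕ} (hr : ∀ R : (Σ n, L.Relations n), R.1 ≤ r)
    {𝒰 : Ultrafilter (T → ℕ)} (hU : Fr 𝒰) (hF : ty A 𝒰 ∈ F A) {D : Set T}
    (hD : ConnOn A 𝒰 D) {b : ℕ} (hb : b + r + 2 ≤ D.ncard) :
    ∃ a, b ≤ a ∧ (GFam F a A).Nonempty := by
  have hst : Stab A n := hB.stab hA.emb
  obtain ⟨D', h1, h2, h3, h4, h5, h6⟩ := shrink hst hr hD (by omega)
  have h7 : Nonempty (Fin D'.ncard ≃ D') := by
    have h8 : Nat.card D' = D'.ncard := Nat.card_coe_set_eq D'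
    exact ⟨(Finite.equivFinOfCardEq h8).symm⟩
  obtain ⟨e⟩ := h7
  let f : Fin D'.ncard → T := fun i => (e i : T)
  have hf : Injective f := fun i j h => e.injective (Subtype.ext h)
  have hrange : Set.range f = D' := by
    ext x
    constructor
    · rintro ⟨i, rfl⟩
      exact (e i).2
    · intro hx
      exact ⟨e.symm ⟨x, hx⟩, by simp [f]⟩
  refine ⟨D'.ncard, by omega, ty A (rel f 𝒰), 𝒰, f, hU, hF, hf, ?_, ?_, rfl⟩
  · apply conn_rel hf
    rw [hrange]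
    exact h4
  · rw [hrange]
    exact fun h => h5 (split_mono (Set.subset_univ D) h)

/-- Sufficient data for coding. -/
def CodeData (B : Str L ℕ) : Prop :=
  ∀ b : ℕ, ∃ (a : ℕ) (_ : b ≤ a) (T : Type) (_ : Finite T) (M₁ : Str L ℕ)
    (F : Str L ℕ → Set (Str L (T ⊕ ℕ))) (A : Str L ℕ), CF B M₁ T F ∧ Up B M₁ A ∧
      (GFam F a A).Nonempty

theorem coding_of_data [L.IsRelational] [Finite L.Symbols] (h3 : StP3) (h4 : StP4) {B : Str L ℕ}
    (hB : Stable B n) (hd : CodeData B) :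
    ∃ F : Set ℕ → Str L ℕ, (∀ S, FinEmb (F S) B ∧ FinEmb B (F S)) ∧
      ∀ S S', S ≠ S' → ¬ @ElementarilyEquivalent L ℕ ℕ (toS (F S)) (toS (F S')) := by
  classical
  choose a ha T hT M₁ F A hCF hUp hne using hd
  -- a strictly increasing subsequence of sizes
  let s : ℕ → ℕ := fun i => Nat.rec 0 (fun _ b => a b + 1) i
  have hs : ∀ i, s (i + 1) = a (s i) + 1 := fun i => rfl
  have hmono : StrictMono (fun i => a (s i)) := by
    apply strictMono_nat_of_lt_succ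
    intro i
    have := ha (s (i + 1))
    rw [hs] at this
    rw [hs]
    omega
  obtain ⟨M, hM, hemb⟩ := h3 L B ℕ (fun _ => ℕ) (fun i => A (s i)) (fun i => (hUp (s i)).1.emb)
  have hUpM : ∀ i, Up B (M₁ (s i)) M := by
    intro i
    obtain ⟨ι, hι, hp⟩ := hemb i
    exact (hUp (s i)).step hM hι hp
  refine coding h3 h4 hB hM (fun i => a (s i)) hmono.injective
    (fun i => GFam (F (s i)) (a (s i))) ?_ ?_ ?_ ?_
  · intro i q hq
    have := hT (s i)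
    exact GFam_NMt hq
  · intro i
    have := hT (s i)
    exact GFam_fin ((hCF (s i)).fin M (hUpM i))
  · intro i M' ι hM' hι hp
    exact GFam_ext hB (hCF (s i)) _ (hUpM i) hM' hι hp
  · intro i
    obtain ⟨ι, hι, hp⟩ := hemb i
    obtain ⟨q, hq⟩ := hne (s i)
    have hqT : q ∈ Ty (Fin (a (s i))) (A (s i)) := by
      obtain ⟨𝒰, f, h5, h6, h7, h8, h9, h10⟩ := hq
      exact ⟨rel f 𝒰, h5.rel h7, h10⟩
    obtain ⟨q', hq'⟩ := exists_ext M ι hqT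
    exact ⟨q', (GFam_ext hB (hCF (s i)) _ (hUp (s i)) hM hι hp).1 q hq q' hq'⟩

end Run7.h46.S
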