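import Pool.Agent.Run7.h46.S.Over

/-! No free realizations of non-maximal types in existentially closed structures. -/

namespace Run7.h46.S

open Filter Function Run7.h46 FirstOrder FirstOrder.Language

variable {L : FirstOrder.Language.{0, 0}} {N N' T T' V X : Type} {n : ℕ}

/-- the limit of pull backs -/
def limS {Z : Type} (A : Str L N) (𝒲 : Ultrafilter Z) (φ : Z → N' → N) : Str L N' :=
  fun R x => ∀ᶠ z in (𝒲 : Filter Z), A R (φ z ∘ x)

theorem limS_same [Finite (Σ n, L.Relations n)] {Z : Type} (A : Str L N) (𝒲 : Ultrafilter Z)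
    (φ : Z → N' → N) (s : Finset N') : ∀ᶠ z in (𝒲 : Filter Z),
      ∀ (R : Σ n, L.Relations n) (x : Fin R.1 → N'), (∀ i, x i ∈ s) →
        (limS A 𝒲 φ R x ↔ A R (φ z ∘ x)) := by
  classical
  have h1 : ∀ᶠ z in (𝒲 : Filter Z), ∀ p : (Σ R : (Σ n, L.Relations n), (Fin R.1 → s)),
      (limS A 𝒲 φ p.1 (fun i => (p.2 i : N')) ↔ A p.1 (φ z ∘ fun i => (p.2 i : N'))) := by
    refine eventually_all.2 fun p => ?_
    by_cases h : limS A 𝒲 φ p.1 (fun i => (p.2 i : N'))
    · exact Eventually.mono h fun z hz => ⟨fun _ => hz, fun _ => h⟩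
    · have : ∀ᶠ z in (𝒲 : Filter Z), ¬ A p.1 (φ z ∘ fun i => (p.2 i : N')) :=
        Ultrafilter.eventually_not.2 h
      exact this.mono fun z hz => ⟨fun h1 => absurd h1 h, fun h1 => absurd h1 hz⟩
  exact h1.mono fun z hz R x hx => hz ⟨R, fun i => ⟨x i, hx i⟩⟩

theorem limS_finEmb [Finite (Σ n, L.Relations n)] {Z : Type} (A : Str L N) (𝒲 : Ultrafilter Z)
    (φ : Z → N' → N) (h : ∀ a b, a ≠ b → ∀ᶠ z in (𝒲 : Filter Z), φ z a ≠ φ z b) :
    FinEmb (limS A 𝒲 φ) A := by
  classical
  intro s
  have h1 : ∀ᶠ z in (𝒲 : Filter Z), ∀ p : s × s, (p.1 : N') ≠ p.2 → φ z p.1 ≠ φ z p.2 := by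
    refine eventually_all.2 fun p => ?_
    by_cases hp : (p.1 : N') = p.2
    · exact Eventually.of_forall fun z h2 => absurd hp h2
    · exact (h _ _ hp).mono fun z hz _ => hz
  obtain ⟨z, h2, h3⟩ := (h1.and (limS_same A 𝒲 φ s)).exists
  refine ⟨φ z, ?_, h3⟩
  intro a ha b hb hab
  by_contra hne
  exact h2 (⟨a, ha⟩, ⟨b, hb⟩) hne hab

open Classical in
theorem nm_excl [Finite (Σ n, L.Relations n)] {B A : Str L ℕ} (hB : EC B A) (hA : Stab A n)
    [Finite T] [Finite T'] {𝒰 : Ultrafilter (T' → ℕ)} (hU : Fr 𝒰) {f : T → T'}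
    (hf : Injective f) (hns : ¬ SplitOn A 𝒰 Set.univ (Set.range f))
    {w : T → ℕ} (hwi : Injective w) (hw : FreeAt A (rel f 𝒰) w) : False := by
  apply hns
  let E := {x : T' // x ∉ Set.range f}
  let φ : (T' → ℕ) → ℕ ⊕ E → ℕ := fun u =>
    Sum.elim (fun m => if h : ∃ y, w y = m then u (f h.choose) else m) (fun x => u x.1)
  let A' : Str L (ℕ ⊕ E) := limS A 𝒰 φ
  have hch : ∀ y, ∀ h : (∃ y', w y' = w y), h.choose = y := fun y h => hwi h.choose_spec
  have hφw : ∀ u y, φ u (Sum.inl (w y)) = u (f y) := by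
    intro u y
    have h : ∃ y', w y' = w y := ⟨y, rfl⟩
    simp only [φ, Sum.elim_inl, dif_pos h, hch y h]
  have hφm : ∀ u m, (∀ y, w y ≠ m) → φ u (Sum.inl m) = m := by
    intro u m hm
    have h : ¬ ∃ y, w y = m := fun ⟨y, hy⟩ => hm y hy
    simp only [φ, Sum.elim_inl, dif_neg h]
  have hA'A : FinEmb A' A := by
    apply limS_finEmb
    intro a b hab
    have hfin : ∀ m : ℕ, ∀ᶠ u in (𝒰 : Filter (T' → ℕ)), ∀ x, u x ≠ m := hU.2
    rcases a with a | a <;> rcases b with b | b
    · have hab' : a ≠ b := fun h => hab (h ▸ rfl)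
      by_cases ha : ∃ y, w y = a <;> by_cases hb : ∃ y, w y = b
      · obtain ⟨y, rfl⟩ := ha
        obtain ⟨y', rfl⟩ := hb
        filter_upwards [hU.1] with u hu
        rw [hφw, hφw]
        exact fun h => hab' (by rw [hf (hu h)])
      · obtain ⟨y, rfl⟩ := ha
        filter_upwards [hfin b] with u hu
        rw [hφw, hφm _ _ (fun y hy => hb ⟨y, hy⟩)]
        exact hu _
      · obtain ⟨y, rfl⟩ := hb
        filter_upwards [hfin a] with u hu
        rw [hφw, hφm _ _ (fun y hy => ha ⟨y, hy⟩)]
        exact fun h => hu _ h.symm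
      · refine Eventually.of_forall fun u => ?_
        rw [hφm _ _ (fun y hy => ha ⟨y, hy⟩), hφm _ _ (fun y hy => hb ⟨y, hy⟩)]
        exact hab'
    · by_cases ha : ∃ y, w y = a
      · obtain ⟨y, rfl⟩ := ha
        filter_upwards [hU.1] with u hu
        rw [hφw]
        exact fun h => b.2 ⟨y, hu h⟩
      · filter_upwards [hfin a] with u hu
        rw [hφm _ _ (fun y hy => ha ⟨y, hy⟩)]
        exact fun h => hu _ h.symm
    · by_cases hb : ∃ y, w y = b
      · obtain ⟨y, rfl⟩ := hb
        filter_upwards [hU.1] with u hu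
        rw [hφw]
        exact fun h => a.2 ⟨y, (hu h).symm⟩
      · filter_upwards [hfin b] with u hu
        rw [hφm _ _ (fun y hy => hb ⟨y, hy⟩)]
        exact fun h => hu _ h
    · have hab' : a.1 ≠ b.1 := fun h => hab (by rw [Subtype.ext h])
      filter_upwards [hU.1] with u hu
      exact fun h => hab' (hu h)
  have hpull : A'.pull Sum.inl = A := by
    funext R x
    rw [eq_iff_iff, Str.pull_apply]
    let t : Fin R.1 → T ⊕ ℕ := fun k => if h : ∃ y, w y = x k then Sum.inl h.choose
      else Sum.inr (x k)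
    have h1 : ∀ u : T' → ℕ, φ u ∘ (Sum.inl ∘ x) = Sum.elim (u ∘ f) id ∘ t := by
      intro u
      funext k
      simp only [comp_apply, t]
      by_cases h : ∃ y, w y = x k
      · simp only [φ, Sum.elim_inl, dif_pos h, comp_apply]
      · simp only [φ, Sum.elim_inl, dif_neg h, Sum.elim_inr, id]
    have h2 : Sum.elim w id ∘ t = x := by
      funext k
      simp only [comp_apply, t]
      by_cases h : ∃ y, w y = x k
      · simp only [dif_pos h, Sum.elim_inl]
        exact h.choose_spec
      · simp only [dif_neg h, Sum.elim_inr, id]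
    have h3 := hw R t (by
      intro k m hk y hy
      simp only [t] at hk
      by_cases h : ∃ y, w y = x k
      · simp [dif_pos h] at hk
      · simp only [dif_neg h, Sum.inr.injEq] at hk
        exact h ⟨y, hy.trans hk.symm⟩)
    rw [h2] at h3
    rw [h3]
    change (∀ᶠ u in (𝒰 : Filter (T' → ℕ)), A R (φ u ∘ (Sum.inl ∘ x))) ↔
      ∀ᶠ u in (𝒰 : Filter (T' → ℕ)), A R (Sum.elim (u ∘ f) id ∘ t)
    simp only [h1]
  obtain ⟨𝒱, h𝒱⟩ := hB.ret _ A' Sum.inl Sum.inl_injective (hA'A.trans hB.emb) hpull
  have hUr : Fr (rel f 𝒰) := hU.rel hf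
  have hwfin : (Set.range w).Finite := Set.finite_range w
  -- parameters avoiding w
  have step1 : ∀ (R : Σ n, L.Relations n) (t : Fin R.1 → T' ⊕ ℕ),
      (∀ k m, t k = Sum.inr m → m ∉ Set.range w) →
      (ty A 𝒰 R t ↔ ty A (mixU (Set.range f) 𝒰 𝒰) R t) := by
    intro R t ht
    have htw : ∀ k m, t k = Sum.inr m → ∀ y, w y ≠ m := fun k m hk y hy =>
      ht k m hk ⟨y, hy⟩
    let H : (ℕ ⊕ E → ℕ) → (T' → ℕ) → Fin R.1 → ℕ := fun g u k =>
      Sum.elim (fun y => if h : y ∈ Set.range f then u y else g (Sum.inr ⟨y, h⟩)) id (t k)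
    have hsep : ∀ k, (∃ f : (ℕ ⊕ E → ℕ) → ℕ, ∀ g u, H g u k = f g) ∨
        (∃ f : (T' → ℕ) → ℕ, ∀ g u, H g u k = f u) := by
      intro k
      rcases htk : t k with y | m
      · by_cases hy : y ∈ Set.range f
        · exact Or.inr ⟨fun u => u y, fun g u => by simp only [H, htk, Sum.elim_inl, dif_pos hy]⟩
        · exact Or.inl ⟨fun g => g (Sum.inr ⟨y, hy⟩), fun g u => by
            simp only [H, htk, Sum.elim_inl, dif_neg hy]⟩
      · exact Or.inl ⟨fun _ => m, fun g u => by simp [H, htk]⟩
    have hL : ty A 𝒰 R t ↔ ∀ᶠ g in (𝒱 : Filter _), ∀ᶠ u in (𝒰 : Filter (T' → ℕ)),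
        A R (H g u) := by
      let x : Fin R.1 → ℕ ⊕ E := fun k =>
        Sum.elim (fun y => if h : y ∈ Set.range f then Sum.inl (w h.choose) else Sum.inr ⟨y, h⟩)
          Sum.inl (t k)
      have h1 : ∀ u, φ u ∘ x = Sum.elim u id ∘ t := by
        intro u
        funext k
        simp only [comp_apply, x]
        rcases htk : t k with y | m
        · by_cases hy : y ∈ Set.range f
          · simp only [Sum.elim_inl, dif_pos hy]
            rw [hφw, hy.choose_spec]
          · simp only [Sum.elim_inl, dif_neg hy]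
            rfl
        · simp only [Sum.elim_inr, id]
          exact hφm u m (htw k m htk)
      have h2 : ty A 𝒰 R t ↔ A' R x := by
        change _ ↔ ∀ᶠ u in (𝒰 : Filter (T' → ℕ)), A R (φ u ∘ x)
        simp only [h1]
        rfl
      have h3 : ∀ᶠ g in (𝒱 : Filter _), (A' R x ↔ ∀ᶠ u in (𝒰 : Filter (T' → ℕ)),
          A R (H g u)) := by
        have e1 : ∀ᶠ g in (𝒱 : Filter (ℕ ⊕ E → ℕ)), ∀ y, g (Sum.inl (w y)) = w y :=
          eventually_all.2 fun y => h𝒱.fix _
        have e2 : ∀ᶠ g in (𝒱 : Filter (ℕ ⊕ E → ℕ)), ∀ k m, t k = Sum.inr m →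
            g (Sum.inl m) = m := by
          refine eventually_all.2 fun k => ?_
          rcases t k with y | m
          · exact Eventually.of_forall fun g m hm => by cases hm
          · exact (h𝒱.fix m).mono fun g hg m' hm => by cases hm; exact hg
        have e3 : ∀ᶠ g in (𝒱 : Filter (ℕ ⊕ E → ℕ)), ∀ (e : E) y, g (Sum.inr e) ≠
            g (Sum.inl (w y)) :=
          eventually_all.2 fun e => eventually_all.2 fun y => h𝒱.inj _ _ (by simp)
        filter_upwards [e1, e2, e3, h𝒱.rel R x] with g h1 h2 h3 h4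
        rw [h4]
        let tg : Fin R.1 → T ⊕ ℕ := fun k =>
          Sum.elim (fun y => if h : y ∈ Set.range f then Sum.inl h.choose
            else Sum.inr (g (Sum.inr ⟨y, h⟩))) Sum.inr (t k)
        have h5 : g ∘ x = Sum.elim w id ∘ tg := by
          funext k
          simp only [comp_apply, x, tg]
          rcases htk : t k with y | m
          · by_cases hy : y ∈ Set.range f
            · simp only [Sum.elim_inl, dif_pos hy]
              exact h1 _
            · simp only [Sum.elim_inl, dif_neg hy, Sum.elim_inr, id]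
          · simp only [Sum.elim_inr, id]
            exact h2 k m htk
        have h6 : ∀ k m, tg k = Sum.inr m → ∀ y, w y ≠ m := by
          intro k m hk y hy'
          simp only [tg] at hk
          rcases htk : t k with y' | m'
          · rw [htk] at hk
            by_cases hy : y' ∈ Set.range f
            · simp only [Sum.elim_inl, dif_pos hy] at hk
              exact absurd hk (by simp)
            · simp only [Sum.elim_inl, dif_neg hy, Sum.inr.injEq] at hk
              exact h3 ⟨y', hy⟩ y (by rw [h1, hk, hy'])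
          · rw [htk] at hk
            simp only [Sum.elim_inr, Sum.inr.injEq] at hk
            exact htw k m' htk y (hy'.trans hk.symm)
        rw [h5, hw R tg h6]
        change (∀ᶠ u in (𝒰 : Filter (T' → ℕ)), A R (Sum.elim (u ∘ f) id ∘ tg)) ↔ _
        refine eventually_congr (Eventually.of_forall fun u => ?_)
        have h7 : Sum.elim (u ∘ f) id ∘ tg = H g u := by
          funext k
          simp only [comp_apply, tg, H]
          rcases htk : t k with y | m
          · by_cases hy : y ∈ Set.range f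
            · simp only [Sum.elim_inl, dif_pos hy, comp_apply]
              rw [hy.choose_spec]
            · simp only [Sum.elim_inl, dif_neg hy, Sum.elim_inr, id]
          · simp
        rw [h7]
      rw [h2]
      constructor
      · intro h
        exact h3.mono fun g hg => hg.1 h
      · intro h
        obtain ⟨g, h4, h5⟩ := (h3.and h).exists
        exact h4.2 h5
    have hR : ty A (mixU (Set.range f) 𝒰 𝒰) R t ↔ ∀ᶠ u in (𝒰 : Filter (T' → ℕ)),
        ∀ᶠ g in (𝒱 : Filter _), A R (H g u) := by
      rw [ty_mixU]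
      refine eventually_congr ?_
      filter_upwards [hU.avoid hwfin] with u hu
      let x : Fin R.1 → ℕ ⊕ E := fun k =>
        Sum.elim (fun y => if h : y ∈ Set.range f then Sum.inl (u y) else Sum.inr ⟨y, h⟩)
          Sum.inl (t k)
      have h1 : ∀ u', φ u' ∘ x = Sum.elim (mix (Set.range f) u u') id ∘ t := by
        intro u'
        funext k
        simp only [comp_apply, x]
        rcases htk : t k with y | m
        · by_cases hy : y ∈ Set.range f
          · simp only [Sum.elim_inl, dif_pos hy, mix, if_pos hy]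
            exact hφm _ _ (fun y' hy' => hu y ⟨y', hy'⟩)
          · simp only [Sum.elim_inl, dif_neg hy, mix, if_neg hy]
            rfl
        · simp only [Sum.elim_inr, id]
          exact hφm u' m (htw k m htk)
      have h2 : (∀ᶠ u' in (𝒰 : Filter (T' → ℕ)),
          A R (Sum.elim (mix (Set.range f) u u') id ∘ t)) ↔ A' R x := by
        change _ ↔ ∀ᶠ u in (𝒰 : Filter (T' → ℕ)), A R (φ u ∘ x)
        simp only [h1]
      rw [h2]
      have h3 : ∀ᶠ g in (𝒱 : Filter (ℕ ⊕ E → ℕ)), (A' R x ↔ A R (H g u)) := by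
        have e2 : ∀ᶠ g in (𝒱 : Filter (ℕ ⊕ E → ℕ)), ∀ k m, t k = Sum.inr m →
            g (Sum.inl m) = m := by
          refine eventually_all.2 fun k => ?_
          rcases t k with y | m
          · exact Eventually.of_forall fun g m hm => by cases hm
          · exact (h𝒱.fix m).mono fun g hg m' hm => by cases hm; exact hg
        have e1 : ∀ᶠ g in (𝒱 : Filter (ℕ ⊕ E → ℕ)), ∀ y, g (Sum.inl (u y)) = u y :=
          eventually_all.2 fun y => h𝒱.fix _
        filter_upwards [e1, e2, h𝒱.rel R x] with g h1 h2 h4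
        rw [h4]
        have : g ∘ x = H g u := by
          funext k
          simp only [comp_apply, x, H]
          rcases htk : t k with y | m
          · by_cases hy : y ∈ Set.range f
            · simp only [Sum.elim_inl, dif_pos hy]
              exact h1 _
            · simp only [Sum.elim_inl, dif_neg hy]
          · simp only [Sum.elim_inr, id]
            exact h2 k m htk
        rw [this]
      constructor
      · intro h
        exact h3.mono fun g hg => hg.1 h
      · intro h
        obtain ⟨g, h4, h5⟩ := (h3.and h).exists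
        exact h4.2 h5
    rw [hL, hR]
    exact hA.swap 𝒱 𝒰 R H hsep
  intro R t _
  exact shift hA hUr hw hU (hU.mixU hU) hwfin step1 R t (fun k m _ hm => hm)

end Run7.h46.S
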