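import Pool.Agent.Run7.h46.S.Split

/-! The shift lemma and the overlap lemma. -/

namespace Run7.h46.S

open Filter Function Run7.h46 FirstOrder FirstOrder.Language

variable {L : FirstOrder.Language.{0, 0}} {N N' T T' V X : Type} {A : Str L N} {n : ℕ}

open Classical in
/-- If `w` is free, then the elements of `w` used as parameters may be replaced by a generic
copy. -/
theorem shift_key [Finite T] (hA : Stab A n) {𝒰 : Ultrafilter (T → N)}
    {w : T → N} (hw : FreeAt A 𝒰 w) {𝒱 : Ultrafilter (V → N)} (h𝒱 : Fr 𝒱)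
    (R : Σ n, L.Relations n) (t : Fin R.1 → V ⊕ N) :
    ty A 𝒱 R t ↔ ∀ᶠ u in (𝒰 : Filter (T → N)), ty A 𝒱 R
      ((fun p : V ⊕ N => Sum.elim (fun x => (Sum.inl x : V ⊕ N))
        (fun m => if h : ∃ y, w y = m then Sum.inr (u h.choose) else Sum.inr m) p) ∘ t) := by
  have e1 : ∀ᶠ v in (𝒱 : Filter (V → N)), (A R (Sum.elim v id ∘ t) ↔
      ∀ᶠ u in (𝒰 : Filter (T → N)), A R (Sum.elim v id ∘
      ((fun p : V ⊕ N => Sum.elim (fun x => (Sum.inl x : V ⊕ N))
        (fun m => if h : ∃ y, w y = m then Sum.inr (u h.choose) else Sum.inr m) p) ∘ t))) := by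
    filter_upwards [h𝒱.avoid (Set.finite_range w)] with v hv
    let σ : V ⊕ N → T ⊕ N := Sum.elim (fun x => Sum.inr (v x))
      (fun m => if h : ∃ y, w y = m then Sum.inl h.choose else Sum.inr m)
    have h1 : Sum.elim v id ∘ t = Sum.elim w id ∘ (σ ∘ t) := by
      funext k
      simp only [comp_apply]
      rcases t k with x | m
      · simp [σ]
      · by_cases hm : ∃ y, w y = m
        · simp only [σ, Sum.elim_inr, dif_pos hm, Sum.elim_inl, id]
          exact hm.choose_spec.symm
        · simp only [σ, Sum.elim_inr, dif_neg hm, id]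
    rw [h1, hw R (σ ∘ t) ?_, ty_apply]
    · refine eventually_congr (Eventually.of_forall fun u => ?_)
      have : Sum.elim u id ∘ (σ ∘ t) = Sum.elim v id ∘
          ((fun p : V ⊕ N => Sum.elim (fun x => (Sum.inl x : V ⊕ N))
        (fun m => if h : ∃ y, w y = m then Sum.inr (u h.choose) else Sum.inr m) p) ∘ t) := by
        funext k
        simp only [comp_apply]
        rcases t k with x | m
        · simp [σ]
        · by_cases hm : ∃ y, w y = m
          · simp only [σ, Sum.elim_inr, dif_pos hm, Sum.elim_inl, id]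
          · simp only [σ, Sum.elim_inr, dif_neg hm, id]
      rw [this]
    · intro k m hk x hx
      simp only [comp_apply] at hk
      rcases htk : t k with y | m'
      · rw [htk] at hk
        simp only [σ, Sum.elim_inl, Sum.inr.injEq] at hk
        exact hv y ⟨x, hx.trans hk.symm⟩
      · rw [htk] at hk
        by_cases hm : ∃ y, w y = m'
        · simp only [σ, Sum.elim_inr, dif_pos hm] at hk
          exact absurd hk (by simp)
        · simp only [σ, Sum.elim_inr, dif_neg hm, Sum.inr.injEq] at hk
          exact hm ⟨x, hx.trans hk.symm⟩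
  rw [ty_apply, eventually_congr e1]
  refine hA.swap 𝒱 𝒰 R (fun v u => Sum.elim v id ∘
      ((fun p : V ⊕ N => Sum.elim (fun x => (Sum.inl x : V ⊕ N))
        (fun m => if h : ∃ y, w y = m then Sum.inr (u h.choose) else Sum.inr m) p) ∘ t)) ?_
  intro k
  rcases htk : t k with y | m'
  · exact Or.inl ⟨fun v => v y, fun v u => by simp [htk]⟩
  · by_cases hm : ∃ y, w y = m'
    · exact Or.inr ⟨fun u => u hm.choose, fun v u => by
        simp only [comp_apply, htk, Sum.elim_inr, dif_pos hm, id]⟩
    · exact Or.inr ⟨fun _ => m', fun v u => by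
        simp only [comp_apply, htk, Sum.elim_inr, dif_neg hm, id]⟩

/-- The shift lemma. -/
theorem shift [Finite T] (hA : Stab A n) {𝒰 : Ultrafilter (T → N)} (hU : Fr 𝒰)
    {w : T → N} (hw : FreeAt A 𝒰 w) {𝒱₁ 𝒱₂ : Ultrafilter (V → N)} (h₁ : Fr 𝒱₁) (h₂ : Fr 𝒱₂)
    {G : Set N} (hG : G.Finite)
    (h : ∀ (R : Σ n, L.Relations n) (t : Fin R.1 → V ⊕ N), (∀ k m, t k = Sum.inr m → m ∉ G) →
      (ty A 𝒱₁ R t ↔ ty A 𝒱₂ R t))
    (R : Σ n, L.Relations n) (t : Fin R.1 → V ⊕ N)
    (ht : ∀ k m, t k = Sum.inr m → m ∈ G → m ∈ Set.range w) :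
    ty A 𝒱₁ R t ↔ ty A 𝒱₂ R t := by
  classical
  rw [shift_key hA hw h₁, shift_key hA hw h₂]
  refine eventually_congr ?_
  filter_upwards [hU.avoid hG] with u hu
  apply h
  intro k m hk hm
  simp only [comp_apply] at hk
  rcases htk : t k with y | m'
  · rw [htk] at hk
    simp at hk
  · rw [htk] at hk
    by_cases hm' : ∃ y, w y = m'
    · simp only [Sum.elim_inr, dif_pos hm', Sum.inr.injEq] at hk
      exact hu _ (hk ▸ hm)
    · simp only [Sum.elim_inr, dif_neg hm', Sum.inr.injEq] at hk
      subst hk
      exact hm' (ht k m' htk hm)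

open Classical in
theorem overlap_split [Finite T] [Finite T'] (hA : Stab A n) {𝒰 : Ultrafilter (T → N)}
    (hU : Fr 𝒰) {𝒰' : Ultrafilter (T' → N)} (hU' : Fr 𝒰') {w : T → N} (hw : FreeAt A 𝒰 w)
    {w' : T' → N} (hw' : FreeAt A 𝒰' w') :
    SplitOn A 𝒰' Set.univ {x | ∃ y, w y = w' x} := by
  set D : Set T' := {x | ∃ y, w y = w' x} with hD
  have hmix : Fr (mixU D 𝒰' 𝒰') := hU'.mixU hU'
  -- first for parameters avoiding both
  have step1 : ∀ (R : Σ n, L.Relations n) (t : Fin R.1 → T' ⊕ N),
      (∀ k m, t k = Sum.inr m → m ∉ Set.range w ∪ Set.range w') →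
      (ty A 𝒰' R t ↔ ty A (mixU D 𝒰' 𝒰') R t) := by
    intro R t ht
    have htw : ∀ k m, t k = Sum.inr m → ∀ y, w y ≠ m := fun k m hk y hy =>
      ht k m hk (Or.inl ⟨y, hy⟩)
    have htw' : ∀ k m, t k = Sum.inr m → ∀ y, w' y ≠ m := fun k m hk y hy =>
      ht k m hk (Or.inr ⟨y, hy⟩)
    -- the common expression
    let G : (T → N) → (T' → N) → Fin R.1 → N := fun u v k =>
      Sum.elim (fun x => if h : ∃ y, w y = w' x then u h.choose else v x) id (t k)
    have hGsep : ∀ k, (∃ f : (T' → N) → N, ∀ v u, G u v k = f v) ∨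
        (∃ g : (T → N) → N, ∀ v u, G u v k = g u) := by
      intro k
      rcases htk : t k with x | m
      · by_cases hx : ∃ y, w y = w' x
        · exact Or.inr ⟨fun u => u hx.choose, fun v u => by simp only [G, htk, Sum.elim_inl,
            dif_pos hx]⟩
        · exact Or.inl ⟨fun v => v x, fun v u => by simp only [G, htk, Sum.elim_inl,
            dif_neg hx]⟩
      · exact Or.inl ⟨fun _ => m, fun v u => by simp [G, htk]⟩
    have hL : ty A 𝒰' R t ↔ ∀ᶠ u in (𝒰 : Filter (T → N)), ∀ᶠ v in (𝒰' : Filter (T' → N)),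
        A R (G u v) := by
      rw [← hw' R t htw']
      let t₁ : Fin R.1 → T ⊕ N := fun k =>
        Sum.elim (fun x => if h : ∃ y, w y = w' x then Sum.inl h.choose else Sum.inr (w' x))
          (fun m => Sum.inr m) (t k)
      have h1 : Sum.elim w' id ∘ t = Sum.elim w id ∘ t₁ := by
        funext k
        simp only [comp_apply, t₁]
        rcases t k with x | m
        · by_cases hx : ∃ y, w y = w' x
          · simp only [Sum.elim_inl, dif_pos hx]
            exact hx.choose_spec.symm
          · simp only [Sum.elim_inl, dif_neg hx, Sum.elim_inr, id]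
        · simp
      have h2 : ∀ k m, t₁ k = Sum.inr m → ∀ x, w x ≠ m := by
        intro k m hk x hx
        simp only [t₁] at hk
        rcases htk : t k with x' | m'
        · rw [htk] at hk
          by_cases hx' : ∃ y, w y = w' x'
          · simp only [Sum.elim_inl, dif_pos hx'] at hk
            exact absurd hk (by simp)
          · simp only [Sum.elim_inl, dif_neg hx', Sum.inr.injEq] at hk
            exact hx' ⟨x, hx.trans hk.symm⟩
        · rw [htk] at hk
          simp only [Sum.elim_inr, Sum.inr.injEq] at hk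
          exact htw k m' htk x (hx.trans hk.symm)
      rw [h1, hw R t₁ h2, ty_apply]
      refine eventually_congr ?_
      filter_upwards [hU.avoid (Set.finite_range w')] with u hu
      let t₂ : Fin R.1 → T' ⊕ N := fun k =>
        Sum.elim (fun x => if h : ∃ y, w y = w' x then Sum.inr (u h.choose) else Sum.inl x)
          (fun m => Sum.inr m) (t k)
      have h3 : Sum.elim u id ∘ t₁ = Sum.elim w' id ∘ t₂ := by
        funext k
        simp only [comp_apply, t₁, t₂]
        rcases t k with x | m
        · by_cases hx : ∃ y, w y = w' x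
          · simp only [Sum.elim_inl, dif_pos hx, Sum.elim_inr, id]
          · simp only [Sum.elim_inl, dif_neg hx, Sum.elim_inr, id]
        · simp
      have h4 : ∀ k m, t₂ k = Sum.inr m → ∀ x, w' x ≠ m := by
        intro k m hk x hx
        simp only [t₂] at hk
        rcases htk : t k with x' | m'
        · rw [htk] at hk
          by_cases hx' : ∃ y, w y = w' x'
          · simp only [Sum.elim_inl, dif_pos hx', Sum.inr.injEq] at hk
            exact hu _ ⟨x, hx.trans hk.symm⟩
          · simp only [Sum.elim_inl, dif_neg hx'] at hk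
            exact absurd hk (by simp)
        · rw [htk] at hk
          simp only [Sum.elim_inr, Sum.inr.injEq] at hk
          exact htw' k m' htk x (hx.trans hk.symm)
      rw [h3, hw' R t₂ h4, ty_apply]
      refine eventually_congr (Eventually.of_forall fun v => ?_)
      have h5 : Sum.elim v id ∘ t₂ = G u v := by
        funext k
        simp only [comp_apply, t₂, G]
        rcases t k with x | m
        · by_cases hx : ∃ y, w y = w' x
          · simp only [Sum.elim_inl, dif_pos hx, Sum.elim_inr, id]
          · simp only [Sum.elim_inl, dif_neg hx]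
        · simp
      rw [h5]
    have hR : ty A (mixU D 𝒰' 𝒰') R t ↔ ∀ᶠ v in (𝒰' : Filter (T' → N)),
        ∀ᶠ u in (𝒰 : Filter (T → N)), A R (G u v) := by
      rw [ty_mixU_left hA]
      refine eventually_congr ?_
      filter_upwards [hU'.avoid (Set.finite_range w), hU'.avoid (Set.finite_range w')] with v hv hv'
      have h1 : ∀ k m, (sub D v ∘ t) k = Sum.inr m → ∀ x, w' x ≠ m := by
        intro k m hk x hx
        simp only [comp_apply] at hk
        rcases htk : t k with x' | m'
        · rw [htk] at hk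
          by_cases hx' : x' ∈ D
          · simp [sub, hx'] at hk
          · simp [sub, hx'] at hk
            exact hv' _ ⟨x, hx.trans hk.symm⟩
        · rw [htk] at hk
          simp only [sub, Sum.inr.injEq] at hk
          exact htw' k m' htk x (hx.trans hk.symm)
      rw [← hw' R _ h1]
      let t₃ : Fin R.1 → T ⊕ N := fun k =>
        Sum.elim (fun x => if h : ∃ y, w y = w' x then Sum.inl h.choose else Sum.inr (v x))
          (fun m => Sum.inr m) (t k)
      have h2 : Sum.elim w' id ∘ (sub D v ∘ t) = Sum.elim w id ∘ t₃ := by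
        funext k
        simp only [comp_apply, t₃]
        rcases t k with x | m
        · by_cases hx : ∃ y, w y = w' x
          · have hx' : x ∈ D := hx
            simp only [sub, hx', if_true, Sum.elim_inl, dif_pos hx]
            exact hx.choose_spec.symm
          · have hx' : x ∉ D := hx
            simp only [sub, hx', if_false, Sum.elim_inl, dif_neg hx, Sum.elim_inr, id]
        · simp [sub]
      have h3 : ∀ k m, t₃ k = Sum.inr m → ∀ x, w x ≠ m := by
        intro k m hk x hx
        simp only [t₃] at hk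
        rcases htk : t k with x' | m'
        · rw [htk] at hk
          by_cases hx' : ∃ y, w y = w' x'
          · simp only [Sum.elim_inl, dif_pos hx'] at hk
            exact absurd hk (by simp)
          · simp only [Sum.elim_inl, dif_neg hx', Sum.inr.injEq] at hk
            exact hv _ ⟨x, hx.trans hk.symm⟩
        · rw [htk] at hk
          simp only [Sum.elim_inr, Sum.inr.injEq] at hk
          exact htw k m' htk x (hx.trans hk.symm)
      rw [h2, hw R t₃ h3, ty_apply]
      refine eventually_congr (Eventually.of_forall fun u => ?_)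
      have h5 : Sum.elim u id ∘ t₃ = G u v := by
        funext k
        simp only [comp_apply, t₃, G]
        rcases t k with x | m
        · by_cases hx : ∃ y, w y = w' x
          · simp only [Sum.elim_inl, dif_pos hx]
          · simp only [Sum.elim_inl, dif_neg hx, Sum.elim_inr, id]
        · simp
      rw [h5]
    rw [hL, hR]
    exact (hA.swap 𝒰' 𝒰 R (fun v u => G u v) hGsep).symm
  have step2 := shift hA hU hw hU' hmix ((Set.finite_range w).union (Set.finite_range w')) step1
  have step3 := shift hA hU' hw' hU' hmix (Set.finite_range w') (fun R t ht =>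
    step2 R t (fun k m hk hm => hm.resolve_right (ht k m hk)))
  intro R t _
  exact step3 R t (fun k m _ hm => hm)

theorem overlap_sub [Finite T] [Finite T'] (hA : Stab A n) {𝒰 : Ultrafilter (T → N)}
    (hU : Fr 𝒰) {𝒰' : Ultrafilter (T' → N)} (hU' : Fr 𝒰') (hc' : ConnOn A 𝒰' Set.univ)
    {w : T → N} (hw : FreeAt A 𝒰 w) {w' : T' → N} (hw' : FreeAt A 𝒰' w')
    (hm : ∃ x y, w x = w' y) : Set.range w' ⊆ Set.range w := by
  rcases hc' _ (Set.subset_univ _) (overlap_split hA hU hU' hw hw') with h | h
  · obtain ⟨x, y, hxy⟩ := hm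
    have : y ∈ {x | ∃ y, w y = w' x} := ⟨x, hxy⟩
    rw [h] at this
    exact absurd this (Set.notMem_empty _)
  · rintro m ⟨y, rfl⟩
    have : y ∈ {x | ∃ y, w y = w' x} := by rw [h]; trivial
    exact this

theorem overlap_eq [Finite T] [Finite T'] (hA : Stab A n) {𝒰 : Ultrafilter (T → N)}
    (hU : Fr 𝒰) {𝒰' : Ultrafilter (T' → N)} (hU' : Fr 𝒰') (hc : ConnOn A 𝒰 Set.univ)
    (hc' : ConnOn A 𝒰' Set.univ)
    {w : T → N} (hw : FreeAt A 𝒰 w) {w' : T' → N} (hw' : FreeAt A 𝒰' w')
    (hm : ∃ x y, w x = w' y) : Set.range w = Set.range w' :=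
  Set.Subset.antisymm
    (overlap_sub hA hU' hU hc hw' hw (by obtain ⟨x, y, h⟩ := hm; exact ⟨y, x, h.symm⟩))
    (overlap_sub hA hU hU' hc' hw hw' hm)

theorem overlap (hA : Stab A n) : Overlap A :=
  fun _ _ _ _ _ _ h1 h2 h3 h4 _ _ h5 h6 h7 => overlap_eq hA h1 h2 h3 h4 h5 h6 h7

end Run7.h46.S
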