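import Pool.Agent.Run7.h46.S.Defs2

/-! Existence of stars. -/

namespace Run7.h46.S

open Filter Function Run7.h46 FirstOrder FirstOrder.Language

variable {L : FirstOrder.Language.{0, 0}} {N N' T T' X Y : Type} {n : ℕ}

/-- independent product of an ultrafilter -/
noncomputable def prodU (𝒱 : Ultrafilter (Y → N)) : (k : ℕ) → Ultrafilter (Fin k → Y → N)
  | 0 => pure (fun i => i.elim0)
  | k + 1 => (prodU 𝒱 k).bind (fun f => 𝒱.map (fun v => (Fin.cons v f : Fin (k + 1) → Y → N)))

theorem prodU_succ (𝒱 : Ultrafilter (Y → N)) (k : ℕ) (P : (Fin (k + 1) → Y → N) → Prop) :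
    (∀ᶠ f in (prodU 𝒱 (k + 1) : Filter (Fin (k + 1) → Y → N)), P f) ↔
      ∀ᶠ f in (prodU 𝒱 k : Filter (Fin k → Y → N)), ∀ᶠ v in (𝒱 : Filter (Y → N)),
        P (Fin.cons v f) := Iff.rfl

theorem prodU_proj (𝒱 : Ultrafilter (Y → N)) (P : (Y → N) → Prop) (k : ℕ) :
    ∀ j : Fin k, (∀ᶠ f in (prodU 𝒱 k : Filter (Fin k → Y → N)), P (f j)) ↔
      ∀ᶠ v in (𝒱 : Filter (Y → N)), P v := by
  induction k with
  | zero => intro j; exact j.elim0
  | succ k ih =>
    intro j
    rw [prodU_succ]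
    refine Fin.cases ?_ (fun j' => ?_) j
    · simp only [Fin.cons_zero, eventually_const]
    · simp only [Fin.cons_succ, eventually_const]
      exact ih j'

theorem prodU_avoid {𝒱 : Ultrafilter (Y → N)} (h : Fr 𝒱) {F : Set N} (hF : F.Finite) (k : ℕ) :
    ∀ᶠ f in (prodU 𝒱 k : Filter (Fin k → Y → N)), ∀ j y, f j y ∉ F := by
  refine eventually_all.2 fun j => ?_
  rw [prodU_proj 𝒱 (fun v => ∀ y, v y ∉ F)]
  exact h.avoid hF

theorem prodU_inj [Finite Y] {𝒱 : Ultrafilter (Y → N)} (h : Fr 𝒱) (k : ℕ) :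
    ∀ᶠ f in (prodU 𝒱 k : Filter (Fin k → Y → N)), Injective (fun p : Fin k × Y => f p.1 p.2) := by
  induction k with
  | zero =>
    refine Eventually.of_forall fun f => ?_
    rintro ⟨i, y⟩
    exact i.elim0
  | succ k ih =>
    rw [prodU_succ]
    filter_upwards [ih] with f hf
    filter_upwards [h.1, h.avoid (Set.finite_range (fun p : Fin k × Y => f p.1 p.2))] with v hv hvf
    rintro ⟨i, y⟩ ⟨i', y'⟩ hxy
    simp only at hxy
    revert hxy
    refine Fin.cases ?_ (fun j => ?_) i <;> refine Fin.cases ?_ (fun j' => ?_) i'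
    · intro hxy
      simp only [Fin.cons_zero] at hxy
      rw [hv hxy]
    · intro hxy
      simp only [Fin.cons_zero, Fin.cons_succ] at hxy
      exact absurd ⟨(j', y'), hxy.symm⟩ (hvf y)
    · intro hxy
      simp only [Fin.cons_zero, Fin.cons_succ] at hxy
      exact absurd ⟨(j, y), hxy⟩ (hvf y')
    · intro hxy
      simp only [Fin.cons_succ] at hxy
      have := @hf (j, y) (j', y') hxy
      rw [Prod.mk.injEq] at this
      rw [this.1, this.2]

theorem not_iff_lim {Z : Type} (𝒰 : Ultrafilter Z) {P Q : Z → Prop}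
    (h : ∀ᶠ z in (𝒰 : Filter Z), ¬ (P z ↔ Q z)) :
    ¬ ((∀ᶠ z in (𝒰 : Filter Z), P z) ↔ ∀ᶠ z in (𝒰 : Filter Z), Q z) := by
  intro hpq
  by_cases hP : ∀ᶠ z in (𝒰 : Filter Z), P z
  · obtain ⟨z, h1, h2, h3⟩ := (h.and (hP.and (hpq.1 hP))).exists
    exact h1 ⟨fun _ => h3, fun _ => h2⟩
  · have hQ : ¬ ∀ᶠ z in (𝒰 : Filter Z), Q z := fun h1 => hP (hpq.2 h1)
    rw [← Ultrafilter.eventually_not] at hP hQ
    obtain ⟨z, h1, h2, h3⟩ := (h.and (hP.and hQ)).exists
    exact h1 ⟨fun h => absurd h h2, fun h => absurd h h3⟩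

/-- tuple of a coordinate pattern with parameters -/
def tupY {r : ℕ} (c : Fin r → Option Y) (z : Fin r → N) : Fin r → Y ⊕ N := fun i =>
  match c i with
  | some y => Sum.inl y
  | none => Sum.inr (z i)

theorem main_P10 (h6 : StP6) : StP10 := by
  classical
  intro L _ A n hA Y _ QY p hp hder
  have hfin : Finite (Σ n, L.Relations n) :=
    Finite.of_injective (fun R : (Σ n, L.Relations n) => (Sum.inr R : L.Symbols))
      (fun a b h => Sum.inr_injective h)
  obtain ⟨ℱ, hℱ, hlim⟩ := hder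
  let u : Str L (Y ⊕ ℕ) → Ultrafilter (Y → ℕ) := fun q =>
    if h : q ∈ Ty Y A then h.choose else pure (fun _ => 0)
  have hu : ∀ q ∈ Ty Y A, Fr (u q) ∧ ty A (u q) = q := by
    intro q hq
    simp only [u, dif_pos hq]
    exact hq.choose_spec
  -- the witness
  have h1 : ∀ᶠ q in (ℱ : Filter (Str L (Y ⊕ ℕ))), ∃ P : (Σ R : (Σ n, L.Relations n),
      (Fin R.1 → Option Y)), ∃ z : Fin P.1.1 → ℕ,
      ¬ (q P.1 (tupY P.2 z) ↔ p P.1 (tupY P.2 z)) := by
    filter_upwards [hℱ] with q hq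
    have h2 : ∃ R t, ¬ (q R t ↔ p R t) := by
      by_contra hcon
      push Not at hcon
      apply hq.2
      funext R t
      rw [eq_iff_iff]
      have := hcon R t
      tauto
    obtain ⟨R, t, h2⟩ := h2
    refine ⟨⟨R, fun i => Sum.elim some (fun _ => none) (t i)⟩,
      fun i => Sum.elim (fun _ => 0) id (t i), ?_⟩
    have : tupY (fun i => Sum.elim some (fun _ => none) (t i))
        (fun i => Sum.elim (fun _ => 0) id (t i)) = t := by
      funext i
      rcases h : t i with y | m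
      · simp [tupY, h]
      · simp [tupY, h]
    rw [this]
    exact h2
  obtain ⟨⟨R, c⟩, hP⟩ := (Ultrafilter.eventually_exists_iff (f := ℱ)).1 h1
  simp only at hP
  let Z : Str L (Y ⊕ ℕ) → Fin R.1 → ℕ := fun q =>
    if h : ∃ z : Fin R.1 → ℕ, ¬ (q R (tupY c z) ↔ p R (tupY c z)) then
      (fun i => if c i = none then h.choose i else 0) else fun _ => 0
  have hZ : ∀ᶠ q in (ℱ : Filter (Str L (Y ⊕ ℕ))), ¬ (q R (tupY c (Z q)) ↔ p R (tupY c (Z q))) := by
    filter_upwards [hP] with q hq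
    have h2 : tupY c (Z q) = tupY c hq.choose := by
      funext i
      simp only [tupY, Z, dif_pos hq]
      rcases c i with _ | y
      · simp
      · rfl
    rw [h2]
    exact hq.choose_spec
  have hZc : ∀ q i, c i ≠ none → Z q i = 0 := by
    intro q i hi
    simp only [Z]
    split_ifs with h
    · simp [hi]
    · rfl
  obtain ⟨e, s₀, g, hs1, hs2, hs3, hs4⟩ := h6 _ ℕ ℱ R.1 Z
  have hs5 : ∀ a i, s₀ i = Sum.inl a → c i = none := by
    intro a i hi
    by_contra hc
    obtain ⟨q, h3, h4⟩ := (hs2.and (hs4 0)).exists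
    have h5 := congrFun h3 i
    rw [hZc q i hc, comp_apply, hi, Sum.elim_inl] at h5
    exact h4 a h5.symm
  let s : Fin R.1 → (Fin e ⊕ Y) ⊕ Unit := fun i =>
    match c i with
    | some y => Sum.inl (Sum.inr y)
    | none => Sum.elim (fun a => Sum.inl (Sum.inl a)) (fun _ => Sum.inr ()) (s₀ i)
  let z : Fin R.1 → ℕ := fun i => Sum.elim (fun _ => 0) id (s₀ i)
  refine ⟨e, R, s, ?_, fun k => ?_⟩
  · intro a
    obtain ⟨i, hi⟩ := hs1 a
    refine ⟨i, ?_⟩
    have := hs5 a i hi
    simp only [s, this, hi, Sum.elim_inl]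
  -- the ultrafilter
  let τ : Str L (Y ⊕ ℕ) → (Fin k → Y → ℕ) → (Fin e ⊕ (Fin k × Y) → ℕ) := fun q f =>
    Sum.elim (g q) (fun r => f r.1 r.2)
  let U : Ultrafilter (Fin e ⊕ (Fin k × Y) → ℕ) := ℱ.bind (fun q => (prodU (u q) k).map (τ q))
  have hU : ∀ P : (Fin e ⊕ (Fin k × Y) → ℕ) → Prop,
      (∀ᶠ w in (U : Filter (Fin e ⊕ (Fin k × Y) → ℕ)), P w) ↔
        ∀ᶠ q in (ℱ : Filter (Str L (Y ⊕ ℕ))), ∀ᶠ f in (prodU (u q) k : Filter (Fin k → Y → ℕ)),
          P (τ q f) := fun P => Iff.rfl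
  have hFr : Fr U := by
    constructor
    · rw [hU]
      filter_upwards [hℱ, hs3] with q hq hg
      have hFq := (hu q hq.1).1
      filter_upwards [prodU_inj hFq k, prodU_avoid hFq (Set.finite_range (g q)) k] with f hf1 hf2
      rintro (a | r) (a' | r') hab
      · simp only [τ, Sum.elim_inl] at hab
        rw [hg hab]
      · simp only [τ, Sum.elim_inl, Sum.elim_inr] at hab
        exact absurd ⟨a, hab⟩ (hf2 _ _)
      · simp only [τ, Sum.elim_inl, Sum.elim_inr] at hab
        exact absurd ⟨a', hab.symm⟩ (hf2 _ _)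
      · simp only [τ, Sum.elim_inr] at hab
        rw [hf1 hab]
    · intro m
      rw [hU]
      filter_upwards [hℱ, hs4 m] with q hq hg
      have hFq := (hu q hq.1).1
      filter_upwards [prodU_avoid hFq (Set.finite_singleton m) k] with f hf
      rintro (a | r)
      · exact hg a
      · exact fun h => hf r.1 r.2 h
  -- evaluation of tuples
  have hps : ∀ᶠ q in (ℱ : Filter (Str L (Y ⊕ ℕ))), ∀ f, ps s (τ q f) z = tupY c (Z q) := by
    filter_upwards [hs2] with q hq f
    funext i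
    have h3 := congrFun hq i
    simp only [comp_apply] at h3
    simp only [ps, tupY, s, z]
    rcases hc : c i with _ | y
    · rcases hs : s₀ i with a | m
      · simp only [hs, Sum.elim_inl] at h3 ⊢
        rw [h3]
        rfl
      · simp only [hs, Sum.elim_inr] at h3 ⊢
        rw [h3]
    · simp
  have hpt : ∀ᶠ q in (ℱ : Filter (Str L (Y ⊕ ℕ))), ∀ f (j : Fin k),
      Sum.elim (τ q f) id ∘ pt s j z = Sum.elim (f j) id ∘ tupY c (Z q) := by
    filter_upwards [hs2] with q hq f j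
    funext i
    have h3 := congrFun hq i
    simp only [comp_apply] at h3
    simp only [comp_apply, pt, tupY, s, z]
    rcases hc : c i with _ | y
    · rcases hs : s₀ i with a | m
      · simp only [hs, Sum.elim_inl] at h3 ⊢
        rw [Sum.elim_inr, h3]
        rfl
      · simp only [hs, Sum.elim_inr] at h3 ⊢
        rw [h3]
    · simp only [Sum.elim_inl]
      rfl
  refine ⟨ty A U, U, hFr, rfl, p, hp, ?_, z, ?_⟩
  · intro j
    funext R' t
    rw [eq_iff_iff, ty_rel, ty_apply, hU, ← hlim]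
    refine eventually_congr (hℱ.mono fun q hq => ?_)
    have h3 : ∀ f : Fin k → Y → ℕ, Sum.elim (τ q f) id ∘ (Sum.map (fun y => Sum.inr (j, y)) id ∘ t)
        = Sum.elim (f j) id ∘ t := by
      intro f
      funext i
      simp only [comp_apply]
      rcases t i with y | m
      · simp [τ]
      · simp
    simp only [h3]
    rw [prodU_proj (u q) (fun v => A R' (Sum.elim v id ∘ t)) k j]
    have := congrFun (congrFun (hu q hq.1).2 R') t
    exact iff_of_eq this
  · intro j
    have e1 : ty A U R (pt s j z) ↔ ∀ᶠ q in (ℱ : Filter (Str L (Y ⊕ ℕ))),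
        q R (tupY c (Z q)) := by
      rw [ty_apply, hU]
      refine eventually_congr ?_
      filter_upwards [hpt, hℱ] with q hq hq'
      simp only [hq]
      rw [prodU_proj (u q) (fun v => A R (Sum.elim v id ∘ tupY c (Z q))) k j]
      have := congrFun (congrFun (hu q hq'.1).2 R) (tupY c (Z q))
      exact iff_of_eq this
    have e2 : (∀ᶠ w in (U : Filter (Fin e ⊕ (Fin k × Y) → ℕ)), p R (ps s w z)) ↔
        ∀ᶠ q in (ℱ : Filter (Str L (Y ⊕ ℕ))), p R (tupY c (Z q)) := by
      rw [hU]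
      refine eventually_congr ?_
      filter_upwards [hps] with q hq
      simp only [hq, eventually_const]
    rw [e1, e2]
    exact not_iff_lim ℱ hZ

end Run7.h46.S
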