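import Pool.Agent.Run7.h46.S.Defs2

/-! Star types have large connected sets. -/

namespace Run7.h46.S

open Filter Function Run7.h46 FirstOrder FirstOrder.Language

variable {L : FirstOrder.Language.{0, 0}} {N N' T T' X Y : Type} {n : ℕ}

theorem split_iUnion {A : Str L N} (hA : Stab A n) {𝒰 : Ultrafilter (T → N)} {D : Set T}
    {m : ℕ} (C : Fin m → Set T) (h : ∀ a, SplitOn A 𝒰 D (C a)) :
    SplitOn A 𝒰 D (⋃ a, C a) := by
  classical
  have : ∀ s : Finset (Fin m), SplitOn A 𝒰 D (⋃ a ∈ s, C a) := by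
    intro s
    induction s using Finset.induction_on with
    | empty => simpa using split_empty
    | insert a s ha ih =>
      rw [Finset.set_biUnion_insert]
      exact split_union hA (h a) ih
  have h1 := this Finset.univ
  simpa using h1

theorem main_P11 : StP11 := by
  classical
  intro L _ A n hA Y _ QY k m R s 𝒰 hq
  by_cases hk : k = 0
  · subst hk
    exact ⟨∅, fun C hC _ => Or.inl (Set.subset_empty_iff.1 hC), Nat.zero_le _⟩
  obtain ⟨𝒰', hU', hty, p, hp, hleaf', z, hz'⟩ := hq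
  -- transfer to `𝒰`
  have hleaf : ∀ j, ty A (rel (fun y => Sum.inr (j, y)) 𝒰) = p := by
    intro j
    rw [← hleaf' j]
    funext R t
    rw [eq_iff_iff, ty_rel, ty_rel, hty]
  have hpw : ∀ (𝒲 : Ultrafilter (Fin m ⊕ (Fin k × Y) → ℕ)) (j : Fin k),
      ty A (rel (fun y => Sum.inr (j, y)) 𝒲) = p →
      ∀ 𝒲' : Ultrafilter (Fin m ⊕ (Fin k × Y) → ℕ),
      (∀ᶠ w in (𝒲' : Filter (Fin m ⊕ (Fin k × Y) → ℕ)), p R (ps s w z)) ↔
        ∀ᶠ w in (𝒲' : Filter (Fin m ⊕ (Fin k × Y) → ℕ)),
        ∀ᶠ v in (𝒲 : Filter (Fin m ⊕ (Fin k × Y) → ℕ)),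
          A R (Sum.elim (mix (Set.range Sum.inl) w v) id ∘ pt s j z) := by
    intro 𝒲 j h𝒲 𝒲'
    refine eventually_congr (Eventually.of_forall fun w => ?_)
    rw [← h𝒲, ty_rel, ty_apply]
    refine eventually_congr (Eventually.of_forall fun v => ?_)
    have : Sum.elim v id ∘ (Sum.map (fun y => Sum.inr (j, y)) id ∘ ps s w z)
        = Sum.elim (mix (Set.range Sum.inl) w v) id ∘ pt s j z := by
      funext i
      simp only [comp_apply, ps, pt]
      rcases s i with (a | y) | u
      · simp [mix]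
      · simp [mix]
      · simp
    rw [this]
  have hz : ∀ j, ¬ (ty A 𝒰 R (pt s j z) ↔
      ty A (mixU (Set.range Sum.inl) 𝒰 𝒰) R (pt s j z)) := by
    intro j h
    apply hz' j
    rw [hty, hpw 𝒰' j (hleaf' j) 𝒰', h]
    change ty A (mixU (Set.range Sum.inl) 𝒰 𝒰) R (pt s j z) ↔
      ty A (mixU (Set.range Sum.inl) 𝒰' 𝒰') R (pt s j z)
    rw [cong_eq hA _ hty hty]
  -- components
  have hcomp : ∀ a : Fin m, ∃ C : Set (Fin m ⊕ (Fin k × Y)), {Sum.inl a} ⊆ C ∧
      SplitOn A 𝒰 Set.univ C ∧ ConnOn A 𝒰 C := by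
    intro a
    obtain ⟨C, h1, -, h2, h3⟩ := exists_comp (F := Set.univ) hA (Set.subset_univ _)
      (conn_singleton (A := A) (𝒰 := 𝒰) (Sum.inl a : Fin m ⊕ (Fin k × Y)))
    exact ⟨C, h1, h2, h3⟩
  choose C hC1 hC2 hC3 using hcomp
  have hmeet : ∀ j : Fin k, ∃ a : Fin m, ∃ y, (Sum.inr (j, y) : Fin m ⊕ (Fin k × Y)) ∈ C a := by
    intro j
    by_contra hcon
    push Not at hcon
    apply hz j
    have h1 := split_iUnion hA C hC2
    rw [h1 R (pt s j z) (fun _ _ _ => Set.mem_univ _)]
    rw [ty_mixU, ty_mixU]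
    refine eventually_congr (Eventually.of_forall fun w =>
      eventually_congr (Eventually.of_forall fun v => ?_))
    have : Sum.elim (mix (⋃ a, C a) w v) id ∘ pt s j z
        = Sum.elim (mix (Set.range Sum.inl) w v) id ∘ pt s j z := by
      funext i
      simp only [comp_apply, pt]
      rcases s i with (a | y) | u
      · have h2 : (Sum.inl a : Fin m ⊕ (Fin k × Y)) ∈ ⋃ a, C a :=
          Set.mem_iUnion.2 ⟨a, hC1 a rfl⟩
        simp [mix, h2]
      · have h2 : (Sum.inr (j, y) : Fin m ⊕ (Fin k × Y)) ∉ ⋃ a, C a := by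
          rw [Set.mem_iUnion]
          rintro ⟨a, ha⟩
          exact hcon a y ha
        simp [mix, h2]
      · simp
    rw [this]
  choose f y hf using hmeet
  -- pigeonhole
  have hm : 0 < m := (f ⟨0, Nat.pos_of_ne_zero hk⟩).pos
  have : Nonempty (Fin m) := ⟨⟨0, hm⟩⟩
  obtain ⟨a, -, ha⟩ := Finset.exists_max_image (Finset.univ : Finset (Fin m))
    (fun a => (Finset.univ.filter (fun j => f j = a)).card) Finset.univ_nonempty
  refine ⟨C a, hC3 a, ?_⟩
  have h1 : k = ∑ b : Fin m, (Finset.univ.filter (fun j => f j = b)).card := by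
    have := Finset.card_eq_sum_card_fiberwise (f := f) (s := (Finset.univ : Finset (Fin k)))
      (t := Finset.univ) (fun _ _ => Finset.mem_univ _)
    rw [Finset.card_univ, Fintype.card_fin] at this
    exact this
  have h2 : (Finset.univ.filter (fun j => f j = a)).card ≤ (C a).ncard := by
    have hinj : Injective (fun j : Fin k => (Sum.inr (j, y j) : Fin m ⊕ (Fin k × Y))) := by
      intro j j' h
      have := Sum.inr_injective h
      exact (Prod.mk.injEq _ _ _ _ ▸ this).1
    rw [← Finset.card_image_of_injective _ hinj, ← Set.ncard_coe_finset]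
    refine Set.ncard_le_ncard ?_ (Set.toFinite _)
    intro u hu
    rw [Finset.mem_coe, Finset.mem_image] at hu
    obtain ⟨j, hj, rfl⟩ := hu
    rw [Finset.mem_filter] at hj
    rw [← hj.2]
    exact hf j
  calc k = ∑ b : Fin m, (Finset.univ.filter (fun j => f j = b)).card := h1
    _ ≤ ∑ b : Fin m, (Finset.univ.filter (fun j => f j = a)).card :=
      Finset.sum_le_sum fun b _ => ha b (Finset.mem_univ _)
    _ = m * (Finset.univ.filter (fun j => f j = a)).card := by simp
    _ ≤ m * (C a).ncard := Nat.mul_le_mul_left _ h2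

end Run7.h46.S
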