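import Pool.Agent.Run7.h46.S.Coh
import Pool.Agent.Run7.h46.S.Defs2

/-! Canonical finite families at the top rank of a closed functorial system. -/

namespace Run7.h46.S

open Filter Function Run7.h46 FirstOrder FirstOrder.Language

variable {L : FirstOrder.Language.{0, 0}} {N N' T T' X : Type} {n : ℕ}

theorem der_nonempty {Z : Set (Str L X)} (hZ : Z.Infinite) : (Der Z).Nonempty := by
  have : Infinite Z := hZ.to_subtype
  let ℱ : Ultrafilter (Str L X) := (hyperfilter Z).map Subtype.val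
  refine ⟨ulim ℱ, ℱ, ?_, rfl⟩
  change ∀ᶠ p : Z in (hyperfilter Z : Filter Z), (p : Str L X) ∈ Z ∧ (p : Str L X) ≠ ulim ℱ
  have h1 : ∀ᶠ p : Z in (hyperfilter Z : Filter Z), (p : Str L X) ≠ ulim ℱ := by
    have hfin : {p : Z | (p : Str L X) = ulim ℱ}.Finite := by
      apply Set.Subsingleton.finite
      intro p hp q hq
      exact Subtype.ext (hp.trans hq.symm)
    exact hfin.compl_mem_hyperfilter
  exact h1.mono fun p hp => ⟨p.2, hp⟩

theorem der_finite {Z : Set (Str L X)} (hZ : Z.Finite) : Der Z = ∅ := by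
  rw [Set.eq_empty_iff_forall_notMem]
  rintro q ⟨ℱ, h1, h2⟩
  have h3 : ∀ᶠ p in (ℱ : Filter (Str L X)), ∃ z ∈ Z, p = z ∧ p ≠ q :=
    h1.mono fun p hp => ⟨p, hp.1, rfl, hp.2⟩
  have : ∃ z ∈ Z, ∀ᶠ p in (ℱ : Filter (Str L X)), p = z ∧ p ≠ q := by
    have h4 := (Ultrafilter.eventually_exists_mem_iff (f := ℱ) (is := Z)
      (P := fun z p => p = z ∧ p ≠ q) hZ).1 h3
    exact h4
  obtain ⟨z, hz, h5⟩ := this
  obtain ⟨p, h6, h7⟩ := h5.exists
  apply h7
  rw [← h2, h6]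
  funext R t
  rw [eq_iff_iff]
  change z R t ↔ ∀ᶠ p in (ℱ : Filter (Str L X)), p R t
  have : ∀ᶠ p in (ℱ : Filter (Str L X)), (p R t ↔ z R t) := h5.mono fun p hp => by rw [hp.1]
  rw [eventually_congr this, eventually_const]

theorem der_subset {Z : Set (Str L X)} (hZ : Clo Z) : Der Z ⊆ Z := by
  rintro q ⟨ℱ, h1, rfl⟩
  exact hZ ℱ (h1.mono fun p hp => hp.1)

theorem clo_der {Z : Set (Str L X)} (hZ : Clo Z) : Clo (Der Z) := by
  classical
  intro ℱ hℱ
  by_cases h : ∀ᶠ p in (ℱ : Filter (Str L X)), p = ulim ℱ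
  · obtain ⟨p, h1, h2⟩ := (hℱ.and h).exists
    rw [← h2]; exact h1
  · rw [← Ultrafilter.eventually_not] at h
    let c : Str L X → Ultrafilter (Str L X) := fun p => if h : p ∈ Der Z then h.choose else pure p
    have hc : ∀ p ∈ Der Z, (∀ᶠ p' in (c p : Filter (Str L X)), p' ∈ Z ∧ p' ≠ p) ∧
        ulim (c p) = p := by
      intro p hp
      simp only [c, dif_pos hp]
      exact hp.choose_spec
    refine ⟨ℱ.bind c, ?_, ?_⟩
    · change ∀ᶠ p in (ℱ : Filter (Str L X)), ∀ᶠ p' in (c p : Filter (Str L X)),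
        p' ∈ Z ∧ p' ≠ ulim ℱ
      filter_upwards [hℱ, h] with p hp1 hp2
      obtain ⟨h3, h4⟩ := hc p hp1
      have h5 : ∃ R t, ¬ (p R t ↔ ulim ℱ R t) := by
        by_contra hcon
        push Not at hcon
        apply hp2
        funext R t
        rw [eq_iff_iff]
        have := hcon R t
        tauto
      obtain ⟨R, t, h5⟩ := h5
      have h6 : ∀ᶠ p' in (c p : Filter (Str L X)), (p' R t ↔ p R t) := by
        by_cases h7 : p R t
        · have h8 : ulim (c p) R t := by rw [h4]; exact h7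
          exact Eventually.mono h8 fun p' hp' => ⟨fun _ => h7, fun _ => hp'⟩
        · have h8 : ¬ ulim (c p) R t := by rw [h4]; exact h7
          have h9 : ∀ᶠ p' in (c p : Filter (Str L X)), ¬ p' R t := Ultrafilter.eventually_not.2 h8
          exact h9.mono fun p' hp' => ⟨fun h => absurd h hp', fun h => absurd h h7⟩
      filter_upwards [h3, h6] with p' h7 h8
      refine ⟨h7.1, fun h9 => h5 ?_⟩
      rw [← h8, h9]
    · funext R t
      rw [eq_iff_iff]
      change (∀ᶠ p in (ℱ : Filter (Str L X)), ∀ᶠ p' in (c p : Filter (Str L X)), p' R t) ↔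
        ∀ᶠ p in (ℱ : Filter (Str L X)), p R t
      refine eventually_congr (hℱ.mono fun p hp => ?_)
      have := (hc p hp).2
      have := congrFun (congrFun this R) t
      exact iff_of_eq this

theorem der_mono {Z Z' : Set (Str L X)} (h : Z ⊆ Z') : Der Z ⊆ Der Z' := by
  rintro q ⟨ℱ, h1, h2⟩
  exact ⟨ℱ, h1.mono fun p hp => ⟨h hp.1, hp.2⟩, h2⟩

theorem derN_mono {Z Z' : Set (Str L X)} (h : Z ⊆ Z') (k : ℕ) : derN k Z ⊆ derN k Z' := by
  induction k with
  | zero => exact h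
  | succ k ih => exact der_mono ih

theorem clo_derN {Z : Set (Str L X)} (hZ : Clo Z) (k : ℕ) : Clo (derN k Z) := by
  induction k with
  | zero => exact hZ
  | succ k ih => exact clo_der ih

theorem derN_succ_subset {Z : Set (Str L X)} (hZ : Clo Z) (k : ℕ) : derN (k + 1) Z ⊆ derN k Z :=
  der_subset (clo_derN hZ k)

theorem derN_anti {Z : Set (Str L X)} (hZ : Clo Z) {k l : ℕ} (h : k ≤ l) :
    derN l Z ⊆ derN k Z := by
  induction l, h using Nat.le_induction with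
  | base => exact subset_rfl
  | succ l _ ih => exact (derN_succ_subset hZ l).trans ih

theorem Up.trans {B M M' A : Str L ℕ} (h : Up B M M') (h' : Up B M' A) : Up B M A := by
  obtain ⟨ι, h1, h2⟩ := h.2
  obtain ⟨ι', h3, h4⟩ := h'.2
  refine ⟨h'.1, ι' ∘ ι, h3.comp h1, ?_⟩
  rw [← h2, ← h4, Str.pull_pull]

theorem Up.step {B M A A' : Str L ℕ} (h : Up B M A) (h' : EC B A') {ι : ℕ → ℕ}
    (hι : Injective ι) (hp : A'.pull ι = A) : Up B M A' :=
  Up.trans h ⟨h', ι, hι, hp⟩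

theorem Up.refl {B M : Str L ℕ} (h : EC B M) : Up B M M := ⟨h, id, injective_id, rfl⟩

/-- the extension map preserves iterated derivatives -/
theorem ext_derN {B M₀ : Str L ℕ} (hB : Stable B n) {Z : Str L ℕ → Set (Str L (T ⊕ ℕ))}
    (hZ : Sys B M₀ T Z) {A A' : Str L ℕ} (hA : Up B M₀ A) (hA' : EC B A') {ι : ℕ → ℕ}
    (hι : Injective ι) (hp : A'.pull ι = A) (k : ℕ) :
    ∀ q ∈ derN k (Z A), ∀ q', Ext A A' ι q q' → q' ∈ derN k (Z A') := by
  obtain ⟨𝒱, h𝒱⟩ := hA.1.ret _ A' ι hι hA'.emb hp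
  have hsub : ∀ k, derN k (Z A) ⊆ Ty T A := fun k =>
    (derN_anti (hZ.clo A hA) (Nat.zero_le k)).trans (hZ.sub A hA)
  induction k with
  | zero => exact hZ.fct A A' ι hA hA' hι hp
  | succ k ih =>
    intro q hq q' hqq
    exact der_ext (hB.stab hA.1.emb) hp h𝒱 (hsub k) ih hq hqq

theorem main_P7 (h2 : StP2) (h3 : StP3) : StP7 := by
  classical
  intro L _ B n hB M₀ hM₀ T _ Z hZ hne
  obtain ⟨H, hH⟩ := h2 L B n hB T
  have hZH : ∀ A, Up B M₀ A → derN H (Z A) = ∅ := by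
    intro A hA
    have := derN_mono (hZ.sub A hA) H
    rw [hH A hA.1.emb] at this
    exact Set.subset_empty_iff.1 this
  let P : ℕ → Prop := fun k => ∃ A, Up B M₀ A ∧ (derN k (Z A)).Nonempty
  have hP0 : P 0 := hne
  have hPb : ∀ k, P k → k ≤ H := by
    rintro k ⟨A, hA, hA'⟩
    by_contra hk
    push Not at hk
    obtain ⟨q, hq⟩ := hA'
    have := derN_anti (hZ.clo A hA) hk.le hq
    rw [hZH A hA] at this
    exact this
  let ρ := Nat.findGreatest P H
  have hρ : P ρ := Nat.findGreatest_spec (Nat.zero_le _) hP0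
  have hρm : ∀ A, Up B M₀ A → derN (ρ + 1) (Z A) = ∅ := by
    intro A hA
    by_contra hne'
    have h4 : P (ρ + 1) := ⟨A, hA, Set.nonempty_iff_ne_empty.2 hne'⟩
    have := Nat.le_findGreatest (hPb _ h4) h4
    omega
  have hfin : ∀ A, Up B M₀ A → (derN ρ (Z A)).Finite := by
    intro A hA
    by_contra hinf
    have := der_nonempty (Z := derN ρ (Z A)) hinf
    rw [show Der (derN ρ (Z A)) = derN (ρ + 1) (Z A) from rfl, hρm A hA] at this
    exact Set.not_nonempty_empty this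
  -- the injection
  have hinj : ∀ A A' (ι : ℕ → ℕ), Up B M₀ A → EC B A' → Injective ι → A'.pull ι = A →
      ∃ f : Str L (T ⊕ ℕ) → Str L (T ⊕ ℕ), Set.InjOn f (derN ρ (Z A)) ∧
        ∀ q ∈ derN ρ (Z A), f q ∈ derN ρ (Z A') ∧ Ext A A' ι q (f q) := by
    intro A A' ι hA hA' hι hp
    have hsub : derN ρ (Z A) ⊆ Ty T A :=
      (derN_anti (hZ.clo A hA) (Nat.zero_le ρ)).trans (hZ.sub A hA)
    have hex : ∀ q, ∃ q', q ∈ derN ρ (Z A) → Ext A A' ι q q' := by
      intro q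
      by_cases hq : q ∈ derN ρ (Z A)
      · obtain ⟨q', hq'⟩ := exists_ext A' ι (hsub hq)
        exact ⟨q', fun _ => hq'⟩
      · exact ⟨q, fun h => absurd h hq⟩
    choose f hf using hex
    refine ⟨f, ?_, fun q hq => ⟨?_, hf q hq⟩⟩
    · intro q hq p hp' hqp
      have h4 := hf q hq
      have h5 := hf p hp'
      rw [hqp] at h4
      exact Ext.inj hp h4 h5 |>.symm
    · exact ext_derN hB hZ hA hA' hι hp ρ q hq _ (hf q hq)
  have hcard : ∀ A A' (ι : ℕ → ℕ), Up B M₀ A → EC B A' → Injective ι → A'.pull ι = A →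
      (derN ρ (Z A)).ncard ≤ (derN ρ (Z A')).ncard := by
    intro A A' ι hA hA' hι hp
    obtain ⟨f, hf1, hf2⟩ := hinj A A' ι hA hA' hι hp
    rw [← Set.ncard_image_of_injOn hf1]
    refine Set.ncard_le_ncard ?_ (hfin A' (hA.step hA' hι hp))
    rintro _ ⟨q, hq, rfl⟩
    exact (hf2 q hq).1
  -- bounded cardinalities
  have hbdd : ∃ C, ∀ A, Up B M₀ A → (derN ρ (Z A)).ncard ≤ C := by
    by_contra hcon
    push Not at hcon
    choose A hA hA' using hcon
    obtain ⟨M, hM, hemb⟩ := h3 L B ℕ (fun _ => ℕ) A (fun i => (hA i).1.emb)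
    obtain ⟨ι, hι, hp⟩ := hemb ((derN ρ (Z M)).ncard)
    have := hcard _ M ι (hA _) hM hι hp
    have h5 := hA' ((derN ρ (Z M)).ncard)
    omega
  obtain ⟨C, hC⟩ := hbdd
  let Q : ℕ → Prop := fun k => ∃ A, Up B M₀ A ∧ (derN ρ (Z A)).ncard = k
  obtain ⟨A₀, hA₀, hA₀n⟩ := hρ
  let d := Nat.findGreatest Q C
  have hQd : Q d := Nat.findGreatest_spec (m := (derN ρ (Z A₀)).ncard) (hC A₀ hA₀)
    ⟨A₀, hA₀, rfl⟩
  have hd : ∀ A, Up B M₀ A → (derN ρ (Z A)).ncard ≤ d := fun A hA =>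
    Nat.le_findGreatest (hC A hA) ⟨A, hA, rfl⟩
  have hd1 : 1 ≤ d := by
    refine le_trans ?_ (hd A₀ hA₀)
    exact (Set.ncard_pos (hfin A₀ hA₀)).2 hA₀n
  obtain ⟨M₁, hM₁, hM₁d⟩ := hQd
  have hup : ∀ A, Up B M₁ A → (derN ρ (Z A)).ncard = d := by
    intro A hA
    obtain ⟨ι, hι, hp⟩ := hA.2
    refine le_antisymm (hd A (hM₁.trans hA)) ?_
    rw [← hM₁d]
    exact hcard M₁ A ι hM₁ hA.1 hι hp
  refine ⟨ρ, M₁, hM₁, hρm, fun A hA => ⟨hfin A (hM₁.trans hA), ?_⟩, ?_⟩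
  · rw [← Set.ncard_pos (hfin A (hM₁.trans hA)), hup A hA]
    exact hd1
  · intro A A' ι hA hA' hι hp q' hq'
    obtain ⟨f, hf1, hf2⟩ := hinj A A' ι (hM₁.trans hA) hA' hι hp
    have h4 : f '' (derN ρ (Z A)) = derN ρ (Z A') := by
      refine Set.eq_of_subset_of_ncard_le ?_ ?_ (hfin A' ((hM₁.trans hA).step hA' hι hp))
      · rintro _ ⟨q, hq, rfl⟩
        exact (hf2 q hq).1
      · rw [Set.ncard_image_of_injOn hf1, hup A hA, hup A' (hA.step hA' hι hp)]
    rw [← h4] at hq'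
    obtain ⟨q, hq, rfl⟩ := hq'
    exact ⟨q, hq, (hf2 q hq).2⟩

end Run7.h46.S
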