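import Pool.Agent.Run7.h46.S.Cells

/-! First-order definability of free realizations. -/

namespace Run7.h46.S

open Filter Function Run7.h46 FirstOrder FirstOrder.Language

variable {L : FirstOrder.Language.{0, 0}} {N N' T T' V X : Type} {n k : ℕ}

/-- patterns of a relation with coordinates in `Fin k` and parameters -/
abbrev Pat (L : FirstOrder.Language.{0, 0}) (k : ℕ) : Type :=
  Σ R : (Σ n, L.Relations n), (Fin R.1 → Option (Fin k))

/-- fill a pattern -/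
def fill {r : ℕ} (s : Fin r → Option (Fin k)) (w : Fin k → N) (z : Fin r → N) : Fin r → N :=
  fun i => match s i with
  | some x => w x
  | none => z i

theorem fill_some {r : ℕ} {s : Fin r → Option (Fin k)} {w : Fin k → N} {z : Fin r → N} {i : Fin r}
    {x : Fin k} (h : s i = some x) : fill s w z i = w x := by
  simp [fill, h]

theorem fill_none {r : ℕ} {s : Fin r → Option (Fin k)} {w : Fin k → N} {z : Fin r → N} {i : Fin r}
    (h : s i = none) : fill s w z i = z i := by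
  simp [fill, h]

theorem comp_fill {r : ℕ} (s : Fin r → Option (Fin k)) (w : Fin k → N) (z : Fin r → N)
    (g : N → N') : g ∘ fill s w z = fill s (g ∘ w) (g ∘ z) := by
  funext i
  simp only [comp_apply]
  rcases h : s i with _ | x
  · rw [fill_none h, fill_none h]; rfl
  · rw [fill_some h, fill_some h]; rfl

/-- the tuple with coordinates belonging to a filled pattern -/
def tup {r : ℕ} (s : Fin r → Option (Fin k)) (z : Fin r → N) : Fin r → Fin k ⊕ N :=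
  fun i => match s i with
  | some x => Sum.inl x
  | none => Sum.inr (z i)

theorem elim_tup {r : ℕ} (s : Fin r → Option (Fin k)) (w : Fin k → N) (z : Fin r → N) :
    Sum.elim w id ∘ tup s z = fill s w z := by
  funext i
  simp only [comp_apply]
  rcases h : s i with _ | x
  · rw [fill_none h]; simp [tup, h]
  · rw [fill_some h]; simp [tup, h]

theorem map_tup {r : ℕ} (s : Fin r → Option (Fin k)) (z : Fin r → N) (g : N → N') :
    Sum.map id g ∘ tup s z = tup s (g ∘ z) := by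
  funext i
  simp only [comp_apply]
  rcases h : s i with _ | x
  · simp [tup, h]
  · simp [tup, h]

theorem exists_defset {M : Str L ℕ} (hM : Stab M n) (𝒰 : Ultrafilter (Fin k → ℕ)) (p : Pat L k) :
    ∃ W : Finset (Fin k → ℕ), ∀ z z' : Fin p.1.1 → ℕ,
      (∀ w ∈ W, (M p.1 (fill p.2 w z) ↔ M p.1 (fill p.2 w z'))) →
      ((∀ᶠ w in (𝒰 : Filter (Fin k → ℕ)), M p.1 (fill p.2 w z)) →
        (∀ᶠ w in (𝒰 : Filter (Fin k → ℕ)), M p.1 (fill p.2 w z'))) := by
  have h := hM (Fin k → ℕ) (Fin p.1.1 → ℕ) p.1 (fun w z => fill p.2 w z) (by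
    intro i
    rcases h : p.2 i with _ | x
    · exact Or.inr ⟨fun z => z i, fun w z => fill_none h⟩
    · exact Or.inl ⟨fun w => w x, fun w z => fill_some h⟩)
  exact def_lemma h 𝒰

/-- the finite set of tuples defining the type of `𝒰` -/
noncomputable def defset {M : Str L ℕ} (hM : Stab M n) (𝒰 : Ultrafilter (Fin k → ℕ))
    (p : Pat L k) : Finset (Fin k → ℕ) := (exists_defset hM 𝒰 p).choose

theorem defset_spec {M : Str L ℕ} (hM : Stab M n) (𝒰 : Ultrafilter (Fin k → ℕ)) (p : Pat L k)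
    (z z' : Fin p.1.1 → ℕ)
    (h : ∀ w ∈ defset hM 𝒰 p, (M p.1 (fill p.2 w z) ↔ M p.1 (fill p.2 w z'))) :
      ((∀ᶠ w in (𝒰 : Filter (Fin k → ℕ)), M p.1 (fill p.2 w z)) →
        (∀ᶠ w in (𝒰 : Filter (Fin k → ℕ)), M p.1 (fill p.2 w z'))) :=
  (exists_defset hM 𝒰 p).choose_spec z z' h

/-- the parameter variables -/
abbrev Var {M : Str L ℕ} (hM : Stab M n) (𝒰 : Ultrafilter (Fin k → ℕ)) : Type :=
  (Σ p : Pat L k, defset hM 𝒰 p) × Fin k

/-- the definition of the type of `𝒰`, evaluated in `A` with parameters `v` -/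
def dd {M : Str L ℕ} (hM : Stab M n) (𝒰 : Ultrafilter (Fin k → ℕ)) (A : Str L N)
    (v : Var hM 𝒰 → N) (p : Pat L k) (z : Fin p.1.1 → N) : Prop :=
  ∃ z0 : Fin p.1.1 → ℕ, (∀ w : defset hM 𝒰 p,
      (A p.1 (fill p.2 (fun x => v (⟨p, w⟩, x)) z) ↔ M p.1 (fill p.2 w.1 z0))) ∧
    ∀ᶠ w in (𝒰 : Filter (Fin k → ℕ)), M p.1 (fill p.2 w z0)

theorem dd_congr {M : Str L ℕ} (hM : Stab M n) (𝒰 : Ultrafilter (Fin k → ℕ)) {A : Str L N}
    {A' : Str L N'} {v : Var hM 𝒰 → N} {v' : Var hM 𝒰 → N'} (p : Pat L k) {z : Fin p.1.1 → N}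
    {z' : Fin p.1.1 → N'}
    (h : ∀ w : defset hM 𝒰 p, (A p.1 (fill p.2 (fun x => v (⟨p, w⟩, x)) z) ↔
      A' p.1 (fill p.2 (fun x => v' (⟨p, w⟩, x)) z'))) :
    dd hM 𝒰 A v p z ↔ dd hM 𝒰 A' v' p z' := by
  unfold dd
  simp only [h]

/-- the standard parameters -/
def std {M : Str L ℕ} (hM : Stab M n) (𝒰 : Ultrafilter (Fin k → ℕ)) (ι : ℕ → N) :
    Var hM 𝒰 → N := fun q => ι (q.1.2.1 q.2)

theorem dd_spec {M : Str L ℕ} (hM : Stab M n) (𝒰 : Ultrafilter (Fin k → ℕ)) {A : Str L N}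
    {ι : ℕ → N} {𝒱 : Ultrafilter (N → ℕ)} (h𝒱 : Retr M A ι 𝒱) (p : Pat L k)
    (z : Fin p.1.1 → N) :
    dd hM 𝒰 A (std hM 𝒰 ι) p z ↔
      ∀ᶠ w in (𝒰 : Filter (Fin k → ℕ)), A p.1 (fill p.2 (ι ∘ w) z) := by
  have h1 : (∀ᶠ w in (𝒰 : Filter (Fin k → ℕ)), A p.1 (fill p.2 (ι ∘ w) z)) ↔
      ∀ᶠ g in (𝒱 : Filter (N → ℕ)), ∀ᶠ w in (𝒰 : Filter (Fin k → ℕ)),
        M p.1 (fill p.2 w (g ∘ z)) := by
    have := coh_eq hM h𝒱 𝒰 p.1 (tup p.2 z)
    rw [ty_push] at this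
    simp only [elim_tup, map_tup] at this
    rw [this]
    refine eventually_congr (Eventually.of_forall fun g => ?_)
    rw [ty_apply]
    simp only [elim_tup]
  have h2 : ∀ᶠ g in (𝒱 : Filter (N → ℕ)), ∀ w : defset hM 𝒰 p,
      (A p.1 (fill p.2 (ι ∘ w.1) z) ↔ M p.1 (fill p.2 w.1 (g ∘ z))) := by
    refine eventually_all.2 fun w => ?_
    have e1 : ∀ᶠ g in (𝒱 : Filter (N → ℕ)), ∀ x, g (ι (w.1 x)) = w.1 x :=
      eventually_all.2 fun x => h𝒱.fix _
    filter_upwards [e1, h𝒱.rel p.1 (fill p.2 (ι ∘ w.1) z)] with g h3 h4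
    rw [h4, comp_fill]
    have : g ∘ ι ∘ w.1 = w.1 := funext h3
    rw [this]
  rw [h1]
  constructor
  · rintro ⟨z0, h3, h4⟩
    filter_upwards [h2] with g hg
    refine defset_spec hM 𝒰 p z0 (g ∘ z) ?_ h4
    intro w hw
    exact (h3 ⟨w, hw⟩).symm.trans (hg ⟨w, hw⟩)
  · intro h
    obtain ⟨g, h3, h4⟩ := (h2.and h).exists
    exact ⟨g ∘ z, h3, h4⟩

/-- there is a tuple freely realizing the defined type -/
def Phi {M : Str L ℕ} (hM : Stab M n) (𝒰 : Ultrafilter (Fin k → ℕ)) (N : Type) (A : Str L N)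
    (v : Var hM 𝒰 → N) : Prop :=
  ∃ w : Fin k → N, (∀ x y, w x = w y → x = y) ∧ ∀ (p : Pat L k) (z : Fin p.1.1 → N),
    (∀ i, p.2 i = none → ∀ x, ¬ w x = z i) → (A p.1 (fill p.2 w z) ↔ dd hM 𝒰 A v p z)

theorem fo_dd [L.IsRelational] {M : Str L ℕ} (hM : Stab M n) (𝒰 : Ultrafilter (Fin k → ℕ))
    (p : Pat L k) : IsFO (Var hM 𝒰 ⊕ Fin p.1.1) (fun _ A v =>
      dd hM 𝒰 A (v ∘ Sum.inl) p (v ∘ Sum.inr)) := by
  classical
  have h1 : IsFO (Var hM 𝒰 ⊕ Fin p.1.1) (fun _ A v => ∃ σ : (defset hM 𝒰 p) → Bool,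
      (∃ z0 : Fin p.1.1 → ℕ, (∀ w : defset hM 𝒰 p, (M p.1 (fill p.2 w.1 z0) ↔ σ w = true)) ∧
        ∀ᶠ w in (𝒰 : Filter (Fin k → ℕ)), M p.1 (fill p.2 w z0)) ∧
      ∀ w : defset hM 𝒰 p, (A p.1 (v ∘ fill p.2 (fun x => (Sum.inl (⟨p, w⟩, x) :
        Var hM 𝒰 ⊕ Fin p.1.1)) Sum.inr) ↔ σ w = true)) := by
    refine IsFO.finex fun σ => ?_
    refine (IsFO.const _).and ?_
    refine IsFO.finall fun w => ?_
    exact (IsFO.rel p.1 _).iff (IsFO.const _)
  refine h1.congr ?_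
  intro N A v
  have h2 : ∀ w : defset hM 𝒰 p, v ∘ fill p.2 (fun x => (Sum.inl (⟨p, w⟩, x) :
        Var hM 𝒰 ⊕ Fin p.1.1)) Sum.inr = fill p.2 (fun x => v (Sum.inl (⟨p, w⟩, x)))
          (v ∘ Sum.inr) := fun w => comp_fill _ _ _ _
  constructor
  · rintro ⟨σ, ⟨z0, h3, h4⟩, h5⟩
    refine ⟨z0, fun w => ?_, h4⟩
    rw [h3 w, ← h5 w, h2]
    rfl
  · rintro ⟨z0, h3, h4⟩
    refine ⟨fun w => decide (M p.1 (fill p.2 w.1 z0)), ⟨z0, fun w => by simp, h4⟩, fun w => ?_⟩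
    rw [h2, decide_eq_true_eq]
    exact h3 w

theorem fo_Phi [L.IsRelational] [Finite (Σ n, L.Relations n)] {M : Str L ℕ} (hM : Stab M n)
    (𝒰 : Ultrafilter (Fin k → ℕ)) : IsFO (Var hM 𝒰) (Phi hM 𝒰) := by
  classical
  unfold Phi
  refine IsFO.ex ?_
  refine IsFO.and ?_ ?_
  · refine IsFO.finall fun x => IsFO.finall fun y => ?_
    exact (IsFO.eq (Sum.inr x) (Sum.inr y)).imp (IsFO.const _)
  · refine IsFO.finall fun p => ?_
    refine IsFO.all (W := Fin p.1.1) (V := Var hM 𝒰 ⊕ Fin k)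
      (Q := fun N A u z => (∀ i, p.2 i = none → ∀ x, ¬ (u ∘ Sum.inr) x = z i) →
        (A p.1 (fill p.2 (u ∘ Sum.inr) z) ↔ dd hM 𝒰 A (u ∘ Sum.inl) p z)) ?_
    refine IsFO.imp ?_ (IsFO.iff ?_ ?_)
    · refine IsFO.finall fun i => ?_
      by_cases hi : p.2 i = none
      · refine IsFO.congr (P := fun N A u => ∀ x : Fin k, ¬ u (Sum.inl (Sum.inr x)) = u (Sum.inr i))
          (IsFO.finall fun x => (IsFO.eq (Sum.inl (Sum.inr x)) (Sum.inr i)).not) ?_
        intro N A u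
        simp [hi]
      · refine IsFO.congr (P := fun N A u => True) (IsFO.const _) ?_
        intro N A u
        simp [hi]
    · refine IsFO.congr (P := fun N A u => A p.1 (u ∘ fill p.2
        (fun x => (Sum.inl (Sum.inr x) : (Var hM 𝒰 ⊕ Fin k) ⊕ Fin p.1.1)) Sum.inr))
        (IsFO.rel p.1 _) ?_
      intro N A u
      rw [comp_fill]
      rfl
    · refine IsFO.congr (IsFO.reindex (fo_dd hM 𝒰 p)
        (Sum.elim (fun x => Sum.inl (Sum.inl x)) Sum.inr :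
          Var hM 𝒰 ⊕ Fin p.1.1 → (Var hM 𝒰 ⊕ Fin k) ⊕ Fin p.1.1)) ?_
      intro N A u
      rfl

/-- with standard parameters `Phi` says that there is an injective free tuple -/
theorem Phi_std {M : Str L ℕ} (hM : Stab M n) (𝒰 : Ultrafilter (Fin k → ℕ)) {A : Str L N}
    {ι : ℕ → N} {𝒱 : Ultrafilter (N → ℕ)} (h𝒱 : Retr M A ι 𝒱) {w : Fin k → N}
    (hw : Injective w) (hf : FreeAt A (push ι 𝒰) w) : Phi hM 𝒰 N A (std hM 𝒰 ι) := by
  refine ⟨w, fun x y h => hw h, fun p z hz => ?_⟩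
  rw [dd_spec hM 𝒰 h𝒱]
  have := hf p.1 (tup p.2 z) (by
    intro i m hi x hx
    rcases h : p.2 i with _ | y
    · simp only [tup, h, Sum.inr.injEq] at hi
      exact hz i h x (hx.trans hi.symm)
    · simp [tup, h] at hi)
  rw [elim_tup, ty_push] at this
  simp only [elim_tup] at this
  exact this

/-- converse -/
theorem freeAt_of {A : Str L N} {𝒰 : Ultrafilter (Fin k → N)} {w : Fin k → N}
    (h : ∀ (p : Pat L k) (z : Fin p.1.1 → N), (∀ i, p.2 i = none → ∀ x, ¬ w x = z i) →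
      (A p.1 (fill p.2 w z) ↔ ∀ᶠ v in (𝒰 : Filter (Fin k → N)), A p.1 (fill p.2 v z))) :
    FreeAt A 𝒰 w := by
  classical
  intro R t ht
  by_cases hk : Nonempty N
  · obtain ⟨n0⟩ := hk
    let s : Fin R.1 → Option (Fin k) := fun i => Sum.elim some (fun _ => none) (t i)
    let z : Fin R.1 → N := fun i => Sum.elim (fun _ => n0) id (t i)
    have hts : t = tup s z := by
      funext i
      rcases h : t i with x | m
      · simp [tup, s, h]
      · simp [tup, s, z, h]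
    rw [hts, elim_tup, ty_apply]
    simp only [elim_tup]
    refine h ⟨R, s⟩ z ?_
    intro i hi x hx
    simp only [s] at hi
    rcases hti : t i with y | m
    · rw [hti] at hi; simp at hi
    · refine ht i m hti x ?_
      rw [hx]
      simp [z, hti]
  · rw [not_nonempty_iff] at hk
    have hk0 : IsEmpty (Fin k) := ⟨fun x => hk.false (w x)⟩
    have : ∀ v : Fin k → N, v = w := fun v => funext fun x => (hk0.false x).elim
    rw [ty_apply]
    simp only [this, eventually_const]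

end Run7.h46.S
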