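import Pool.Agent.Run7.h46.S.Coh

/-! Split sets and connected sets. -/

namespace Run7.h46.S

open Filter Function Run7.h46 FirstOrder FirstOrder.Language

variable {L : FirstOrder.Language.{0, 0}} {N N' T T' X : Type} {A : Str L N}
  {𝒰 : Ultrafilter (T → N)} {C C₁ C₂ D D' F : Set T}

theorem ext_mixU {𝒰 𝒱 : Ultrafilter (T → N)}
    (h : ∀ P : (T → N) → Prop, (∀ᶠ w in (𝒰 : Filter (T → N)), P w) ↔
      ∀ᶠ w in (𝒱 : Filter (T → N)), P w) : 𝒰 = 𝒱 := by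
  apply Ultrafilter.coe_injective
  ext s
  exact h (fun w => w ∈ s)

theorem split_congr (h : ∀ x ∈ D, (x ∈ C₁ ↔ x ∈ C₂)) (h1 : SplitOn A 𝒰 D C₁) :
    SplitOn A 𝒰 D C₂ := by
  intro R t ht
  rw [h1 R t ht, ty_mixU, ty_mixU]
  refine eventually_congr (Eventually.of_forall fun w =>
    eventually_congr (Eventually.of_forall fun v => ?_))
  have : Sum.elim (mix C₁ w v) id ∘ t = Sum.elim (mix C₂ w v) id ∘ t := by
    funext k
    simp only [comp_apply]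
    rcases hk : t k with x | m
    · have := h x (ht k x hk)
      by_cases hx : x ∈ C₁
      · have hx' := this.1 hx
        simp [mix, hx, hx']
      · have hx' : x ∉ C₂ := fun h => hx (this.2 h)
        simp [mix, hx, hx']
    · simp
  rw [this]

theorem split_empty : SplitOn A 𝒰 D ∅ := by
  intro R t ht
  rw [ty_mixU]
  have : ∀ w : T → N, mix (∅ : Set T) w = id := by
    intro w
    funext v x
    simp [mix]
  simp only [this, id]
  simp [ty_apply]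

theorem split_self : SplitOn A 𝒰 D D := by
  refine split_congr (C₁ := Set.univ) (fun x hx => by simp [hx]) ?_
  intro R t ht
  rw [ty_mixU]
  have : ∀ w v : T → N, mix (Set.univ : Set T) w v = w := by
    intro w v
    funext x
    simp [mix]
  simp only [this]
  simp [ty_apply]

theorem split_mono (h : D' ⊆ D) (h1 : SplitOn A 𝒰 D C) : SplitOn A 𝒰 D' C := AgreeOn.mono h1 h

variable {n : ℕ}

theorem split_compl (hA : Stab A n) (h1 : SplitOn A 𝒰 D C) : SplitOn A 𝒰 D Cᶜ := by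
  intro R t ht
  rw [h1 R t ht, mixU_symm hA]

theorem split_inter (hA : Stab A n) (h1 : SplitOn A 𝒰 D C₁) (h2 : SplitOn A 𝒰 D C₂) :
    SplitOn A 𝒰 D (C₁ ∩ C₂) := by
  have e1 : AgreeOn A D 𝒰 (mixU C₁ (mixU C₂ 𝒰 𝒰) 𝒰) :=
    AgreeOn.trans h1 (congL hA (AgreeOn.mono h2 Set.inter_subset_left))
  have e2 : AgreeOn A D (mixU (C₁ ∩ C₂) 𝒰 𝒰) (mixU (C₁ ∩ C₂) 𝒰 (mixU C₁ 𝒰 𝒰)) :=
    congR (AgreeOn.mono h1 Set.diff_subset)
  have e3 : mixU C₁ (mixU C₂ 𝒰 𝒰) 𝒰 = mixU (C₁ ∩ C₂) 𝒰 (mixU C₁ 𝒰 𝒰) := by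
    apply ext_mixU
    intro P
    change (∀ᶠ w in (𝒰 : Filter (T → N)), ∀ᶠ v in (𝒰 : Filter (T → N)),
      ∀ᶠ u in (𝒰 : Filter (T → N)), P (mix C₁ (mix C₂ w v) u)) ↔
      (∀ᶠ w in (𝒰 : Filter (T → N)), ∀ᶠ v in (𝒰 : Filter (T → N)),
      ∀ᶠ u in (𝒰 : Filter (T → N)), P (mix (C₁ ∩ C₂) w (mix C₁ v u)))
    have : ∀ w v u : T → N, mix C₁ (mix C₂ w v) u = mix (C₁ ∩ C₂) w (mix C₁ v u) := by
      intro w v u
      funext x
      by_cases hx : x ∈ C₁ <;> by_cases hx' : x ∈ C₂ <;> simp [mix, hx, hx']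
    simp only [this]
  rw [e3] at e1
  exact e1.trans e2.symm

theorem split_union (hA : Stab A n) (h1 : SplitOn A 𝒰 D C₁) (h2 : SplitOn A 𝒰 D C₂) :
    SplitOn A 𝒰 D (C₁ ∪ C₂) := by
  have := split_compl hA (split_inter hA (split_compl hA h1) (split_compl hA h2))
  rw [Set.compl_inter, compl_compl, compl_compl] at this
  exact this

theorem split_trans (hA : Stab A n) {C₀ : Set T} (hC : C ⊆ C₀) (h1 : SplitOn A 𝒰 D C₀)
    (h2 : SplitOn A 𝒰 (D ∩ C₀) C) : SplitOn A 𝒰 D C := by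
  have e1 : AgreeOn A D 𝒰 (mixU C₀ (mixU C 𝒰 𝒰) 𝒰) := AgreeOn.trans h1 (congL hA h2)
  have e2 : AgreeOn A D (mixU C 𝒰 𝒰) (mixU C 𝒰 (mixU C₀ 𝒰 𝒰)) :=
    congR (AgreeOn.mono h1 Set.diff_subset)
  have e3 : mixU C₀ (mixU C 𝒰 𝒰) 𝒰 = mixU C 𝒰 (mixU C₀ 𝒰 𝒰) := by
    apply ext_mixU
    intro P
    change (∀ᶠ w in (𝒰 : Filter (T → N)), ∀ᶠ v in (𝒰 : Filter (T → N)),
      ∀ᶠ u in (𝒰 : Filter (T → N)), P (mix C₀ (mix C w v) u)) ↔
      (∀ᶠ w in (𝒰 : Filter (T → N)), ∀ᶠ v in (𝒰 : Filter (T → N)),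
      ∀ᶠ u in (𝒰 : Filter (T → N)), P (mix C w (mix C₀ v u)))
    have : ∀ w v u : T → N, mix C₀ (mix C w v) u = mix C w (mix C₀ v u) := by
      intro w v u
      funext x
      by_cases hx : x ∈ C
      · have hx' := hC hx
        simp [mix, hx, hx']
      · by_cases hx' : x ∈ C₀ <;> simp [mix, hx, hx']
    simp only [this]
  rw [e3] at e1
  exact e1.trans e2.symm

theorem conn_singleton (x : T) : ConnOn A 𝒰 {x} := by
  intro C hC _
  exact Set.subset_singleton_iff_eq.1 hC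

/-- the component of a connected set -/
theorem exists_comp [Finite T] (hA : Stab A n) (hD : D ⊆ F) (hc : ConnOn A 𝒰 D) :
    ∃ C₀, D ⊆ C₀ ∧ C₀ ⊆ F ∧ SplitOn A 𝒰 F C₀ ∧ ConnOn A 𝒰 C₀ := by
  classical
  obtain ⟨C₀, ⟨h1, h2, h3⟩, hmin⟩ := WellFounded.has_min
    (wellFounded_lt : WellFounded ((· < ·) : Set T → Set T → Prop))
    {C | D ⊆ C ∧ C ⊆ F ∧ SplitOn A 𝒰 F C} ⟨F, hD, subset_rfl, split_self⟩
  refine ⟨C₀, h1, h2, h3, ?_⟩
  intro C hC hs
  have hFC : SplitOn A 𝒰 F C := split_trans hA hC h3 (by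
    rw [Set.inter_eq_self_of_subset_right h2]; exact hs)
  have hmin' : ∀ C', D ⊆ C' → C' ⊆ C₀ → SplitOn A 𝒰 F C' → C' = C₀ := by
    intro C' h4 h5 h6
    by_contra hne
    exact hmin C' ⟨h4, h5.trans h2, h6⟩ (lt_of_le_of_ne h5 hne)
  have h7 := hc (C ∩ D) Set.inter_subset_right
    (split_congr (C₁ := C) (fun x hx => by simp [hx]) (split_mono h1 hs))
  rcases h7 with h7 | h7
  · left
    have h8 := hmin' (C₀ ∩ Cᶜ) (fun x hx => ⟨h1 hx, fun hxC => by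
      have : x ∈ C ∩ D := ⟨hxC, hx⟩
      rw [h7] at this; exact this⟩) Set.inter_subset_left (split_inter hA h3 (split_compl hA hFC))
    rw [Set.eq_empty_iff_forall_notMem]
    intro x hx
    have : x ∈ C₀ ∩ Cᶜ := by rw [h8]; exact hC hx
    exact this.2 hx
  · right
    exact hmin' C (fun x hx => by
      have : x ∈ C ∩ D := by rw [h7]; exact hx
      exact this.1) hC hFC

/-- Large connected sets contain large proper connected sets. -/
theorem shrink [Finite T] (hA : Stab A n) {r : ℕ} (hr : ∀ R : (Σ n, L.Relations n), R.1 ≤ r)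
    (hD : ConnOn A 𝒰 D) (hcard : 2 ≤ D.ncard) :
    ∃ D' ⊆ D, D'.Nonempty ∧ D' ≠ D ∧ ConnOn A 𝒰 D' ∧ ¬ SplitOn A 𝒰 D D' ∧
      D.ncard ≤ D'.ncard + r := by
  classical
  have hDfin : D.Finite := Set.toFinite D
  obtain ⟨x0, hx0⟩ : D.Nonempty := by
    rw [Set.nonempty_iff_ne_empty]
    rintro rfl
    simp at hcard
  have hne0 : ({x0} : Set T) ≠ D := by
    rintro h
    rw [← h] at hcard
    simp at hcard
  obtain ⟨D', ⟨h1, h2, h3, h4⟩, hmax⟩ := WellFounded.has_min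
    (wellFounded_gt : WellFounded ((· > ·) : Set T → Set T → Prop))
    {C | C ⊆ D ∧ C.Nonempty ∧ C ≠ D ∧ ConnOn A 𝒰 C}
    ⟨{x0}, Set.singleton_subset_iff.2 hx0, Set.singleton_nonempty _, hne0, conn_singleton x0⟩
  have hns : ¬ SplitOn A 𝒰 D D' := by
    intro h
    rcases hD D' h1 h with h | h
    · rw [h] at h2; exact Set.not_nonempty_empty h2
    · exact h3 h
  refine ⟨D', h1, h2, h3, h4, hns, ?_⟩
  have hns' := hns
  unfold SplitOn AgreeOn at hns'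
  push Not at hns'
  obtain ⟨R, t, ht, hne⟩ := hns'
  let E : Set T := {x | ∃ k, t k = Sum.inl x}
  have hE : E.ncard ≤ r := by
    have : E ⊆ (fun k : Fin R.1 => Sum.elim id (fun _ => x0) (t k)) '' Set.univ := by
      rintro x ⟨k, hk⟩
      exact ⟨k, Set.mem_univ _, by simp [hk]⟩
    refine (Set.ncard_le_ncard this (Set.toFinite _)).trans ?_
    refine (Set.ncard_image_le (Set.toFinite _)).trans ?_
    rw [Set.ncard_univ, Nat.card_eq_fintype_card, Fintype.card_fin]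
    exact hr R
  have hF : D' ∪ (D ∩ E) ⊆ D := Set.union_subset h1 Set.inter_subset_left
  have hnsF : ¬ SplitOn A 𝒰 (D' ∪ (D ∩ E)) D' := by
    intro h
    have h9 := h R t (fun k x hk => Or.inr ⟨ht k x hk, k, hk⟩)
    rcases hne with ⟨ha, hb⟩ | ⟨ha, hb⟩
    · exact hb (h9.1 ha)
    · exact ha (h9.2 hb)
  obtain ⟨C₀, h5, h6, h7, h8⟩ := exists_comp hA (Set.subset_union_left (t := D ∩ E)) h4
  have hC₀ : C₀ = D := by
    by_contra hne'
    have hlt : D' < C₀ := lt_of_le_of_ne h5 (fun h => hnsF (h ▸ h7))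
    exact hmax C₀ ⟨h6.trans hF, h2.mono h5, hne', h8⟩ hlt
  rw [hC₀] at h6
  calc D.ncard ≤ (D' ∪ (D ∩ E)).ncard := Set.ncard_le_ncard h6 (Set.toFinite _)
    _ ≤ D'.ncard + (D ∩ E).ncard := Set.ncard_union_le _ _
    _ ≤ D'.ncard + E.ncard :=
      Nat.add_le_add_left (Set.ncard_le_ncard Set.inter_subset_right (Set.toFinite _)) _
    _ ≤ D'.ncard + r := Nat.add_le_add_left hE _

end Run7.h46.S
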