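import Pool.Agent.Run7.h46.S.GFam
import Pool.Agent.Run7.h46.S.P10
import Pool.Agent.Run7.h46.S.P11

/-! Coding data from infinite type spaces and from large connected types. -/

namespace Run7.h46.S

open Filter Function Run7.h46 FirstOrder FirstOrder.Language

variable {L : FirstOrder.Language.{0, 0}} {N N' T T' X Y : Type} {n : ℕ}

theorem clo_Ty (T : Type) (A : Str L N) : Clo (Ty T A) := by
  classical
  intro ℱ hℱ
  obtain ⟨p0, hp0⟩ := hℱ.exists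
  obtain ⟨𝒰0, -, -⟩ := hp0
  let u : Str L (T ⊕ N) → Ultrafilter (T → N) := fun p =>
    if h : p ∈ Ty T A then h.choose else 𝒰0
  have hu : ∀ p ∈ Ty T A, Fr (u p) ∧ ty A (u p) = p := by
    intro p hp
    simp only [u, dif_pos hp]
    exact hp.choose_spec
  refine ⟨ℱ.bind u, fr_bind ℱ u (hℱ.mono fun p hp => (hu p hp).1), ?_⟩
  funext R t
  rw [eq_iff_iff, ty_bind]
  change _ ↔ ∀ᶠ p in (ℱ : Filter (Str L (T ⊕ N))), p R t
  refine eventually_congr (hℱ.mono fun p hp => ?_)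
  rw [(hu p hp).2]

theorem sys_Ty (B M₀ : Str L ℕ) (T : Type) : Sys B M₀ T (fun A => Ty T A) where
  sub := fun _ _ => subset_rfl
  clo := fun A _ => clo_Ty T A
  fct := fun _ _ _ _ _ hι _ _ _ _ hqq => hqq.mem hι

theorem exists_arity [Finite L.Symbols] :
    ∃ r : ℕ, ∀ R : (Σ n, L.Relations n), R.1 ≤ r := by
  have hfin : Finite (Σ n, L.Relations n) :=
    Finite.of_injective (fun R : (Σ n, L.Relations n) => (Sum.inr R : L.Symbols))
      (fun a b h => Sum.inr_injective h)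
  obtain ⟨r, hr⟩ := (Set.finite_range (fun R : (Σ n, L.Relations n) => R.1)).bddAbove
  exact ⟨r, fun R => hr ⟨R, rfl⟩⟩

/-- all type spaces finite and large connected types -/
theorem codeData_of_large (h2 : StP2) (h3 : StP3) [Finite L.Symbols] {B : Str L ℕ}
    (hB : Stable B n) (hfin : ∀ A, EC B A → ∀ k, (Ty (Fin k) A).Finite)
    (hlarge : ∀ b : ℕ, ∃ (A : Str L ℕ) (_ : EC B A) (k : ℕ) (_ : b ≤ k)
      (𝒰 : Ultrafilter (Fin k → ℕ)), Fr 𝒰 ∧ ConnOn A 𝒰 Set.univ) : CodeData B := by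
  intro b
  obtain ⟨r, hr⟩ := exists_arity (L := L)
  obtain ⟨A, hA, k, hk, 𝒰, hU, hc⟩ := hlarge (b + r + 2)
  obtain ⟨ρ, M₁, h4, h5, h6, h7⟩ := exists_CF h2 h3 hB hA (sys_Ty B A (Fin k))
    ⟨A, Up.refl hA, ty A 𝒰, 𝒰, hU, rfl⟩
  have hρ : ρ = 0 := by
    by_contra hρ
    obtain ⟨j, rfl⟩ := Nat.exists_eq_succ_of_ne_zero hρ
    have h8 : (derN j (Ty (Fin k) M₁)).Finite :=
      (hfin M₁ h4.1 k).subset (derN_anti (clo_Ty _ M₁) (Nat.zero_le j))
    have h9 : derN (j + 1) (Ty (Fin k) M₁) = ∅ := der_finite h8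
    rw [h9] at h6
    exact Set.not_nonempty_empty h6
  subst hρ
  obtain ⟨ι, hι, hp⟩ := h4.2
  have h8 : ConnOn M₁ (push ι 𝒰) Set.univ := connOn_push_of hp hc
  obtain ⟨a, ha, hne⟩ := GFam_of_conn (F := fun A => derN 0 (Ty (Fin k) A)) hB h4.1 hr
    (hU.push hι) ⟨push ι 𝒰, hU.push hι, rfl⟩ h8 (b := b) (by
      rw [Set.ncard_univ, Nat.card_eq_fintype_card, Fintype.card_fin]
      exact hk)
  exact ⟨a, ha, Fin k, inferInstance, M₁, _, M₁, h7, Up.refl h4.1, hne⟩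

theorem pt_map {m k r : ℕ} (s : Fin r → (Fin m ⊕ Y) ⊕ Unit) (j : Fin k) (z : Fin r → N)
    (ι : N → N') : pt s j (ι ∘ z) = Sum.map id ι ∘ pt s j z := by
  funext i
  simp only [comp_apply, pt]
  rcases s i with (a | y) | u <;> simp

theorem ps_map {m r : ℕ} {W : Type} (s : Fin r → (Fin m ⊕ Y) ⊕ Unit) (w : Fin m ⊕ W → N)
    (z : Fin r → N) (ι : N → N') : ps s (ι ∘ w) (ι ∘ z) = Sum.map id ι ∘ ps s w z := by
  funext i
  simp only [comp_apply, ps]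
  rcases s i with (a | y) | u <;> simp

theorem star_fct {B M₁ : Str L ℕ} (hB : Stable B n) {QY : Str L ℕ → Set (Str L (Y ⊕ ℕ))}
    (hQ : CF B M₁ Y QY) {k m : ℕ} {R : Σ n, L.Relations n} {s : Fin R.1 → (Fin m ⊕ Y) ⊕ Unit}
    (A A' : Str L ℕ) (ι : ℕ → ℕ) (hA : Up B M₁ A) (hA' : EC B A') (hι : Injective ι)
    (hp : A'.pull ι = A) :
    ∀ q ∈ StarZ QY k m R s A, ∀ q', Ext A A' ι q q' → q' ∈ StarZ QY k m R s A' := by
  obtain ⟨𝒱, h𝒱⟩ := hA.1.ret _ A' ι hι hA'.emb hp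
  have hst : Stab A n := hB.stab hA.1.emb
  rintro q ⟨𝒰, hU, hty, p, hpQ, hleaf, z, hz⟩ q' hqq
  have h1 : q' = ty A' (push ι 𝒰) := Ext.unique hst h𝒱 ⟨𝒰, hU, hty, rfl⟩ hqq
  obtain ⟨𝒬, hP, hPp⟩ := hQ.sub A hA hpQ
  refine ⟨push ι 𝒰, hU.push hι, h1.symm, ty A' (push ι 𝒬), ?_, ?_, ι ∘ z, ?_⟩
  · exact hQ.fct A A' ι hA hA' hι hp p hpQ _ ⟨𝒬, hP, hPp, rfl⟩
  · intro j
    rw [← push_rel]
    exact coh hst h𝒱 ((hleaf j).trans hPp.symm)
  · intro j h
    apply hz j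
    rw [pt_map, ty_push_map hp] at h
    rw [h]
    change (∀ᶠ w in (𝒰 : Filter (Fin m ⊕ (Fin k × Y) → ℕ)),
      ty A' (push ι 𝒬) R (ps s (ι ∘ w) (ι ∘ z))) ↔ _
    refine eventually_congr (Eventually.of_forall fun w => ?_)
    rw [ps_map, ty_push_map hp, hPp]

theorem star_mono {QY : Str L ℕ → Set (Str L (Y ⊕ ℕ))} {k m : ℕ} {R : Σ n, L.Relations n}
    {s : Fin R.1 → (Fin m ⊕ Y) ⊕ Unit} {A : Str L ℕ} (h : (StarZ QY (k + 1) m R s A).Nonempty) :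
    (StarZ QY k m R s A).Nonempty := by
  obtain ⟨q, 𝒰, hU, hty, p, hpQ, hleaf, z, hz⟩ := h
  let f : Fin m ⊕ (Fin k × Y) → Fin m ⊕ (Fin (k + 1) × Y) :=
    Sum.map id (Prod.map Fin.castSucc id)
  have hf : Injective f := Sum.map_injective.2 ⟨injective_id,
    (Fin.castSucc_injective k).prodMap injective_id⟩
  refine ⟨_, rel f 𝒰, hU.rel hf, rfl, p, hpQ, ?_, z, ?_⟩
  · intro j
    rw [← hleaf j.castSucc]
    rfl
  · intro j h
    apply hz j.castSucc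
    rw [ty_rel] at h
    have h1 : Sum.map f id ∘ pt s j z = pt s j.castSucc z := by
      funext i
      simp only [comp_apply, pt]
      rcases s i with (a | y) | u <;> simp [f]
    rw [h1] at h
    rw [h]
    change (∀ᶠ w in (𝒰 : Filter (Fin m ⊕ (Fin (k + 1) × Y) → ℕ)), p R (ps s (w ∘ f) z)) ↔ _
    refine eventually_congr (Eventually.of_forall fun w => ?_)
    have h2 : ps s (w ∘ f) z = ps s w z := by
      funext i
      simp only [ps]
      rcases s i with (a | y) | u <;> simp [f]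
    rw [h2]

theorem star_mono_le {QY : Str L ℕ → Set (Str L (Y ⊕ ℕ))} {k k' m : ℕ} {R : Σ n, L.Relations n}
    {s : Fin R.1 → (Fin m ⊕ Y) ⊕ Unit} {A : Str L ℕ} (hk : k ≤ k')
    (h : (StarZ QY k' m R s A).Nonempty) : (StarZ QY k m R s A).Nonempty := by
  induction k', hk using Nat.le_induction with
  | base => exact h
  | succ k' _ ih => exact ih (star_mono h)

/-- an infinite type space gives coding data -/
theorem codeData_of_infinite (h2 : StP2) (h3 : StP3) (h6 : StP6) (h9 : StP9)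
    [Finite L.Symbols] {B : Str L ℕ} (hB : Stable B n) {A₀ : Str L ℕ} (hA₀ : EC B A₀) {k₀ : ℕ}
    (hinf : (Ty (Fin k₀) A₀).Infinite) : CodeData B := by
  classical
  have hfinR : Finite (Σ n, L.Relations n) :=
    Finite.of_injective (fun R : (Σ n, L.Relations n) => (Sum.inr R : L.Symbols))
      (fun a b h => Sum.inr_injective h)
  obtain ⟨r, hr⟩ := exists_arity (L := L)
  -- leaves
  obtain ⟨ρ, M₁, hM₁, hρ1, hne1, hCF1⟩ := exists_CF h2 h3 hB hA₀ (sys_Ty B A₀ (Fin k₀))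
    ⟨A₀, Up.refl hA₀, hinf.nonempty⟩
  let QY : Str L ℕ → Set (Str L (Fin k₀ ⊕ ℕ)) := fun A => derN ρ (Ty (Fin k₀) A)
  have hρ : ρ ≠ 0 := by
    rintro rfl
    have h := hρ1 A₀ (Up.refl hA₀)
    have h' := der_nonempty hinf
    change derN 1 (Ty (Fin k₀) A₀) = ∅ at h
    rw [show Der (Ty (Fin k₀) A₀) = derN 1 (Ty (Fin k₀) A₀) from rfl, h] at h'
    exact Set.not_nonempty_empty h'
  obtain ⟨j, rfl⟩ := Nat.exists_eq_succ_of_ne_zero hρ
  obtain ⟨p, hp⟩ := hne1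
  have hpD : p ∈ Der (Ty (Fin k₀) M₁) :=
    der_mono (derN_anti (clo_Ty _ M₁) (Nat.zero_le j)) hp
  obtain ⟨m₁, R₁, s₁, hs₁, hne⟩ := main_P10 h6 L M₁ n (hB.stab hM₁.1.emb) (Fin k₀) QY p hp hpD
  -- patterns
  let good : ℕ → Prop := fun m => ∃ (R : Σ n, L.Relations n) (s : Fin R.1 → (Fin m ⊕ Fin k₀) ⊕ Unit),
    (∀ a, ∃ i, s i = Sum.inl (Sum.inl a)) ∧
      ∀ k, ∃ A, Up B M₁ A ∧ (StarZ QY k m R s A).Nonempty
  have hsurj : ∀ (m : ℕ) (R : Σ n, L.Relations n) (s : Fin R.1 → (Fin m ⊕ Fin k₀) ⊕ Unit),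
      (∀ a, ∃ i, s i = Sum.inl (Sum.inl a)) → m ≤ r := by
    intro m R s hs
    choose g hg using hs
    have hinj : Injective g := by
      intro a b hab
      have := (hg a).symm.trans ((congrArg s hab).trans (hg b))
      simpa using this
    have := Fintype.card_le_of_injective g hinj
    rw [Fintype.card_fin, Fintype.card_fin] at this
    exact this.trans (hr R)
  have hgood1 : good m₁ := ⟨R₁, s₁, hs₁, fun k => ⟨M₁, Up.refl hM₁.1, hne k⟩⟩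
  have hgoodr : ∀ m, good m → m ≤ r := fun m ⟨R, s, hs, _⟩ => hsurj m R s hs
  let m := Nat.findGreatest good r
  have hm : good m := Nat.findGreatest_spec (hgoodr _ hgood1) hgood1
  have hmax : ∀ m', m < m' → ¬ good m' := by
    intro m' hm' hg
    have := Nat.le_findGreatest (hgoodr _ hg) hg
    omega
  obtain ⟨R, s, hs, hstar⟩ := hm
  -- uniform bound for larger centres
  let PT := Σ (m' : Fin (r + 1)) (R' : Σ n, L.Relations n),
    (Fin R'.1 → (Fin m' ⊕ Fin k₀) ⊕ Unit)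
  have hbd : ∀ P : PT, ∃ k : ℕ, m < P.1 → (∀ a, ∃ i, P.2.2 i = Sum.inl (Sum.inl a)) →
      ∀ A, Up B M₁ A → StarZ QY k P.1 P.2.1 P.2.2 A = ∅ := by
    rintro ⟨m', R', s'⟩
    by_cases hc : m < m' ∧ ∀ a, ∃ i, s' i = Sum.inl (Sum.inl a)
    · have := hmax _ hc.1
      simp only [good] at this
      push Not at this
      obtain ⟨k, hk⟩ := this R' s' hc.2
      exact ⟨k, fun _ _ A hA => hk A hA⟩
    · exact ⟨0, fun h1 h2 => absurd ⟨h1, h2⟩ hc⟩
  choose kb hkb using hbd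
  obtain ⟨K₀, hK₀⟩ := (Set.finite_range kb).bddAbove
  intro b
  -- number of leaves
  let k : ℕ := K₀ + r * (b + r + 2) + 1
  have hempty : ∀ A, Up B M₁ A → ∀ (m' : ℕ) (R' : Σ n, L.Relations n)
      (s' : Fin R'.1 → (Fin m' ⊕ Fin k₀) ⊕ Unit), m < m' →
      (∀ a, ∃ i, s' i = Sum.inl (Sum.inl a)) → StarZ QY k m' R' s' A = ∅ := by
    intro A hA m' R' s' hm' hs'
    by_contra hne'
    have hm'r : m' < r + 1 := Nat.lt_succ_of_le (hsurj m' R' s' hs')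
    have h1 := hkb ⟨⟨m', hm'r⟩, R', s'⟩ hm' hs' A hA
    have h2 : kb ⟨⟨m', hm'r⟩, R', s'⟩ ≤ k := (hK₀ ⟨_, rfl⟩).trans (by omega)
    have h3 := star_mono_le h2 (Set.nonempty_iff_ne_empty.2 hne')
    simp only at h1
    rw [h1] at h3
    exact Set.not_nonempty_empty h3
  have hsys : Sys B M₁ (Fin m ⊕ (Fin k × Fin k₀)) (StarZ QY k m R s) := by
    refine ⟨?_, ?_, ?_⟩
    · rintro A hA q ⟨𝒰, hU, hty, -⟩
      exact ⟨𝒰, hU, hty⟩
    · intro A hA
      exact h9 L A n (hB.stab hA.1.emb) (Fin k₀) QY (hCF1.fin A hA) (hCF1.sub A hA) k m R s hs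
        (hempty A hA)
    · intro A A' ι hA hA' hι hp
      exact star_fct hB hCF1 A A' ι hA hA' hι hp
  obtain ⟨ρ', M₂, hM₂, -, ⟨q, hq⟩, hCF2⟩ := exists_CF h2 h3 hB hM₁.1 hsys (hstar k)
  have hqS : q ∈ StarZ QY k m R s M₂ := derN_anti (hsys.clo M₂ hM₂) (Nat.zero_le ρ') hq
  obtain ⟨𝒰, hU, hty⟩ := hsys.sub M₂ hM₂ hqS
  obtain ⟨D, hD1, hD2⟩ := main_P11 L M₂ n (hB.stab hM₂.1.emb) (Fin k₀) QY k m R s 𝒰
    (by rw [hty]; exact hqS)
  have hDcard : b + r + 2 ≤ D.ncard := by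
    by_contra hlt
    push Not at hlt
    have h1 : m * D.ncard ≤ r * (b + r + 2) :=
      Nat.mul_le_mul (hsurj m R s hs) hlt.le
    have : k ≤ r * (b + r + 2) := hD2.trans h1
    simp only [k] at this
    omega
  obtain ⟨a, ha, hne3⟩ := GFam_of_conn (F := fun A => derN ρ' (StarZ QY k m R s A)) hB hM₂.1 hr
    hU (by rw [hty]; exact hq) hD1 hDcard
  exact ⟨a, ha, Fin m ⊕ (Fin k × Fin k₀), inferInstance, M₂, _, M₂, hCF2, Up.refl hM₂.1, hne3⟩

end Run7.h46.S
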