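import Pool.Agent.Run7.h46.Basic

/-! Stable relations and double limits. -/

namespace Run7.h46.S

open Filter Function Run7.h46

/-- no half graph of length `n` -/
def NoHG {X Y : Type*} (n : ℕ) (ρ : X → Y → Prop) : Prop :=
  ¬ ∃ (a : Fin n → X) (b : Fin n → Y), ∀ i j, (ρ (a i) (b j) ↔ i < j)

theorem NoHG.symm {X Y : Type*} {n : ℕ} {ρ : X → Y → Prop} (h : NoHG n ρ) :
    NoHG n (fun y x => ρ x y) := by
  rintro ⟨a, b, hab⟩
  refine h ⟨fun i => b i.rev, fun i => a i.rev, fun i j => ?_⟩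
  exact (hab j.rev i.rev).trans Fin.rev_lt_rev

theorem NoHG.lim {X Y Z : Type*} {n : ℕ} {ρ : Z → X → Y → Prop} (h : ∀ z, NoHG n (ρ z))
    (𝒱 : Ultrafilter Z) : NoHG n (fun x y => ∀ᶠ z in (𝒱 : Filter Z), ρ z x y) := by
  rintro ⟨a, b, hab⟩
  have h1 : ∀ᶠ z in (𝒱 : Filter Z), ∀ i j, (ρ z (a i) (b j) ↔ i < j) := by
    refine eventually_all.2 fun i => eventually_all.2 fun j => ?_
    by_cases hij : i < j
    · exact ((hab i j).2 hij).mono fun z hz => ⟨fun _ => hij, fun _ => hz⟩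
    · have : ∀ᶠ z in (𝒱 : Filter Z), ¬ ρ z (a i) (b j) :=
        Ultrafilter.eventually_not.2 fun h1 => hij ((hab i j).1 h1)
      exact this.mono fun z hz => ⟨fun h1 => absurd h1 hz, fun h1 => absurd h1 hij⟩
  obtain ⟨z, hz⟩ := h1.exists
  exact h z ⟨a, b, hz⟩

private theorem DL_aux {X Y : Type*} {n : ℕ} {ρ : X → Y → Prop} (h : NoHG n ρ)
    (𝒰 : Ultrafilter X) (𝒱 : Ultrafilter Y)
    (h1 : ∀ᶠ x in (𝒰 : Filter X), ∀ᶠ y in (𝒱 : Filter Y), ρ x y) :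
    ∀ᶠ y in (𝒱 : Filter Y), ∀ᶠ x in (𝒰 : Filter X), ρ x y := by
  by_contra h2
  rw [← Ultrafilter.eventually_not] at h2
  have h3 : ∀ᶠ y in (𝒱 : Filter Y), ∀ᶠ x in (𝒰 : Filter X), ¬ ρ x y := by
    filter_upwards [h2] with y hy
    exact Ultrafilter.eventually_not.2 hy
  obtain ⟨f, hf, hf'⟩ := exists_seq_of_forall_finset_exists
    (fun p : X × Y => (∀ᶠ y in (𝒱 : Filter Y), ρ p.1 y) ∧ (∀ᶠ x in (𝒰 : Filter X), ¬ ρ x p.2) ∧
      ¬ ρ p.1 p.2) (fun p q => ρ p.1 q.2 ∧ ¬ ρ q.1 p.2) (by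
      intro s hs
      have e1 : ∀ᶠ y in (𝒱 : Filter Y), ∀ p ∈ s, ρ p.1 y :=
        (Filter.eventually_all_finset s).2 fun p hp => (hs p hp).1
      obtain ⟨y, hy1, hy2⟩ := (e1.and h3).exists
      have e2 : ∀ᶠ x in (𝒰 : Filter X), ∀ p ∈ s, ¬ ρ x p.2 :=
        (Filter.eventually_all_finset s).2 fun p hp => (hs p hp).2.1
      obtain ⟨x, hx1, hx2, hx3⟩ := (e2.and (hy2.and h1)).exists
      exact ⟨(x, y), ⟨hx3, hy2, hx2⟩, fun p hp => ⟨hy1 p hp, hx1 p hp⟩⟩)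
  refine h ⟨fun i => (f i).1, fun i => (f i).2, fun i j => ?_⟩
  rcases lt_trichotomy i j with hij | hij | hij
  · exact ⟨fun _ => hij, fun _ => (hf' i j hij).1⟩
  · subst hij
    exact ⟨fun h4 => absurd h4 (hf i).2.2, fun h4 => absurd h4 (lt_irrefl _)⟩
  · exact ⟨fun h4 => absurd h4 (hf' j i hij).2, fun h4 => absurd h4 (not_lt.2 hij.le)⟩

/-- Double limits of a stable relation commute. -/
theorem DL {X Y : Type*} {n : ℕ} {ρ : X → Y → Prop} (h : NoHG n ρ)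
    (𝒰 : Ultrafilter X) (𝒱 : Ultrafilter Y) :
    (∀ᶠ x in (𝒰 : Filter X), ∀ᶠ y in (𝒱 : Filter Y), ρ x y) ↔
      ∀ᶠ y in (𝒱 : Filter Y), ∀ᶠ x in (𝒰 : Filter X), ρ x y :=
  ⟨DL_aux h 𝒰 𝒱, DL_aux h.symm 𝒱 𝒰⟩

/-- Ramsey for pairs. -/
theorem ramsey (c : ℕ → ℕ → Prop) : ∃ g : ℕ → ℕ, StrictMono g ∧
    ((∀ i j, i < j → c (g i) (g j)) ∨ ∀ i j, i < j → ¬ c (g i) (g j)) := by
  have hgt : ∀ m : ℕ, ∀ᶠ k in (hyperfilter ℕ : Filter ℕ), m < k := by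
    intro m
    have h𝒰 : (hyperfilter ℕ : Filter ℕ) ≤ atTop := by
      rw [← Nat.cofinite_eq_atTop]; exact hyperfilter_le_cofinite
    exact h𝒰 (eventually_gt_atTop m)
  by_cases h : ∀ᶠ i in (hyperfilter ℕ : Filter ℕ), ∀ᶠ k in (hyperfilter ℕ : Filter ℕ), c i k
  · obtain ⟨f, -, hf⟩ := exists_seq_of_forall_finset_exists
      (fun i : ℕ => ∀ᶠ k in (hyperfilter ℕ : Filter ℕ), c i k) (fun i j => i < j ∧ c i j) (by
        intro s hs
        have e1 : ∀ᶠ y in (hyperfilter ℕ : Filter ℕ), ∀ p ∈ s, p < y ∧ c p y :=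
          (Filter.eventually_all_finset s).2 fun p hp => (hgt p).and (hs p hp)
        obtain ⟨y, h1, h2⟩ := (h.and e1).exists
        exact ⟨y, h1, h2⟩)
    exact ⟨f, fun i j hij => (hf i j hij).1, Or.inl fun i j hij => (hf i j hij).2⟩
  · rw [← Ultrafilter.eventually_not] at h
    obtain ⟨f, -, hf⟩ := exists_seq_of_forall_finset_exists
      (fun i : ℕ => ∀ᶠ k in (hyperfilter ℕ : Filter ℕ), ¬ c i k) (fun i j => i < j ∧ ¬ c i j) (by
        intro s hs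
        have e1 : ∀ᶠ y in (hyperfilter ℕ : Filter ℕ), ∀ p ∈ s, p < y ∧ ¬ c p y :=
          (Filter.eventually_all_finset s).2 fun p hp => (hgt p).and (hs p hp)
        obtain ⟨y, h1, h2⟩ := (h.and e1).exists
        exact ⟨y, Ultrafilter.eventually_not.2 h1, h2⟩)
    exact ⟨f, fun i j hij => (hf i j hij).1, Or.inr fun i j hij => (hf i j hij).2⟩

/-- Definability of limits of a stable relation. -/
theorem def_lemma {X Y : Type*} {n : ℕ} {ρ : X → Y → Prop} (h : NoHG n ρ)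
    (𝒰 : Ultrafilter X) :
    ∃ W : Finset X, ∀ y y', (∀ x ∈ W, (ρ x y ↔ ρ x y')) →
      ((∀ᶠ x in (𝒰 : Filter X), ρ x y) → (∀ᶠ x in (𝒰 : Filter X), ρ x y')) := by
  classical
  by_contra hcon
  push Not at hcon
  obtain ⟨f, hf, hf'⟩ := exists_seq_of_forall_finset_exists
    (fun p : X × Y × Y => (∀ᶠ x in (𝒰 : Filter X), ρ x p.2.1) ∧
      (∀ᶠ x in (𝒰 : Filter X), ¬ ρ x p.2.2) ∧ ρ p.1 p.2.1 ∧ ¬ ρ p.1 p.2.2)
    (fun p q => (ρ p.1 q.2.1 ↔ ρ p.1 q.2.2) ∧ ρ q.1 p.2.1 ∧ ¬ ρ q.1 p.2.2) (by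
      intro s hs
      obtain ⟨y, y', h1, h2, h3⟩ := hcon (s.image fun p => p.1)
      have h3' : ∀ᶠ x in (𝒰 : Filter X), ¬ ρ x y' := h3
      have e1 : ∀ᶠ x in (𝒰 : Filter X), ∀ p ∈ s, ρ x p.2.1 ∧ ¬ ρ x p.2.2 :=
        (Filter.eventually_all_finset s).2 fun p hp => (hs p hp).1.and (hs p hp).2.1
      obtain ⟨x, h4, h5, h6⟩ := (e1.and (h2.and h3')).exists
      refine ⟨(x, y, y'), ⟨h2, h3', h5, h6⟩, fun p hp => ⟨h1 _ (Finset.mem_image_of_mem _ hp),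
        h4 p hp⟩⟩)
  obtain ⟨g, hg, hc⟩ := ramsey (fun i j => ρ (f i).1 (f j).2.1)
  rcases hc with hc | hc
  · refine h ⟨fun i => (f (g i)).1, fun i => (f (g i)).2.2, fun i j => ?_⟩
    rcases lt_trichotomy i j with hij | hij | hij
    · exact ⟨fun _ => hij, fun _ => ((hf' _ _ (hg hij)).1).1 (hc i j hij)⟩
    · subst hij
      exact ⟨fun h4 => absurd h4 (hf _).2.2.2, fun h4 => absurd h4 (lt_irrefl _)⟩
    · exact ⟨fun h4 => absurd h4 (hf' _ _ (hg hij)).2.2, fun h4 => absurd h4 (not_lt.2 hij.le)⟩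
  · refine h ⟨fun i => (f (g (n - 1 - i))).1, fun j => (f (g (n - j))).2.1, fun i j => ?_⟩
    have hi := i.2
    have hj := j.2
    by_cases hij : i < j
    · refine ⟨fun _ => hij, fun _ => ?_⟩
      have hij' : (i : ℕ) < j := hij
      change ρ (f (g (n - 1 - i))).1 (f (g (n - j))).2.1
      rcases (show n - (j : ℕ) = n - 1 - i ∨ n - (j : ℕ) < n - 1 - i by omega) with h1 | h1
      · rw [h1]
        exact (hf _).2.2.1
      · exact (hf' _ _ (hg h1)).2.1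
    · refine ⟨fun h1 => ?_, fun h1 => absurd h1 hij⟩
      have hij' : ¬ (i : ℕ) < j := hij
      exact absurd h1 (hc _ _ (by omega))

section

variable {L : FirstOrder.Language.{0, 0}}

/-- the relations of `B` have no half graphs of length `n` -/
def Stable (B : Str L ℕ) (n : ℕ) : Prop :=
  ∀ (R : Σ n, L.Relations n) (s : Fin R.1 → Fin R.1 ⊕ Fin R.1),
    NoHG n (fun (a : Fin R.1 → ℕ) (b : Fin R.1 → ℕ) => B R (Sum.elim a b ∘ s))

theorem stab_sep {B : Str L ℕ} {n : ℕ} (hB : Stable B n) {N : Type} {A : Str L N}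
    (hA : FinEmb A B) {X Y : Type*} (R : Σ n, L.Relations n) (F : X → Y → Fin R.1 → N)
    (hF : ∀ k, (∃ f : X → N, ∀ x y, F x y k = f x) ∨ (∃ g : Y → N, ∀ x y, F x y k = g y)) :
    NoHG n (fun x y => A R (F x y)) := by
  classical
  rintro ⟨a, b, hab⟩
  have hF' : ∀ k, ∃ s : Fin R.1 ⊕ Fin R.1, (∃ f : X → N, (∀ x y, F x y k = f x) ∧ s = Sum.inl k) ∨
      (∃ g : Y → N, (∀ x y, F x y k = g y) ∧ s = Sum.inr k) := by
    intro k
    rcases hF k with ⟨f, hf⟩ | ⟨g, hg⟩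
    · exact ⟨Sum.inl k, Or.inl ⟨f, hf, rfl⟩⟩
    · exact ⟨Sum.inr k, Or.inr ⟨g, hg, rfl⟩⟩
  choose s hs using hF'
  obtain ⟨φ, -, hφ⟩ := hA ((Finset.univ : Finset (Fin n × Fin n × Fin R.1)).image
    fun p => F (a p.1) (b p.2.1) p.2.2)
  by_cases hn : n = 0
  · subst hn
    exact hB R s ⟨fun i => i.elim0, fun i => i.elim0, fun i => i.elim0⟩
  have z : Fin n := ⟨0, Nat.pos_of_ne_zero hn⟩
  refine hB R s ⟨fun i k => φ (F (a i) (b z) k), fun j k => φ (F (a z) (b j) k), fun i j => ?_⟩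
  refine Iff.trans ?_ (hab i j)
  refine Iff.trans ?_ (hφ R (F (a i) (b j)) (fun k => Finset.mem_image.2
    ⟨(i, j, k), Finset.mem_univ _, rfl⟩)).symm
  change B R (Sum.elim (fun k => φ (F (a i) (b z) k)) (fun k => φ (F (a z) (b j) k)) ∘ s) ↔ _
  have : Sum.elim (fun k => φ (F (a i) (b z) k)) (fun k => φ (F (a z) (b j) k)) ∘ s
      = φ ∘ F (a i) (b j) := by
    funext k
    simp only [comp_apply]
    rcases hs k with ⟨f, hf, h1⟩ | ⟨g, hg, h1⟩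
    · rw [h1, Sum.elim_inl, hf, hf]
    · rw [h1, Sum.elim_inr, hg, hg]
  rw [this]

end

end Run7.h46.S
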